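import Mathlib
import Pool.Agent.H52.GS.Def

/-!
# Project GN (helper24), MP_20ddb5_an: definitions

`Γ` is the group of all increasing lifts of a minimal, non ergodic group of circle diffeomorphisms
of class `C^(1+Lip)`; `TT` is the translation by `2 pi`.
-/

set_option autoImplicit false
open Set Filter Topology MeasureTheory

namespace Pool.Agent.H24.GN

open Pool.Agent.H52.GS (TT BB)

/-- the logarithm of the derivative -/
noncomputable def ld (f : ℝ ≃o ℝ) (x : ℝ) : ℝ := Real.log (deriv (f : ℝ → ℝ) x)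

/-- `f` is differentiable with positive derivative -/
def Rg (f : ℝ ≃o ℝ) : Prop := Differentiable ℝ (f : ℝ → ℝ) ∧ ∀ x : ℝ, 0 < deriv (f : ℝ → ℝ) x

/-- on `[a, b]` the log-derivative of `w` is Lipschitz with constant `t / (b - a)` -/
def NB (w : ℝ ≃o ℝ) (a b t : ℝ) : Prop :=
  ∀ x ∈ Icc a b, ∀ y ∈ Icc a b, |ld w x - ld w y| * (b - a) ≤ t * |x - y|

/-- on `[a, b]` the log-derivative of `w` has oscillation at most `t` -/
def DB (w : ℝ ≃o ℝ) (a b t : ℝ) : Prop := ∀ x ∈ Icc a b, ∀ y ∈ Icc a b, |ld w x - ld w y| ≤ t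

/-- `w` is controlled on `[a, b]` at cost `c` -/
def GC (w : ℝ ≃o ℝ) (a b c : ℝ) : Prop := NB w a b (c * Real.exp c) ∧ DB w a b c

/-- `x` is a `κ`-conical point -/
def Con (Γ : Subgroup (ℝ ≃o ℝ)) (κ x : ℝ) : Prop :=
  ∀ ρ : ℝ, 0 < ρ → ∃ w ∈ Γ, ∃ a b : ℝ, a < b ∧ b - a ≤ ρ ∧ a ≤ x ∧ x ≤ b ∧
    NB w a b κ⁻¹ ∧ κ ≤ w b - w a

/-- the standing facts -/
structure Gq (Γ : Subgroup (ℝ ≃o ℝ)) : Prop where
  T_mem : TT ∈ Γ
  comm : ∀ f ∈ Γ, ∀ x : ℝ, f (x + 2 * Real.pi) = f x + 2 * Real.pi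
  rg : ∀ f ∈ Γ, Rg f
  lip : ∀ f ∈ Γ, ∃ C : ℝ, 0 < C ∧ ∀ x y : ℝ, |ld f x - ld f y| ≤ C * |x - y|
  dense : ∀ x a b : ℝ, a < b → ∃ g ∈ Γ, a < g x ∧ g x < b
  hyp : ∃ q ∈ Γ, ∃ y : ℝ, q y = y ∧ deriv (q : ℝ → ℝ) y < 1
  con : ∀ κ : ℝ, 0 < κ → volume {x : ℝ | Con Γ κ x} = 0

/-- `(a, b)` is a component of the set of non fixed points of `f` -/
structure Gap (f : ℝ ≃o ℝ) (a b : ℝ) : Prop where
  lt : a < b
  fa : f a = a
  fb : f b = b
  ne : ∀ x : ℝ, a < x → x < b → f x ≠ x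

/-- a gap on which `f` moves the points to the right -/
structure GapR (f : ℝ ≃o ℝ) (a b : ℝ) : Prop where
  lt : a < b
  fa : f a = a
  fb : f b = b
  mv : ∀ x : ℝ, a < x → x < b → x < f x

/-- `f` is near the identity on its gap `(a, b)`: `|log f'| ≤ δ` and `N(f;[a,b]) ≤ B` -/
structure Nr (f : ℝ ≃o ℝ) (a b B δ : ℝ) : Prop where
  nb : NB f a b B
  sm : ∀ x ∈ Icc a b, |ld f x| ≤ δ

end Pool.Agent.H24.GN
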