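import Mathlib
import Pool.Agent.H50.GS.Defs

/-!
# GN-23: a C² diffeomorphism of the circle (Mathlib) has a C² lift

PROOF.  `F t = f (Circle.exp t)` is `ContMDiff 𝓘(ℝ) (𝓡 1) 2` (`contMDiff_circleExp`).  Continuous
lift `u`: `Circle.exp` is a covering map (look for `isCoveringMap` of `Circle.exp`, or
`Circle.isLocalHomeomorph_circleExp`/`Pool.Agent.H50.GSD.exists_isL`-style constructions already in
`Pool/Agent/H50/GSD` or `Pool/Agent/H50/GS/Lifts.lean`; or construct `u` by the differential
equation: with `v = ` the derivative of `F` divided by `i F`, `u t = arg (F 0) + ∫_0^t v`, which is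
C² because `v` is C¹ real valued: `F : ℝ → ℂ` is C² (`contMDiff_coe_sphere`), `|F| = 1`, so
`F' = i v F` with `v` real and C¹, and `(F exp(-i ∫ v))' = 0`).
`deriv u ≠ 0`: apply the same to `f⁻¹` with the lift `u'`: `u' ∘ u - id` takes values in `2 pi ℤ`, so
it is constant and `deriv u' (u t) * deriv u t = 1`.
-/

set_option autoImplicit false
open Set Filter Topology MeasureTheory
open scoped Manifold ContDiff

namespace Pool.Agent.H24.GN

open Pool.Agent.H50.GS

theorem frza_coe_contDiff (F : ℝ → Circle) (hF : ContMDiff 𝓘(ℝ, ℝ) (𝓡 1) 2 F) :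
    ContDiff ℝ 2 fun t => (F t : ℂ) := by
  have : Fact (Module.finrank ℝ ℂ = 1 + 1) := finrank_real_complex_fact'
  have h1 : ContMDiff (𝓡 1) 𝓘(ℝ, ℂ) 2 (fun z : Circle => (z : ℂ)) := contMDiff_coe_sphere
  have h2 : ContMDiff 𝓘(ℝ, ℝ) 𝓘(ℝ, ℂ) 2 (fun t => (F t : ℂ)) := h1.comp hF
  exact h2.contDiff

/-- C² lift, without the condition on the derivative -/
theorem lift_c2 (F : ℝ → Circle) (hF : ContMDiff 𝓘(ℝ, ℝ) (𝓡 1) 2 F) :
    ∃ u : ℝ → ℝ, ContDiff ℝ 2 u ∧ ∀ t, Circle.exp (u t) = F t := by
  have hφ := frza_coe_contDiff F hF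
  set φ : ℝ → ℂ := fun t => (F t : ℂ) with hφd
  have hdφ : ContDiff ℝ 1 (deriv φ) := by
    have h := (contDiff_succ_iff_deriv (n := 1) (f := φ) (𝕜 := ℝ)).1
      (by rw [one_add_one_eq_two]; exact hφ)
    exact h.2.2
  have hd : Differentiable ℝ φ := hφ.differentiable (by norm_num)
  have hconj : ∀ t, HasDerivAt (fun s => (starRingEnd ℂ) (φ s)) ((starRingEnd ℂ) (deriv φ t)) t := by
    intro t
    exact ((Complex.conjCLE : ℂ →L[ℝ] ℂ).hasFDerivAt.comp_hasDerivAt t (hd t).hasDerivAt)
  have hnorm : ∀ t, φ t * (starRingEnd ℂ) (φ t) = 1 := by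
    intro t
    rw [Complex.mul_conj]
    simp [φ, Circle.normSq_coe]
  have hzero : ∀ t, deriv φ t * (starRingEnd ℂ) (φ t) + φ t * (starRingEnd ℂ) (deriv φ t) = 0 := by
    intro t
    have h1 := (hd t).hasDerivAt.mul (hconj t)
    have h2 : HasDerivAt (fun s => φ s * (starRingEnd ℂ) (φ s)) 0 t := by
      have : (fun s => φ s * (starRingEnd ℂ) (φ s)) = fun _ => (1 : ℂ) := funext hnorm
      rw [this]
      exact hasDerivAt_const t (1 : ℂ)
    exact h1.unique h2
  let v : ℝ → ℝ := fun t => (deriv φ t * (starRingEnd ℂ) (φ t)).im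
  have hv : ContDiff ℝ 1 v := by
    have h1 : ContDiff ℝ 1 fun t => (starRingEnd ℂ) (φ t) :=
      (Complex.conjCLE : ℂ →L[ℝ] ℂ).contDiff.comp (hφ.of_le (by norm_num))
    have h2 : ContDiff ℝ 1 fun t => deriv φ t * (starRingEnd ℂ) (φ t) := hdφ.mul h1
    exact Complex.imCLM.contDiff.comp h2
  have hφ' : ∀ t, deriv φ t = Complex.I * v t * φ t := by
    intro t
    have h1 := hzero t
    have h2 : φ t * (starRingEnd ℂ) (deriv φ t) =
        (starRingEnd ℂ) (deriv φ t * (starRingEnd ℂ) (φ t)) := by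
      rw [map_mul, Complex.conj_conj, mul_comm]
    rw [h2, Complex.add_conj] at h1
    have h3 : (deriv φ t * (starRingEnd ℂ) (φ t)).re = 0 := by
      have := congrArg Complex.re h1
      simp only [Complex.ofReal_re, Complex.zero_re] at this
      linarith
    have h4 : deriv φ t * (starRingEnd ℂ) (φ t) = Complex.I * v t := by
      apply Complex.ext
      · rw [h3]
        simp
      · simp [v]
    calc deriv φ t = deriv φ t * (φ t * (starRingEnd ℂ) (φ t)) := by rw [hnorm, mul_one]
      _ = (deriv φ t * (starRingEnd ℂ) (φ t)) * φ t := by ring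
      _ = Complex.I * v t * φ t := by rw [h4]
  let u : ℝ → ℝ := fun t => Complex.arg (F 0) + ∫ s in (0:ℝ)..t, v s
  have hu : ∀ t, HasDerivAt u (v t) t := by
    intro t
    have h1 : HasDerivAt (fun t => ∫ s in (0:ℝ)..t, v s) (v t) t :=
      intervalIntegral.integral_hasDerivAt_right (hv.continuous.intervalIntegrable _ _)
        (hv.continuous.stronglyMeasurableAtFilter _ _) hv.continuous.continuousAt
    exact h1.const_add _
  have hu2 : ContDiff ℝ 2 u := by
    have hdu : deriv u = v := funext fun t => (hu t).deriv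
    have := (contDiff_succ_iff_deriv (n := 1) (f := u) (𝕜 := ℝ)).2
      ⟨fun t => (hu t).differentiableAt, by simp, by rw [hdu]; exact hv⟩
    rw [one_add_one_eq_two] at this
    exact this
  refine ⟨u, hu2, fun t => ?_⟩
  have hψ : ∀ s, HasDerivAt (fun s => φ s * Complex.exp (-(Complex.I * u s))) 0 s := by
    intro s
    have h1 : HasDerivAt (fun s => -(Complex.I * (u s : ℂ))) (-(Complex.I * (v s : ℂ))) s :=
      ((hu s).ofReal_comp.const_mul Complex.I).neg
    have h2 := (hd s).hasDerivAt.mul h1.cexp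
    refine h2.congr_deriv ?_
    rw [hφ']
    ring
  have hconst : φ t * Complex.exp (-(Complex.I * u t)) = φ 0 * Complex.exp (-(Complex.I * u 0)) :=
    is_const_of_deriv_eq_zero (fun s => (hψ s).differentiableAt) (fun s => (hψ s).deriv) t 0
  have hu0 : u 0 = Complex.arg (F 0) := by simp [u]
  have h0 : φ 0 * Complex.exp (-(Complex.I * u 0)) = 1 := by
    rw [hu0]
    have h1 : φ 0 = Complex.exp (Complex.arg (F 0) * Complex.I) := by
      have := Circle.exp_arg (F 0)
      rw [← Circle.coe_exp, this]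
    rw [h1, ← Complex.exp_add]
    have : (Complex.arg (F 0) : ℂ) * Complex.I + -(Complex.I * Complex.arg (F 0)) = 0 := by ring
    rw [this, Complex.exp_zero]
  rw [h0] at hconst
  apply Circle.ext
  rw [Circle.coe_exp]
  have h5 : Complex.exp (u t * Complex.I) * Complex.exp (-(Complex.I * u t)) = 1 := by
    rw [← Complex.exp_add]
    have : (u t : ℂ) * Complex.I + -(Complex.I * u t) = 0 := by ring
    rw [this, Complex.exp_zero]
  have h6 : Complex.exp (-(Complex.I * u t)) ≠ 0 := Complex.exp_ne_zero _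
  exact mul_right_cancel₀ h6 (h5.trans hconst.symm)

theorem lift_of_diffeo (f : Diffeomorph (𝓡 1) (𝓡 1) Circle Circle 2) :
    ∃ u, IsLift f.toHomeomorph u := by
  obtain ⟨u, hu, hu'⟩ := lift_c2 (fun t => f (Circle.exp t))
    (f.contMDiff_toFun.comp contMDiff_circleExp)
  obtain ⟨w, hw, hw'⟩ := lift_c2 (fun t => f.symm (Circle.exp t))
    (f.symm.contMDiff_toFun.comp contMDiff_circleExp)
  refine ⟨u, hu, fun t h0 => ?_, fun t => hu' t⟩
  have h1 : ∀ s, Circle.exp (w (u s)) = Circle.exp s := by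
    intro s
    rw [hw', hu']
    exact f.symm_apply_apply _
  have hud : HasDerivAt u 0 t := by
    rw [← h0]
    exact (hu.differentiable (by norm_num) t).hasDerivAt
  have hwd : HasDerivAt w (deriv w (u t)) (u t) := (hw.differentiable (by norm_num) _).hasDerivAt
  have hcomp : HasDerivAt (fun s => w (u s)) 0 t := by
    have := hwd.comp t hud
    rwa [mul_zero] at this
  have e1 : HasDerivAt (fun s : ℝ => Complex.exp ((w (u s) : ℂ) * Complex.I))
      (Complex.exp ((w (u t) : ℂ) * Complex.I) * ((0 : ℝ) * Complex.I)) t :=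
    (hcomp.ofReal_comp.mul_const Complex.I).cexp
  have e2 : HasDerivAt (fun s : ℝ => Complex.exp ((s : ℂ) * Complex.I))
      (Complex.exp ((t : ℂ) * Complex.I) * ((1 : ℝ) * Complex.I)) t :=
    ((hasDerivAt_id t).ofReal_comp.mul_const Complex.I).cexp
  have e3 : (fun s : ℝ => Complex.exp ((w (u s) : ℂ) * Complex.I)) =
      fun s : ℝ => Complex.exp ((s : ℂ) * Complex.I) := by
    funext s
    rw [← Circle.coe_exp, ← Circle.coe_exp, h1]
  rw [e3] at e1
  have e4 := e1.unique e2
  simp [Complex.exp_ne_zero, Complex.I_ne_zero] at e4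

end Pool.Agent.H24.GN
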