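import Mathlib
import Pool.Agent.H24.GN.Def

/-!
# GN-1: the calculus of `NB` and `DB`

All proofs are short.  `ld_mul`: chain rule.  `DB.bd`: mean value theorem.  `NB.mul`: for `x y` in
`[a,b]`: `|ld v (w x) - ld v (w y)| (w b - w a) ≤ t |w x - w y|` and
`|w x - w y| (b - a) ≤ exp d (w b - w a) |x - y|` (`DB.ratio_le`).  `NB.inv`: the same with
`ratio_ge`.
-/

set_option autoImplicit false
open Set Filter Topology MeasureTheory

namespace Pool.Agent.H24.GN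

open Pool.Agent.H52.GS (TT BB)

theorem calc_hd {w : ℝ ≃o ℝ} (hw : Rg w) (x : ℝ) :
    HasDerivAt (w : ℝ → ℝ) (deriv (w : ℝ → ℝ) x) x := (hw.1 x).hasDerivAt

theorem calc_inv_hd {w : ℝ ≃o ℝ} (hw : Rg w) (x : ℝ) :
    HasDerivAt ((w⁻¹ : ℝ ≃o ℝ) : ℝ → ℝ)
      (deriv (w : ℝ → ℝ) ((w⁻¹ : ℝ ≃o ℝ) x))⁻¹ x := by
  refine HasDerivAt.of_local_left_inverse (f := (w : ℝ → ℝ)) ?_ (calc_hd hw _) (hw.2 _).ne' ?_
  · exact (OrderIso.continuous w⁻¹).continuousAt
  · exact Eventually.of_forall fun y => RelIso.apply_inv_self w y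

theorem calc_mul_hd {v w : ℝ ≃o ℝ} (hv : Rg v) (hw : Rg w) (x : ℝ) :
    HasDerivAt ((v * w : ℝ ≃o ℝ) : ℝ → ℝ)
      (deriv (v : ℝ → ℝ) (w x) * deriv (w : ℝ → ℝ) x) x := by
  have h1 := (calc_hd hv (w x)).comp x (calc_hd hw x)
  exact h1

theorem rg_one : Rg 1 := by
  have h : ∀ x : ℝ, HasDerivAt ((1 : ℝ ≃o ℝ) : ℝ → ℝ) 1 x := fun x => hasDerivAt_id x
  refine ⟨fun x => (h x).differentiableAt, fun x => ?_⟩
  rw [(h x).deriv]
  exact one_pos

theorem rg_mul {v w : ℝ ≃o ℝ} (hv : Rg v) (hw : Rg w) : Rg (v * w) := by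
  refine ⟨fun x => (calc_mul_hd hv hw x).differentiableAt, fun x => ?_⟩
  rw [(calc_mul_hd hv hw x).deriv]
  exact mul_pos (hv.2 _) (hw.2 _)

theorem rg_inv {w : ℝ ≃o ℝ} (hw : Rg w) : Rg w⁻¹ := by
  refine ⟨fun x => (calc_inv_hd hw x).differentiableAt, fun x => ?_⟩
  rw [(calc_inv_hd hw x).deriv]
  exact inv_pos.mpr (hw.2 _)

theorem calc_rg_npow {w : ℝ ≃o ℝ} (hw : Rg w) (n : ℕ) : Rg (w ^ n) := by
  induction n with
  | zero => rw [pow_zero]; exact rg_one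
  | succ n ih => rw [pow_succ]; exact rg_mul ih hw

theorem rg_zpow {w : ℝ ≃o ℝ} (hw : Rg w) (k : ℤ) : Rg (w ^ k) := by
  cases k with
  | ofNat n => rw [Int.ofNat_eq_natCast, zpow_natCast]; exact calc_rg_npow hw n
  | negSucc n => rw [zpow_negSucc]; exact rg_inv (calc_rg_npow hw _)

theorem ld_mul {v w : ℝ ≃o ℝ} (hv : Rg v) (hw : Rg w) (x : ℝ) :
    ld (v * w) x = ld v (w x) + ld w x := by
  unfold ld
  rw [(calc_mul_hd hv hw x).deriv, Real.log_mul (hv.2 _).ne' (hw.2 _).ne']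

theorem ld_one (x : ℝ) : ld 1 x = 0 := by
  have h : HasDerivAt ((1 : ℝ ≃o ℝ) : ℝ → ℝ) 1 x := hasDerivAt_id x
  unfold ld
  rw [h.deriv, Real.log_one]

theorem ld_inv' {w : ℝ ≃o ℝ} (hw : Rg w) (x : ℝ) :
    ld w⁻¹ x = - ld w ((w⁻¹ : ℝ ≃o ℝ) x) := by
  unfold ld
  rw [(calc_inv_hd hw x).deriv, Real.log_inv]

theorem ld_inv {w : ℝ ≃o ℝ} (hw : Rg w) (x : ℝ) : ld w⁻¹ (w x) = - ld w x := by
  rw [ld_inv' hw, RelIso.inv_apply_self]

theorem calc_TT_apply (k : ℤ) (x : ℝ) : (TT ^ k : ℝ ≃o ℝ) x = x + k * (2 * Real.pi) := by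
  have h1 : ∀ (n : ℕ) (x : ℝ), (TT ^ n : ℝ ≃o ℝ) x = x + n * (2 * Real.pi) := by
    intro n
    induction n with
    | zero => intro x; simp
    | succ n ih =>
      intro x
      rw [pow_succ]
      have : (TT ^ n * TT : ℝ ≃o ℝ) x = (TT ^ n : ℝ ≃o ℝ) (x + 2 * Real.pi) := rfl
      rw [this, ih]
      push_cast
      ring
  cases k with
  | ofNat n =>
    rw [Int.ofNat_eq_natCast, zpow_natCast, h1]
    push_cast
    ring
  | negSucc n =>
    rw [zpow_negSucc]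
    have h2 : (TT ^ (n + 1) : ℝ ≃o ℝ) (((TT ^ (n + 1))⁻¹ : ℝ ≃o ℝ) x) = x :=
      RelIso.apply_inv_self _ x
    rw [h1] at h2
    rw [Int.cast_negSucc]
    push_cast at h2 ⊢
    linarith

theorem calc_TT_hd (k : ℤ) (x : ℝ) : HasDerivAt ((TT ^ k : ℝ ≃o ℝ) : ℝ → ℝ) 1 x := by
  have h1 : ((TT ^ k : ℝ ≃o ℝ) : ℝ → ℝ) = fun x : ℝ => x + k * (2 * Real.pi) := by
    funext y
    exact calc_TT_apply k y
  rw [h1]
  exact (hasDerivAt_id x).add_const _

theorem calc_rg_TT (k : ℤ) : Rg (TT ^ k) := by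
  refine ⟨fun x => (calc_TT_hd k x).differentiableAt, fun x => ?_⟩
  rw [(calc_TT_hd k x).deriv]
  exact one_pos

theorem ld_TT (k : ℤ) (x : ℝ) : ld (TT ^ k) x = 0 := by
  unfold ld
  rw [(calc_TT_hd k x).deriv, Real.log_one]

theorem NB.mono {w : ℝ ≃o ℝ} {a b s t : ℝ} (h : NB w a b s) (hst : s ≤ t) : NB w a b t := by
  intro x hx y hy
  exact (h x hx y hy).trans (mul_le_mul_of_nonneg_right hst (abs_nonneg _))

theorem DB.mono {w : ℝ ≃o ℝ} {a b s t : ℝ} (h : DB w a b s) (hst : s ≤ t) : DB w a b t := by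
  intro x hx y hy
  exact (h x hx y hy).trans hst

theorem NB.nonneg {w : ℝ ≃o ℝ} {a b t : ℝ} (h : NB w a b t) (hab : a < b) : 0 ≤ t := by
  have h1 := h a (left_mem_Icc.mpr hab.le) b (right_mem_Icc.mpr hab.le)
  have h2 : 0 ≤ |ld w a - ld w b| * (b - a) := mul_nonneg (abs_nonneg _) (by linarith)
  have h3 : 0 < |a - b| := abs_pos.mpr (by linarith)
  by_contra h4
  push Not at h4
  have := mul_neg_of_neg_of_pos h4 h3
  linarith

theorem DB.nonneg {w : ℝ ≃o ℝ} {a b t : ℝ} (h : DB w a b t) (hab : a ≤ b) : 0 ≤ t :=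
  (abs_nonneg _).trans (h a (left_mem_Icc.mpr hab) a (left_mem_Icc.mpr hab))

theorem NB.db {w : ℝ ≃o ℝ} {a b t : ℝ} (h : NB w a b t) (hab : a < b) : DB w a b t := by
  intro x hx y hy
  have h1 := h x hx y hy
  have h2 : |x - y| ≤ b - a := by
    rw [abs_le]
    constructor <;> linarith [hx.1, hx.2, hy.1, hy.2]
  have h3 := h.nonneg hab
  have h4 : |ld w x - ld w y| * (b - a) ≤ t * (b - a) :=
    h1.trans (mul_le_mul_of_nonneg_left h2 h3)
  exact le_of_mul_le_mul_right h4 (by linarith)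

theorem NB.sub {w : ℝ ≃o ℝ} {a b c d t : ℝ} (h : NB w a b t) (hac : a ≤ c) (hcd : c < d)
    (hdb : d ≤ b) : NB w c d (t * ((d - c) / (b - a))) := by
  intro x hx y hy
  have h1 := h x ⟨hac.trans hx.1, hx.2.trans hdb⟩ y ⟨hac.trans hy.1, hy.2.trans hdb⟩
  have h0 : 0 < b - a := by linarith
  have h2 : 0 ≤ (d - c) / (b - a) := div_nonneg (by linarith) h0.le
  have h3 := mul_le_mul_of_nonneg_right h1 h2
  have h4 : |ld w x - ld w y| * (b - a) * ((d - c) / (b - a)) = |ld w x - ld w y| * (d - c) := by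
    field_simp
  rw [h4] at h3
  calc |ld w x - ld w y| * (d - c) ≤ t * |x - y| * ((d - c) / (b - a)) := h3
    _ = t * ((d - c) / (b - a)) * |x - y| := by ring

theorem NB.sub' {w : ℝ ≃o ℝ} {a b c d t : ℝ} (h : NB w a b t) (hac : a ≤ c) (hcd : c < d)
    (hdb : d ≤ b) : NB w c d t := by
  have h0 : 0 < b - a := by linarith
  have ht : 0 ≤ t := h.nonneg (by linarith)
  refine (h.sub hac hcd hdb).mono ?_
  have h1 : (d - c) / (b - a) ≤ 1 := by
    rw [div_le_one h0]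
    linarith
  calc t * ((d - c) / (b - a)) ≤ t * 1 := mul_le_mul_of_nonneg_left h1 ht
    _ = t := mul_one t

theorem DB.sub {w : ℝ ≃o ℝ} {a b c d t : ℝ} (h : DB w a b t) (hac : a ≤ c) (hdb : d ≤ b) :
    DB w c d t := by
  intro x hx y hy
  exact h x ⟨hac.trans hx.1, hx.2.trans hdb⟩ y ⟨hac.trans hy.1, hy.2.trans hdb⟩

theorem calc_mvt {w : ℝ ≃o ℝ} (hw : Rg w) {y z : ℝ} (hyz : y < z) :
    ∃ c : ℝ, y < c ∧ c < z ∧ w z - w y = deriv (w : ℝ → ℝ) c * (z - y) := by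
  obtain ⟨c, hc, h⟩ := exists_deriv_eq_slope (w : ℝ → ℝ) hyz
    (hw.1.continuous.continuousOn) (hw.1.differentiableOn)
  refine ⟨c, hc.1, hc.2, ?_⟩
  have : z - y ≠ 0 := by linarith
  rw [h]
  field_simp

theorem calc_exp_ld {w : ℝ ≃o ℝ} (hw : Rg w) (x : ℝ) :
    Real.exp (ld w x) = deriv (w : ℝ → ℝ) x := Real.exp_log (hw.2 x)

theorem DB.le {w : ℝ ≃o ℝ} (hw : Rg w) {a b t : ℝ} (h : DB w a b t) {x y z : ℝ}
    (hx : x ∈ Icc a b) (hy : y ∈ Icc a b) (hz : z ∈ Icc a b) (hyz : y ≤ z) :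
    w z - w y ≤ Real.exp t * deriv (w : ℝ → ℝ) x * (z - y) := by
  rcases hyz.eq_or_lt with rfl | hlt
  · simp
  obtain ⟨c, h1, h2, h3⟩ := calc_mvt hw hlt
  rw [h3]
  refine mul_le_mul_of_nonneg_right ?_ (by linarith)
  have h4 := h c ⟨hy.1.trans h1.le, h2.le.trans hz.2⟩ x hx
  rw [abs_le] at h4
  rw [← calc_exp_ld hw c, ← calc_exp_ld hw x, ← Real.exp_add]
  exact Real.exp_le_exp.mpr (by linarith [h4.2])

theorem DB.ge {w : ℝ ≃o ℝ} (hw : Rg w) {a b t : ℝ} (h : DB w a b t) {x y z : ℝ}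
    (hx : x ∈ Icc a b) (hy : y ∈ Icc a b) (hz : z ∈ Icc a b) (hyz : y ≤ z) :
    Real.exp (-t) * deriv (w : ℝ → ℝ) x * (z - y) ≤ w z - w y := by
  rcases hyz.eq_or_lt with rfl | hlt
  · simp
  obtain ⟨c, h1, h2, h3⟩ := calc_mvt hw hlt
  rw [h3]
  refine mul_le_mul_of_nonneg_right ?_ (by linarith)
  have h4 := h c ⟨hy.1.trans h1.le, h2.le.trans hz.2⟩ x hx
  rw [abs_le] at h4
  rw [← calc_exp_ld hw c, ← calc_exp_ld hw x, ← Real.exp_add]
  exact Real.exp_le_exp.mpr (by linarith [h4.1])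

theorem DB.ratio_le {w : ℝ ≃o ℝ} (hw : Rg w) {a b t : ℝ} (h : DB w a b t) {y z : ℝ}
    (hy : y ∈ Icc a b) (hz : z ∈ Icc a b) (hyz : y ≤ z) :
    (w z - w y) * (b - a) ≤ Real.exp t * (w b - w a) * (z - y) := by
  have hab : a ≤ b := hy.1.trans hy.2
  rcases hab.eq_or_lt with rfl | hlt
  · have h1 : y = a := le_antisymm hy.2 hy.1
    have h2 : z = a := le_antisymm hz.2 hz.1
    simp [h1, h2]
  obtain ⟨c, h1, h2, h3⟩ := calc_mvt hw hlt
  have h4 := DB.le hw h (x := c) ⟨h1.le, h2.le⟩ hy hz hyz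
  rw [h3]
  calc (w z - w y) * (b - a) ≤ (Real.exp t * deriv (w : ℝ → ℝ) c * (z - y)) * (b - a) :=
        mul_le_mul_of_nonneg_right h4 (by linarith)
    _ = Real.exp t * (deriv (w : ℝ → ℝ) c * (b - a)) * (z - y) := by ring

theorem DB.ratio_ge {w : ℝ ≃o ℝ} (hw : Rg w) {a b t : ℝ} (h : DB w a b t) {y z : ℝ}
    (hy : y ∈ Icc a b) (hz : z ∈ Icc a b) (hyz : y ≤ z) :
    Real.exp (-t) * (w b - w a) * (z - y) ≤ (w z - w y) * (b - a) := by
  have hab : a ≤ b := hy.1.trans hy.2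
  rcases hab.eq_or_lt with rfl | hlt
  · have h1 : y = a := le_antisymm hy.2 hy.1
    have h2 : z = a := le_antisymm hz.2 hz.1
    simp [h1, h2]
  obtain ⟨c, h1, h2, h3⟩ := calc_mvt hw hlt
  have h4 := DB.ge hw h (x := c) ⟨h1.le, h2.le⟩ hy hz hyz
  rw [h3]
  calc Real.exp (-t) * (deriv (w : ℝ → ℝ) c * (b - a)) * (z - y)
      = (Real.exp (-t) * deriv (w : ℝ → ℝ) c * (z - y)) * (b - a) := by ring
    _ ≤ (w z - w y) * (b - a) := mul_le_mul_of_nonneg_right h4 (by linarith)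

theorem calc_mem {w : ℝ ≃o ℝ} {a b x : ℝ} (hx : x ∈ Icc a b) : w x ∈ Icc (w a) (w b) :=
  ⟨w.monotone hx.1, w.monotone hx.2⟩

theorem calc_mem_inv {w : ℝ ≃o ℝ} {a b x : ℝ} (hx : x ∈ Icc (w a) (w b)) :
    (w⁻¹ : ℝ ≃o ℝ) x ∈ Icc a b := by
  have h : w ((w⁻¹ : ℝ ≃o ℝ) x) = x := RelIso.apply_inv_self w x
  refine ⟨?_, ?_⟩
  · rw [← w.le_iff_le, h]
    exact hx.1
  · rw [← w.le_iff_le, h]
    exact hx.2

theorem DB.mul {v w : ℝ ≃o ℝ} (hv : Rg v) (hw : Rg w) {a b s t : ℝ} (h : DB w a b s)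
    (h' : DB v (w a) (w b) t) : DB (v * w) a b (s + t) := by
  intro x hx y hy
  rw [ld_mul hv hw, ld_mul hv hw]
  have h1 := h x hx y hy
  have h2 := h' (w x) (calc_mem hx) (w y) (calc_mem hy)
  rw [abs_le] at h1 h2 ⊢
  constructor <;> linarith [h1.1, h1.2, h2.1, h2.2]

theorem DB.inv {w : ℝ ≃o ℝ} (hw : Rg w) {a b s : ℝ} (h : DB w a b s) :
    DB w⁻¹ (w a) (w b) s := by
  intro x hx y hy
  rw [ld_inv' hw, ld_inv' hw]
  have h1 := h _ (calc_mem_inv hx) _ (calc_mem_inv hy)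
  rw [abs_le] at h1 ⊢
  constructor <;> linarith [h1.1, h1.2]

/-- symmetric form of `DB.ratio_le` -/
theorem calc_ratio_le {w : ℝ ≃o ℝ} (hw : Rg w) {a b t : ℝ} (h : DB w a b t) {y z : ℝ}
    (hy : y ∈ Icc a b) (hz : z ∈ Icc a b) :
    |w y - w z| * (b - a) ≤ Real.exp t * (w b - w a) * |y - z| := by
  rcases le_total y z with hyz | hyz
  · rw [abs_sub_comm (w y), abs_sub_comm y, abs_of_nonneg (sub_nonneg.mpr hyz),
      abs_of_nonneg (sub_nonneg.mpr (w.monotone hyz))]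
    exact DB.ratio_le hw h hy hz hyz
  · rw [abs_of_nonneg (sub_nonneg.mpr hyz),
      abs_of_nonneg (sub_nonneg.mpr (w.monotone hyz))]
    exact DB.ratio_le hw h hz hy hyz

/-- symmetric form of `DB.ratio_ge` -/
theorem calc_ratio_ge {w : ℝ ≃o ℝ} (hw : Rg w) {a b t : ℝ} (h : DB w a b t) {y z : ℝ}
    (hy : y ∈ Icc a b) (hz : z ∈ Icc a b) :
    Real.exp (-t) * (w b - w a) * |y - z| ≤ |w y - w z| * (b - a) := by
  rcases le_total y z with hyz | hyz
  · rw [abs_sub_comm (w y), abs_sub_comm y, abs_of_nonneg (sub_nonneg.mpr hyz),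
      abs_of_nonneg (sub_nonneg.mpr (w.monotone hyz))]
    exact DB.ratio_ge hw h hy hz hyz
  · rw [abs_of_nonneg (sub_nonneg.mpr hyz),
      abs_of_nonneg (sub_nonneg.mpr (w.monotone hyz))]
    exact DB.ratio_ge hw h hz hy hyz

theorem NB.mul {v w : ℝ ≃o ℝ} (hv : Rg v) (hw : Rg w) {a b s t d : ℝ} (hab : a < b)
    (h : NB w a b s) (hd : DB w a b d) (h' : NB v (w a) (w b) t) :
    NB (v * w) a b (s + Real.exp d * t) := by
  intro x hx y hy
  rw [ld_mul hv hw, ld_mul hv hw]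
  have hwab : w a < w b := w.strictMono hab
  have ht : 0 ≤ t := h'.nonneg hwab
  have h1 := h x hx y hy
  have h2 := h' (w x) (calc_mem hx) (w y) (calc_mem hy)
  have h3 := calc_ratio_le hw hd hx hy
  have h0 : 0 < b - a := by linarith
  have h0' : 0 < w b - w a := by linarith
  -- `|ld v (w x) - ld v (w y)| (b - a) ≤ t exp d |x - y|`
  have h4 : |ld v (w x) - ld v (w y)| * (b - a) ≤ Real.exp d * t * |x - y| := by
    have h5 : (|ld v (w x) - ld v (w y)| * (b - a)) * (w b - w a) ≤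
        (Real.exp d * t * |x - y|) * (w b - w a) := by
      calc (|ld v (w x) - ld v (w y)| * (b - a)) * (w b - w a)
          = (|ld v (w x) - ld v (w y)| * (w b - w a)) * (b - a) := by ring
        _ ≤ (t * |w x - w y|) * (b - a) := mul_le_mul_of_nonneg_right h2 h0.le
        _ = t * (|w x - w y| * (b - a)) := by ring
        _ ≤ t * (Real.exp d * (w b - w a) * |x - y|) := mul_le_mul_of_nonneg_left h3 ht
        _ = (Real.exp d * t * |x - y|) * (w b - w a) := by ring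
    exact le_of_mul_le_mul_right h5 h0'
  have h6 : |ld v (w x) + ld w x - (ld v (w y) + ld w y)| ≤
      |ld w x - ld w y| + |ld v (w x) - ld v (w y)| := by
    have : ld v (w x) + ld w x - (ld v (w y) + ld w y) =
      (ld w x - ld w y) + (ld v (w x) - ld v (w y)) := by ring
    rw [this]
    exact abs_add_le _ _
  calc |ld v (w x) + ld w x - (ld v (w y) + ld w y)| * (b - a)
      ≤ (|ld w x - ld w y| + |ld v (w x) - ld v (w y)|) * (b - a) :=
        mul_le_mul_of_nonneg_right h6 h0.le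
    _ = |ld w x - ld w y| * (b - a) + |ld v (w x) - ld v (w y)| * (b - a) := by ring
    _ ≤ s * |x - y| + Real.exp d * t * |x - y| := add_le_add h1 h4
    _ = (s + Real.exp d * t) * |x - y| := by ring

theorem NB.inv {w : ℝ ≃o ℝ} (hw : Rg w) {a b s d : ℝ} (hab : a < b) (h : NB w a b s)
    (hd : DB w a b d) : NB w⁻¹ (w a) (w b) (Real.exp d * s) := by
  intro x hx y hy
  rw [ld_inv' hw, ld_inv' hw]
  have hs : 0 ≤ s := h.nonneg hab
  have hx' := calc_mem_inv hx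
  have hy' := calc_mem_inv hy
  have h1 := h _ hx' _ hy'
  have h3 := calc_ratio_ge hw hd hx' hy'
  rw [RelIso.apply_inv_self w x, RelIso.apply_inv_self w y] at h3
  have h0 : 0 < b - a := by linarith
  have h0' : 0 < w b - w a := by linarith [w.strictMono hab]
  set x' := (w⁻¹ : ℝ ≃o ℝ) x with hx'd
  set y' := (w⁻¹ : ℝ ≃o ℝ) y with hy'd
  have h6 : |-ld w x' - -ld w y'| = |ld w x' - ld w y'| := by
    rw [← abs_neg]
    congr 1
    ring
  rw [h6]
  have he : Real.exp d * Real.exp (-d) = 1 := by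
    rw [← Real.exp_add]
    simp
  have h7 : (w b - w a) * |x' - y'| ≤ Real.exp d * (|x - y| * (b - a)) := by
    calc (w b - w a) * |x' - y'| = Real.exp d * (Real.exp (-d) * (w b - w a) * |x' - y'|) := by
          rw [← mul_assoc, ← mul_assoc, he, one_mul]
      _ ≤ Real.exp d * (|x - y| * (b - a)) :=
          mul_le_mul_of_nonneg_left h3 (Real.exp_pos _).le
  have h5 : (|ld w x' - ld w y'| * (w b - w a)) * (b - a) ≤
      (Real.exp d * s * |x - y|) * (b - a) := by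
    calc (|ld w x' - ld w y'| * (w b - w a)) * (b - a)
        = (|ld w x' - ld w y'| * (b - a)) * (w b - w a) := by ring
      _ ≤ (s * |x' - y'|) * (w b - w a) := mul_le_mul_of_nonneg_right h1 h0'.le
      _ = s * ((w b - w a) * |x' - y'|) := by ring
      _ ≤ s * (Real.exp d * (|x - y| * (b - a))) := mul_le_mul_of_nonneg_left h7 hs
      _ = (Real.exp d * s * |x - y|) * (b - a) := by ring
  exact le_of_mul_le_mul_right h5 h0

theorem NB.one (a b : ℝ) : NB 1 a b 0 := by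
  intro x _ y _
  rw [ld_one, ld_one]
  simp

theorem NB.tt (k : ℤ) (a b : ℝ) : NB (TT ^ k) a b 0 := by
  intro x _ y _
  rw [ld_TT, ld_TT]
  simp

theorem calc_GC_mul {v w : ℝ ≃o ℝ} (hv : Rg v) (hw : Rg w) {a b c c' : ℝ} (hab : a < b)
    (hc : 0 ≤ c) (h : GC w a b c) (h' : GC v (w a) (w b) c') : GC (v * w) a b (c + c') := by
  have hwab : w a < w b := w.strictMono hab
  have hc' : 0 ≤ c' := h'.2.nonneg hwab.le
  refine ⟨(NB.mul hv hw hab h.1 h.2 h'.1).mono ?_, DB.mul hv hw h.2 h'.2⟩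
  have h1 : Real.exp c ≤ Real.exp (c + c') := Real.exp_le_exp.mpr (by linarith)
  calc c * Real.exp c + Real.exp c * (c' * Real.exp c')
      = c * Real.exp c + c' * (Real.exp c * Real.exp c') := by ring
    _ = c * Real.exp c + c' * Real.exp (c + c') := by rw [Real.exp_add]
    _ ≤ c * Real.exp (c + c') + c' * Real.exp (c + c') :=
        add_le_add (mul_le_mul_of_nonneg_left h1 hc) le_rfl
    _ = (c + c') * Real.exp (c + c') := by ring

theorem calc_NB_GC {w : ℝ ≃o ℝ} {a b c : ℝ} (hab : a < b) (h : NB w a b c) : GC w a b c := by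
  have hc : 0 ≤ c := h.nonneg hab
  refine ⟨h.mono ?_, h.db hab⟩
  calc c = c * 1 := (mul_one c).symm
    _ ≤ c * Real.exp c := mul_le_mul_of_nonneg_left (Real.one_le_exp hc) hc

/-- cost is additive -/
theorem GC.mul {v w : ℝ ≃o ℝ} (hv : Rg v) (hw : Rg w) {a b c c' : ℝ} (hab : a < b)
    (hc : 0 ≤ c) (h : GC w a b c) (h' : NB v (w a) (w b) c') : GC (v * w) a b (c + c') := by
  exact calc_GC_mul hv hw hab hc h (calc_NB_GC (w.strictMono hab) h')

theorem GC.mono {w : ℝ ≃o ℝ} {a b c c' : ℝ} (h : GC w a b c) (hc : 0 ≤ c) (hcc : c ≤ c') :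
    GC w a b c' := by
  refine ⟨h.1.mono ?_, h.2.mono hcc⟩
  exact mul_le_mul hcc (Real.exp_le_exp.mpr hcc) (Real.exp_pos _).le (hc.trans hcc)

theorem GC.one (a b : ℝ) : GC 1 a b 0 := by
  refine ⟨?_, ?_⟩
  · intro x _ y _
    rw [ld_one, ld_one]
    simp
  · intro x _ y _
    rw [ld_one, ld_one]
    simp

theorem GC.tt (k : ℤ) (a b : ℝ) : GC (TT ^ k) a b 0 := by
  refine ⟨?_, ?_⟩
  · intro x _ y _
    rw [ld_TT, ld_TT]
    simp
  · intro x _ y _
    rw [ld_TT, ld_TT]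
    simp

/-- precomposition with a translation -/
theorem NB.mul_TT {w : ℝ ≃o ℝ} (hw : Rg w) (k : ℤ) {a b t : ℝ}
    (h : NB w ((TT ^ k) a) ((TT ^ k) b) t) : NB (w * TT ^ k) a b t := by
  intro x hx y hy
  rw [ld_mul hw (calc_rg_TT k), ld_mul hw (calc_rg_TT k), ld_TT, ld_TT]
  have h1 := h _ (calc_mem hx) _ (calc_mem hy)
  simp only [calc_TT_apply] at h1 ⊢
  have e1 : b + (k : ℝ) * (2 * Real.pi) - (a + (k : ℝ) * (2 * Real.pi)) = b - a := by ring
  have e2 : x + (k : ℝ) * (2 * Real.pi) - (y + (k : ℝ) * (2 * Real.pi)) = x - y := by ring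
  rw [e1, e2] at h1
  simpa using h1

theorem Nr.mono {f : ℝ ≃o ℝ} {a b B B' δ δ' : ℝ} (h : Nr f a b B δ) (hB : B ≤ B')
    (hδ : δ ≤ δ') : Nr f a b B' δ' :=
  ⟨h.nb.mono hB, fun x hx => (h.sm x hx).trans hδ⟩

/-- the inverse of a near-identity map on its gap -/
theorem Nr.inv {f : ℝ ≃o ℝ} (hf : Rg f) {a b B δ : ℝ} (hab : a < b) (fa : f a = a)
    (fb : f b = b) (h : Nr f a b B δ) : Nr f⁻¹ a b (Real.exp B * B) δ := by
  have h1 := NB.inv hf hab h.nb (h.nb.db hab)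
  rw [fa, fb] at h1
  refine ⟨h1, fun x hx => ?_⟩
  rw [ld_inv' hf, abs_neg]
  refine h.sm _ (calc_mem_inv ?_)
  rw [fa, fb]
  exact hx

theorem calc_exp_sub_one {δ u : ℝ} (hδ : δ ≤ 1) (hu : |u| ≤ δ) : |Real.exp u - 1| ≤ 2 * δ := by
  have h0 : 0 ≤ δ := (abs_nonneg _).trans hu
  have h1 : |u| ≤ 1 := hu.trans hδ
  have h2 := Real.abs_exp_sub_one_le h1
  linarith

/-- the displacement is `2 δ`-Lipschitz -/
theorem step_lip {f : ℝ ≃o ℝ} (hf : Rg f) {a b δ : ℝ} (hδ : δ ≤ 1)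
    (h : ∀ x ∈ Icc a b, |ld f x| ≤ δ) {x y : ℝ} (hx : x ∈ Icc a b) (hy : y ∈ Icc a b) :
    |(f x - x) - (f y - y)| ≤ 2 * δ * |x - y| := by
  have key : ∀ x y : ℝ, x ∈ Icc a b → y ∈ Icc a b → y < x →
      |(f x - x) - (f y - y)| ≤ 2 * δ * |x - y| := by
    intro x y hx hy hlt
    obtain ⟨c, h1, h2, h3⟩ := calc_mvt hf hlt
    have h4 : (f x - x) - (f y - y) = (deriv (f : ℝ → ℝ) c - 1) * (x - y) := by
      linarith [h3]
    rw [h4, abs_mul]
    refine mul_le_mul_of_nonneg_right ?_ (abs_nonneg _)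
    rw [← calc_exp_ld hf c]
    exact calc_exp_sub_one hδ (h c ⟨hy.1.trans h1.le, h2.le.trans hx.2⟩)
  rcases lt_trichotomy x y with hlt | rfl | hlt
  · have h1 := key y x hy hx hlt
    rw [abs_sub_comm (f x - x), abs_sub_comm x]
    exact h1
  · simp
  · exact key x y hx hy hlt

/-- displacement in terms of the derivative near a fixed point -/
theorem step_le {f : ℝ ≃o ℝ} (hf : Rg f) {a b δ : ℝ} (hδ : δ ≤ 1)
    (h : ∀ x ∈ Icc a b, |ld f x| ≤ δ) {x : ℝ} (hx : x ∈ Icc a b) :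
    (f a = a → |f x - x| ≤ 2 * δ * (x - a)) ∧ (f b = b → |f x - x| ≤ 2 * δ * (b - x)) := by
  have hab : a ≤ b := hx.1.trans hx.2
  refine ⟨fun fa => ?_, fun fb => ?_⟩
  · have h1 := step_lip hf hδ h hx (left_mem_Icc.mpr hab)
    rw [fa, sub_self, sub_zero, abs_of_nonneg (sub_nonneg.mpr hx.1)] at h1
    exact h1
  · have h1 := step_lip hf hδ h hx (right_mem_Icc.mpr hab)
    rw [fb, sub_self, sub_zero, abs_sub_comm x, abs_of_nonneg (sub_nonneg.mpr hx.2)] at h1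
    exact h1

end Pool.Agent.H24.GN
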