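import Mathlib
import Pool.Agent.H24.GN.Def
import Pool.Agent.H50.GSD.D16
import Pool.Agent.H50.GSD.K5
import Pool.Agent.H25.KH.Main

/-!
# GN-19: regularity of the lifts, rational rotation numbers (class C²)

PROOF.  `Lf_c2`: `f` is an increasing lift of `g ∈ G` and `g` has a C² lift `u` with `u' ≠ 0`; `f - u`
(or `f + u`: impossible, orientation) is a continuous function with `exp (i (f - u)) = 1`, so it is a
constant in `2 pi ℤ`; compare `isL_c2`, `isL_an` in `GSD/D2.lean`.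
`Lf_lip`: `log (deriv f)` is C¹ and periodic, so its derivative is bounded.
`Lf_ratC`: as `Lf_rat` in `GSD/K8.lean` (that one is stated for real-analytic groups; the proof only
uses the C² property of the lifts, i.e. `kh`); the formal proof cites the Katok-Herman theorem
`H25.KH.katok_herman`, as `GSD/KR.lean` does.
-/

set_option autoImplicit false
open Set Filter Topology MeasureTheory

namespace Pool.Agent.H24.GN

open Pool.Agent.H52.GS (TT BB)
open Pool.Agent.H50.GS Pool.Agent.H50.GSD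

theorem Lf_c2 {G : Subgroup (Circle ≃ₜ Circle)} (hC : C2Group G) {f : ℝ ≃o ℝ} (hf : f ∈ Lf G) :
    C2p f := by
  obtain ⟨g, hg, hl⟩ := hf
  obtain ⟨u, hu, hu', hue⟩ := hC g hg
  obtain ⟨m, hm⟩ := lifts_diff f.continuous hu.continuous (fun t => (hl t).trans (hue t).symm)
  have hfu : (f : ℝ → ℝ) = fun t => u t + m * (2 * Real.pi) := funext hm
  refine ⟨?_, fun t => ?_⟩
  · rw [hfu]
    exact hu.add contDiff_const
  · have h1 : deriv (f : ℝ → ℝ) t = deriv u t := by
      rw [hfu, deriv_add_const]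
    have h2 : 0 ≤ deriv (f : ℝ → ℝ) t := f.monotone.deriv_nonneg
    rw [h1] at h2 ⊢
    exact lt_of_le_of_ne h2 (hu' t).symm

theorem Lf_rg {G : Subgroup (Circle ≃ₜ Circle)} (hC : C2Group G) {f : ℝ ≃o ℝ} (hf : f ∈ Lf G) :
    Rg f := by
  have h := Lf_c2 hC hf
  exact ⟨h.1.differentiable (by norm_num), h.2⟩

theorem Lf_lip {G : Subgroup (Circle ≃ₜ Circle)} (hC : C2Group G) {f : ℝ ≃o ℝ} (hf : f ∈ Lf G) :
    ∃ C : ℝ, 0 < C ∧ ∀ x y : ℝ, |ld f x - ld f y| ≤ C * |x - y| := by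
  have hper : Per f := by
    obtain ⟨g, hg, hl⟩ := hf
    exact isL_per hl
  obtain ⟨C, hC0, hCd⟩ := dist_bd hper (Lf_c2 hC hf)
  refine ⟨C + 1, by linarith, fun x y => ?_⟩
  have h1 := hCd 1 (min x y) (max x y) x y ⟨min_le_left _ _, le_max_left _ _⟩
    ⟨min_le_right _ _, le_max_right _ _⟩
  rw [pow_one, Finset.sum_range_one, pow_zero] at h1
  have h2 : (1 : ℝ ≃o ℝ) (max x y) - (1 : ℝ ≃o ℝ) (min x y) = |x - y| := by
    change max x y - min x y = |x - y|
    rw [max_sub_min_eq_abs, abs_sub_comm]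
  rw [h2] at h1
  have h3 : 0 ≤ |x - y| := abs_nonneg _
  unfold ld
  nlinarith

theorem Lf_ratC {G : Subgroup (Circle ≃ₜ Circle)} (hC : C2Group G) (hne : ¬ LebErgodic G) :
    ∀ f ∈ Lf G, ∃ q : ℕ, 0 < q ∧ ∃ k : ℤ, ∃ z : ℝ, (f ^ q) z = z + k * (2 * Real.pi) := by
  intro f hfL
  obtain ⟨g, hg, hf⟩ := hfL
  by_contra hcon
  have hfree : Free f := fun q hq k z hz => hcon ⟨q, hq, k, z, hz⟩
  apply hne
  intro A hA hinv
  have hc := Lf_c2 hC (f := f) ⟨g, hg, hf⟩
  refine H25.KH.katok_herman f (isL_per hf) hc.1 hc.2 hfree _ hA (fun x => ?_) (fun x => ?_)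
  · rw [mem_preimage, mem_preimage, hf x]
    have h2 := hinv g hg
    rw [← mem_preimage (f := ⇑g), h2]
  · rw [mem_preimage, mem_preimage]
    have h1 : Circle.exp (x + 2 * Real.pi) = Circle.exp x :=
      Circle.exp_eq_exp.2 ⟨1, by simp⟩
    rw [h1]

end Pool.Agent.H24.GN
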