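import Mathlib
import Pool.Agent.H24.GN.FctA
import Pool.Agent.H24.GN.Calc
import Pool.Agent.H50.GSD.D11
import Pool.Agent.H50.GSD.D12

/-!
# GN-20: a hyperbolic fixed point

PROOF.  `exists_gap`: `f ≠ 1` with a fixed point; take a component `(a, b)` of the complement of the
closed set `Fix f` (both ends are finite because the fixed points are `2 pi`-periodic).
`exists_hypC`: as `exists_hyp` in `GSD/D11.lean`: there the analyticity is only used to find
`f`, `z`, `δ` with `f z = z`, `f t < t` for `t ∈ (z, z + δ]`; here take a gap `(a, b)`, `z = a` and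
`f` or `f⁻¹`.  At the end replace `f` by `f⁻¹` if `deriv f p > 1`.
-/

set_option autoImplicit false
open Set Filter Topology MeasureTheory

namespace Pool.Agent.H24.GN

open Pool.Agent.H52.GS (TT BB)
open Pool.Agent.H50.GS Pool.Agent.H50.GSD

theorem exists_gap {G : Subgroup (Circle ≃ₜ Circle)} {f : ℝ ≃o ℝ} (hf : f ∈ Lf G) (hf1 : f ≠ 1)
    {z : ℝ} (hz : f z = z) : ∃ a b : ℝ, Gap f a b := by
  obtain ⟨w, hw⟩ : ∃ w, f w ≠ w := by
    by_contra h
    push Not at h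
    exact hf1 (RelIso.ext h)
  obtain ⟨p, p', h1, h2, h3, h4, h5⟩ := d12_ends hf hz hw
  exact ⟨p, p', h1.trans h2, h3, h4, fun x hx hx' => h5 x ⟨hx, hx'⟩⟩

private theorem fctB_iter (f : ℝ ≃o ℝ) (k : ℕ) (t : ℝ) : (f ^ k) t = (f : ℝ → ℝ)^[k] t := by
  induction k with
  | zero => simp
  | succ k ih => rw [pow_succ', RelIso.mul_apply, ih, Function.iterate_succ_apply']

theorem exists_hypC {G : Subgroup (Circle ≃ₜ Circle)} (hC : C2Group G) (hm : Minimal G)
    (hfix : ∃ f ∈ Lf G, f ≠ 1 ∧ ∃ z : ℝ, f z = z) :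
    ∃ q ∈ Lf G, ∃ y : ℝ, q y = y ∧ deriv (q : ℝ → ℝ) y < 1 := by
  have hc2 : ∀ f ∈ Lf G, C2p f := fun f hf => Lf_c2 hC hf
  -- the contraction
  obtain ⟨f, hf, z, δ, hδ, hz, hcon⟩ : ∃ f ∈ Lf G, ∃ z δ : ℝ, 0 < δ ∧ f z = z ∧
      ∀ t ∈ Ioc z (z + δ), f t < t := by
    obtain ⟨f, hf, hf1, z0, hz0⟩ := hfix
    obtain ⟨a, b, hab⟩ := exists_gap hf hf1 hz0
    have hlt := hab.lt
    have hne : ∀ t ∈ Ioo a b, f t ≠ t := fun t ht => hab.ne t ht.1 ht.2
    have hw1 : a < a + (b - a) / 2 := by linarith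
    have hw2 : a + (b - a) / 2 < b := by linarith
    rcases lt_or_gt_of_ne (hne (a + (b - a) / 2) ⟨hw1, hw2⟩) with h | h
    · -- `f` moves to the left
      have hinv : ∀ t, (f⁻¹ : ℝ ≃o ℝ) t = t → f t = t := by
        intro t ht
        have := congrArg f ht
        rw [RelIso.apply_inv_self] at this
        exact this.symm
      have h' : a + (b - a) / 2 < (f⁻¹ : ℝ ≃o ℝ) (a + (b - a) / 2) := by
        have := (f⁻¹ : ℝ ≃o ℝ).strictMono h
        rwa [RelIso.inv_apply_self] at this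
      have hs := d12_sign hw1 hw2 (fun t ht h6 => hne t ht (hinv t h6)) h'
      refine ⟨f, hf, a, (b - a) / 2, by linarith, hab.fa, fun t ht => ?_⟩
      have h1 := f.strictMono (hs t ⟨ht.1, by linarith [ht.2]⟩)
      rwa [RelIso.apply_inv_self] at h1
    · have hs := d12_sign hw1 hw2 hne h
      refine ⟨f⁻¹, (Lf G).inv_mem hf, a, (b - a) / 2, by linarith, ?_, fun t ht => ?_⟩
      · have := RelIso.inv_apply_self f a
        rwa [hab.fa] at this
      · have h1 := (f⁻¹ : ℝ ≃o ℝ).strictMono (hs t ⟨ht.1, by linarith [ht.2]⟩)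
        rwa [RelIso.inv_apply_self] at h1
  obtain ⟨hfc, hfp⟩ := hc2 f hf
  have ha : z + δ / 2 ∈ Ioo z (z + δ) := ⟨by linarith, by linarith⟩
  obtain ⟨-, hder, hit, hrange, hpos, hcd⟩ := iter_facts hδ hfc hfp hz hcon ha
  obtain ⟨h, hh, hh1, hh2⟩ := Lf_dense hC hm z (show z + δ / 2 < z + δ by linarith)
  obtain ⟨hhc, hhp⟩ := hc2 h hh
  -- continuity of `h`
  have hcont : ∀ᶠ t in 𝓝 z, z + δ / 2 < h t ∧ h t < z + δ := by
    have h1 := h.continuous.continuousAt.tendsto (x := z)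
    exact (h1.eventually (lt_mem_nhds hh1)).and (h1.eventually (gt_mem_nhds hh2))
  rw [Metric.eventually_nhds_iff] at hcont
  obtain ⟨ε1, hε1, hcont⟩ := hcont
  have hdc : Continuous (deriv (h : ℝ → ℝ)) := hhc.continuous_deriv (by norm_num)
  obtain ⟨M, hM⟩ := isCompact_Icc.exists_bound_of_continuousOn (s := Icc (z - 1) (z + 1))
    hdc.continuousOn
  have hM0 : 0 ≤ M := (norm_nonneg _).trans (hM z ⟨by linarith, by linarith⟩)
  set ε := min ε1 (min 1 (1 / (2 * (M + 1)))) with hε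
  have hε0 : 0 < ε := by
    rw [hε]
    have : 0 < 1 / (2 * (M + 1)) := by positivity
    exact lt_min hε1 (lt_min one_pos this)
  have hεa : ε ≤ ε1 := min_le_left _ _
  have hεb : ε ≤ 1 := (min_le_right _ _).trans (min_le_left _ _)
  have hεc : ε ≤ 1 / (2 * (M + 1)) := (min_le_right _ _).trans (min_le_right _ _)
  obtain ⟨K1, hK1⟩ := hder ε hε0
  obtain ⟨K2, hK2⟩ := hit ε hε0
  set k := max K1 K2 with hk
  have hsub : ∀ t ∈ Icc (z + δ / 2) (z + δ), t ∈ Ioc z (z + δ) := fun t ht =>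
    ⟨by linarith [ht.1], ht.2⟩
  have hst : ∀ t ∈ Icc (z + δ / 2) (z + δ), z < (f : ℝ → ℝ)^[k] t ∧
      (f : ℝ → ℝ)^[k] t < z + ε := fun t ht =>
    ⟨(hrange k t (hsub t ht)).1, hK2 k (le_max_right _ _) t (hsub t ht)⟩
  set φ : ℝ ≃o ℝ := h * f ^ k with hφ
  have hφm : φ ∈ Lf G := (Lf G).mul_mem hh ((Lf G).pow_mem hf k)
  have hφe : (φ : ℝ → ℝ) = (h : ℝ → ℝ) ∘ (f : ℝ → ℝ)^[k] := by
    funext t
    rw [hφ, RelIso.mul_apply, fctB_iter]
    rfl
  have hφr : ∀ t ∈ Icc (z + δ / 2) (z + δ), z + δ / 2 < φ t ∧ φ t < z + δ := by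
    intro t ht
    rw [hφe]
    apply hcont
    have := hst t ht
    rw [Real.dist_eq, abs_of_pos (by linarith [this.1])]
    linarith [this.2]
  have hφd : ∀ t ∈ Icc (z + δ / 2) (z + δ), deriv (φ : ℝ → ℝ) t < 1 := by
    intro t ht
    have h1 : deriv (φ : ℝ → ℝ) t =
        deriv (h : ℝ → ℝ) ((f : ℝ → ℝ)^[k] t) * deriv ((f : ℝ → ℝ)^[k]) t := by
      rw [hφe]
      exact deriv_comp t ((hhc.differentiable (by norm_num)) _)
        (((hcd k).differentiable (by norm_num)) t)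
    have h2 := hst t ht
    have h3 := hM ((f : ℝ → ℝ)^[k] t) ⟨by linarith [h2.1], by linarith [h2.2]⟩
    rw [Real.norm_eq_abs, abs_of_pos (hhp _)] at h3
    have h4 := hK1 k (le_max_left _ _) t ht
    have h5 := hpos k t
    rw [h1]
    calc deriv (h : ℝ → ℝ) ((f : ℝ → ℝ)^[k] t) * deriv ((f : ℝ → ℝ)^[k]) t
        ≤ M * (1 / (2 * (M + 1))) :=
          mul_le_mul h3 (h4.le.trans hεc) h5.le hM0
      _ < 1 := by
          rw [mul_one_div, div_lt_one (by positivity)]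
          linarith
  -- the fixed point
  have hivt := intermediate_value_Icc' (show z + δ / 2 ≤ z + δ by linarith)
    (f := fun t : ℝ => φ t - t) (φ.continuous.sub continuous_id).continuousOn
  have h0 : (0 : ℝ) ∈ Icc (φ (z + δ) - (z + δ)) (φ (z + δ / 2) - (z + δ / 2)) := by
    have h1 := hφr (z + δ) ⟨by linarith, le_rfl⟩
    have h2 := hφr (z + δ / 2) ⟨le_rfl, by linarith⟩
    exact ⟨by linarith [h1.2], by linarith [h2.1]⟩
  obtain ⟨p, hp, hp0⟩ := hivt h0
  exact ⟨φ, hφm, p, by simp only at hp0; linarith, hφd p hp⟩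

end Pool.Agent.H24.GN
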