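import Mathlib
import Pool.Agent.H24.GN.FctA
import Pool.Agent.H24.GN.Calc
import Pool.Agent.H50.GSD.D17

/-!
# GN-21: conical points are a null set

PROOF.  `A` from `inv_set` (invariant, neither `A` nor its complement is null in any interval).
By Lebesgue's density theorem (`Besicovitch.ae_tendsto_measure_inter_div_of_measurableSet` or the
`VitaliFamily` of closed balls) almost every `x` is a density point of `A` (if `x ∈ A`) or of the
complement.  Let `x` be a density point of `A` (the other case is the same with `Aᶜ`) and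
`Con (Lf G) κ x`: `w_n ∈ Lf G`, `a_n ≤ x ≤ b_n`, `b_n - a_n ≤ 1/(n+1)`, `NB w_n a_n b_n κ⁻¹`,
`κ ≤ w_n b_n - w_n a_n` (`≤ 2 pi + 2 pi`, as `b_n - a_n ≤ 2 pi`).  The density of `Aᶜ` in
`[a_n, b_n] ⊆ [x - (b_n - a_n), x + (b_n - a_n)]` tends to 0, so by the change of variables and
`NB.db` the density of `Aᶜ` in `[w_n a_n, w_n b_n]` tends to 0; hence
`volume (Aᶜ ∩ [u_n, u_n + κ]) → 0` with `u_n = w_n a_n`, wlog in `[0, 2 pi]` (translate by `TT^k`).
A subsequence `u_n → u`: `volume (Aᶜ ∩ Ioo (u + κ/4) (u + 3κ/4)) = 0`, a contradiction.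
Compare `thin_half` and `d13_image` in `GSD/D13.lean`.
-/

set_option autoImplicit false
open Set Filter Topology MeasureTheory

namespace Pool.Agent.H24.GN

open Pool.Agent.H52.GS (TT BB)
open Pool.Agent.H50.GS Pool.Agent.H50.GSD

/-- an invariant set with positive measure in all intervals has a definite measure in all intervals
of a given length -/
private theorem fctC_lower {E : Set ℝ} (hper : ∀ (c : ℤ) (t : ℝ), t + c * (2 * Real.pi) ∈ E ↔ t ∈ E)
    (hE : ∀ x y : ℝ, x < y → volume (E ∩ Ioo x y) ≠ 0) {κ : ℝ} (hκ : 0 < κ) :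
    ∃ m : ENNReal, 0 < m ∧ ∀ y : ℝ, m ≤ volume (E ∩ Icc y (y + κ)) := by
  have hp : 0 < 2 * Real.pi := Real.two_pi_pos
  obtain ⟨ρ, hρd⟩ : ∃ ρ : ℝ, ρ = κ / 2 := ⟨_, rfl⟩
  have hρ : 0 < ρ := by rw [hρd]; positivity
  obtain ⟨N, hN⟩ := exists_nat_ge (2 * Real.pi / ρ)
  have hk : ∀ k : ℕ, 0 < volume (E ∩ Ioo ((k : ℝ) * ρ) (((k : ℝ) + 1) * ρ)) := by
    intro k
    rw [pos_iff_ne_zero]
    exact hE _ _ (by nlinarith)
  obtain ⟨k0, -, hk0⟩ := Finset.exists_min_image (Finset.range (N + 2))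
    (fun k : ℕ => volume (E ∩ Ioo ((k : ℝ) * ρ) (((k : ℝ) + 1) * ρ)))
    ⟨0, Finset.mem_range.2 (Nat.succ_pos _)⟩
  refine ⟨_, hk k0, fun y => ?_⟩
  obtain ⟨c, hc⟩ : ∃ c : ℤ, c = ⌊y / (2 * Real.pi)⌋ := ⟨_, rfl⟩
  obtain ⟨y', hy'⟩ : ∃ y' : ℝ, y' = y - c * (2 * Real.pi) := ⟨_, rfl⟩
  have h1 : (c : ℝ) * (2 * Real.pi) ≤ y := by
    rw [hc, ← le_div_iff₀ hp]
    exact Int.floor_le _
  have h2 : y < ((c : ℝ) + 1) * (2 * Real.pi) := by
    rw [hc, ← div_lt_iff₀ hp]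
    exact Int.lt_floor_add_one _
  have h3 : 0 ≤ y' := by linarith
  have h4 : y' < 2 * Real.pi := by linarith
  obtain ⟨k, hkdef⟩ : ∃ k : ℕ, k = ⌊y' / ρ⌋₊ := ⟨_, rfl⟩
  have h5 : (k : ℝ) * ρ ≤ y' := by
    rw [hkdef, ← le_div_iff₀ hρ]
    exact Nat.floor_le (div_nonneg h3 hρ.le)
  have h6 : y' < ((k : ℝ) + 1) * ρ := by
    rw [hkdef, ← div_lt_iff₀ hρ]
    exact Nat.lt_floor_add_one _
  have h7 : k + 1 ∈ Finset.range (N + 2) := by
    rw [Finset.mem_range]
    have h8 : (k : ℝ) ≤ N := by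
      have h9 : (k : ℝ) ≤ y' / ρ := by rwa [le_div_iff₀ hρ]
      have h10 : y' / ρ ≤ 2 * Real.pi / ρ := by gcongr
      linarith
    have h8' : k ≤ N := by exact_mod_cast h8
    omega
  refine (hk0 (k + 1) h7).trans ?_
  have h11 : E ∩ Ioo (((k + 1 : ℕ) : ℝ) * ρ) ((((k + 1 : ℕ) : ℝ) + 1) * ρ) ⊆
      (fun t : ℝ => t + c * (2 * Real.pi)) ⁻¹' (E ∩ Icc y (y + κ)) := by
    rintro t ⟨ht, ht1, ht2⟩
    push_cast at ht1 ht2
    have hκρ : κ = 2 * ρ := by rw [hρd]; ring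
    refine ⟨(hper c t).2 ht, ?_, ?_⟩
    · change y ≤ t + c * (2 * Real.pi)
      linarith
    · change t + c * (2 * Real.pi) ≤ y + κ
      nlinarith
  refine (measure_mono h11).trans ?_
  rw [measure_preimage_add_right]

/-- the measure of the image -/
private theorem fctC_image {w : ℝ ≃o ℝ} (hw : Rg w) {E : Set ℝ} (hE : MeasurableSet E)
    (hinv : ∀ t, w t ∈ E ↔ t ∈ E) {a b t : ℝ} (hab : a < b) (hd : DB w a b t) :
    volume (E ∩ Icc (w a) (w b)) ≤
      ENNReal.ofReal (Real.exp t * ((w b - w a) / (b - a))) * volume (E ∩ Icc a b) := by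
  have hsub : E ∩ Icc (w a) (w b) ⊆ (w : ℝ → ℝ) '' (E ∩ Icc a b) := by
    rintro z ⟨hz, hz1, hz2⟩
    obtain ⟨s, rfl⟩ := w.surjective z
    exact ⟨s, ⟨(hinv s).1 hz, w.le_iff_le.1 hz1, w.le_iff_le.1 hz2⟩, rfl⟩
  refine (measure_mono hsub).trans ?_
  have hE' : MeasurableSet (E ∩ Icc a b) := hE.inter measurableSet_Icc
  have h1 := lintegral_image_eq_lintegral_abs_deriv_mul hE'
    (fun s _ => (hw.1 s).hasDerivAt.hasDerivWithinAt) (w.injective.injOn) (fun _ => 1)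
  rw [setLIntegral_one] at h1
  rw [h1, ← setLIntegral_const]
  refine setLIntegral_mono' hE' fun s hs => ?_
  rw [mul_one]
  refine ENNReal.ofReal_le_ofReal ?_
  rw [abs_of_pos (hw.2 s)]
  have h2 := DB.ge hw hd hs.2 (left_mem_Icc.2 hab.le) (right_mem_Icc.2 hab.le) hab.le
  have hba : 0 < b - a := by linarith
  have h3 : Real.exp t * (Real.exp (-t) * deriv (w : ℝ → ℝ) s * (b - a)) ≤
      Real.exp t * (w b - w a) := mul_le_mul_of_nonneg_left h2 (Real.exp_pos t).le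
  have h4 : Real.exp t * (Real.exp (-t) * deriv (w : ℝ → ℝ) s * (b - a)) =
      deriv (w : ℝ → ℝ) s * (b - a) := by
    have : Real.exp t * Real.exp (-t) = 1 := by rw [← Real.exp_add]; simp
    calc Real.exp t * (Real.exp (-t) * deriv (w : ℝ → ℝ) s * (b - a))
        = (Real.exp t * Real.exp (-t)) * (deriv (w : ℝ → ℝ) s * (b - a)) := by ring
      _ = _ := by rw [this, one_mul]
  rw [h4] at h3
  rw [← mul_div_assoc, le_div_iff₀ hba]
  exact h3

/-- density points of the complement of an invariant set are not conical -/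
private theorem fctC_half {Γ : Subgroup (ℝ ≃o ℝ)} (hT : TT ∈ Γ) (hrg : ∀ f ∈ Γ, Rg f)
    (hcomm : ∀ f ∈ Γ, ∀ x : ℝ, f (x + 2 * Real.pi) = f x + 2 * Real.pi)
    {E : Set ℝ} (hE : MeasurableSet E) (hinv : ∀ f ∈ Γ, ∀ x, f x ∈ E ↔ x ∈ E)
    (hne : ∀ x y : ℝ, x < y → volume (E ∩ Ioo x y) ≠ 0) {κ : ℝ} (hκ : 0 < κ) :
    ∀ᵐ x : ℝ, x ∉ E → ¬ Con Γ κ x := by
  have hTpow : ∀ (c : ℤ) (t : ℝ), (TT ^ c : ℝ ≃o ℝ) t = t + c * (2 * Real.pi) := by
    intro c t
    exact tt_zpow c t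
  have hper : ∀ (c : ℤ) (t : ℝ), t + c * (2 * Real.pi) ∈ E ↔ t ∈ E := by
    intro c t
    have := hinv (TT ^ c) (Γ.zpow_mem hT c) t
    rwa [hTpow] at this
  obtain ⟨m, hm0, hm⟩ := fctC_lower hper hne hκ
  have hmt : m ≠ ⊤ := by
    have h1 := (hm 0).trans (measure_mono inter_subset_right)
    rw [Real.volume_Icc] at h1
    exact ne_top_of_le_ne_top ENNReal.ofReal_ne_top h1
  obtain ⟨t, ht⟩ : ∃ t : ℝ, t = κ⁻¹ := ⟨_, rfl⟩
  obtain ⟨K, hK⟩ : ∃ K : ℝ, K = Real.exp t * (2 * Real.pi) * 2 := ⟨_, rfl⟩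
  have hK0 : 0 < K := by rw [hK]; positivity
  filter_upwards [Besicovitch.ae_tendsto_measure_inter_div_of_measurableSet volume hE] with x hx
  intro hxE hcon
  rw [indicator_of_notMem hxE] at hx
  have hKp : 0 < ENNReal.ofReal K := ENNReal.ofReal_pos.2 hK0
  have hKt : ENNReal.ofReal K ≠ ⊤ := ENNReal.ofReal_ne_top
  have hq : 0 < m / ENNReal.ofReal K := ENNReal.div_pos hm0.ne' hKt
  have hev := hx.eventually (gt_mem_nhds hq)
  rw [eventually_nhdsWithin_iff, Metric.eventually_nhds_iff] at hev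
  obtain ⟨δ, hδ, hev⟩ := hev
  obtain ⟨w, hw, a, b, hab, hba, hax, hxb, hnb, hwb⟩ :=
    hcon (min (δ / 2) (2 * Real.pi)) (lt_min (by linarith) Real.two_pi_pos)
  have hs0 : 0 < b - a := by linarith
  have h2p : b - a ≤ 2 * Real.pi := hba.trans (min_le_right _ _)
  have hd2 : b - a ≤ δ / 2 := hba.trans (min_le_left _ _)
  have hwR := hrg w hw
  have himg := fctC_image hwR hE (hinv w hw) hab (hnb.db hab)
  have hup : w b - w a ≤ 2 * Real.pi := by
    have h1 : w b ≤ w (a + 2 * Real.pi) := w.monotone (by linarith)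
    rw [hcomm w hw] at h1
    linarith
  have h1 : m ≤ volume (E ∩ Icc (w a) (w b)) := by
    refine (hm (w a)).trans (measure_mono (inter_subset_inter_right _ (Icc_subset_Icc_right ?_)))
    linarith
  have h3 := hev (y := b - a) (by rw [Real.dist_eq, sub_zero, abs_of_pos hs0]; linarith) hs0
  have hvol : volume (Metric.closedBall x (b - a)) = ENNReal.ofReal (2 * (b - a)) :=
    Real.volume_closedBall x _
  rw [hvol] at h3
  have hs2 : ENNReal.ofReal (2 * (b - a)) ≠ 0 := (ENNReal.ofReal_pos.2 (by linarith)).ne'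
  have hs3 : ENNReal.ofReal (2 * (b - a)) ≠ ⊤ := ENNReal.ofReal_ne_top
  have h4 : volume (E ∩ Metric.closedBall x (b - a)) <
      m / ENNReal.ofReal K * ENNReal.ofReal (2 * (b - a)) := by
    rwa [ENNReal.div_lt_iff (Or.inl hs2) (Or.inl hs3)] at h3
  have h5 : volume (E ∩ Icc a b) ≤ volume (E ∩ Metric.closedBall x (b - a)) := by
    refine measure_mono (inter_subset_inter_right _ ?_)
    intro z hz
    rw [Metric.mem_closedBall, Real.dist_eq, abs_le]
    constructor <;> linarith [hz.1, hz.2]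
  rw [← ht] at himg
  have h6 : volume (E ∩ Icc (w a) (w b)) ≤ ENNReal.ofReal (K / (2 * (b - a))) *
      volume (E ∩ Icc a b) := by
    refine himg.trans (mul_le_mul_left ?_ _)
    refine ENNReal.ofReal_le_ofReal ?_
    rw [hK]
    have : Real.exp t * (2 * Real.pi) * 2 / (2 * (b - a)) = Real.exp t * ((2 * Real.pi) / (b - a)) := by
      field_simp
    rw [this]
    gcongr
  have hc0 : ENNReal.ofReal (K / (2 * (b - a))) ≠ 0 := (ENNReal.ofReal_pos.2 (by positivity)).ne'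
  have hct : ENNReal.ofReal (K / (2 * (b - a))) ≠ ⊤ := ENNReal.ofReal_ne_top
  have h7 : m < ENNReal.ofReal (K / (2 * (b - a))) *
      (m / ENNReal.ofReal K * ENNReal.ofReal (2 * (b - a))) :=
    (h1.trans h6).trans_lt ((ENNReal.mul_lt_mul_iff_right hc0 hct).2 (h5.trans_lt h4))
  have h8 : ENNReal.ofReal (K / (2 * (b - a))) *
      (m / ENNReal.ofReal K * ENNReal.ofReal (2 * (b - a))) = m := by
    have h9 : ENNReal.ofReal (K / (2 * (b - a))) * ENNReal.ofReal (2 * (b - a)) =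
        ENNReal.ofReal K := by
      rw [← ENNReal.ofReal_mul (by positivity)]
      congr 1
      field_simp
    calc ENNReal.ofReal (K / (2 * (b - a))) * (m / ENNReal.ofReal K * ENNReal.ofReal (2 * (b - a)))
        = (ENNReal.ofReal (K / (2 * (b - a))) * ENNReal.ofReal (2 * (b - a))) *
          (m / ENNReal.ofReal K) := by ring
      _ = m := by
          rw [h9]
          exact ENNReal.mul_div_cancel hKp.ne' hKt
  rw [h8] at h7
  exact lt_irrefl _ h7

theorem con_null {G : Subgroup (Circle ≃ₜ Circle)} (hC : C2Group G) (hm : Minimal G)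
    (hne : ¬ LebErgodic G) {κ : ℝ} (hκ : 0 < κ) : volume {x : ℝ | Con (Lf G) κ x} = 0 := by
  obtain ⟨A, hA, hinv, hpos⟩ := inv_set hC hm hne
  have hrg : ∀ f ∈ Lf G, Rg f := fun f hf => Lf_rg hC hf
  have hcm : ∀ f ∈ Lf G, ∀ x : ℝ, f (x + 2 * Real.pi) = f x + 2 * Real.pi := fun f hf x => by
    obtain ⟨g, hg, hgf⟩ := hf
    exact isL_per hgf x
  have h1 := fctC_half TT_mem hrg hcm hA hinv
    (fun x y hxy => (hpos x y hxy).1) hκ
  have h2 := fctC_half (E := Aᶜ) TT_mem hrg hcm hA.compl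
    (fun f hf x => not_congr (hinv f hf x))
    (fun x y hxy => by
      rw [inter_comm, ← Set.sdiff_eq]
      exact (hpos x y hxy).2) hκ
  have h3 : ∀ᵐ x : ℝ, ¬ Con (Lf G) κ x := by
    filter_upwards [h1, h2] with x hx1 hx2
    by_cases hx : x ∈ A
    · exact hx2 (fun h => h hx)
    · exact hx1 hx
  rw [ae_iff] at h3
  simpa using h3

end Pool.Agent.H24.GN
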