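import Mathlib
import Pool.Agent.H24.GN.FrzA
import Pool.Agent.H66.GSC.Fin

/-!
# Lebesgue ergodicity for null-measurable sets that are invariant up to null sets, and dense orbits
-/

set_option autoImplicit false
open Set Filter Topology MeasureTheory
open scoped Manifold ContDiff

namespace Pool.Agent.H24.GN

open Pool.Agent.H50.GS

/-- preimages of null sets are null -/
theorem nul_preimage {G : Subgroup (Circle ≃ₜ Circle)} (hC : C2Group G) {g : Circle ≃ₜ Circle}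
    (hg : g ∈ G) {N : Set Circle} (hN : volume (⇑Circle.exp ⁻¹' N) = 0) :
    volume (⇑Circle.exp ⁻¹' (⇑g ⁻¹' N)) = 0 := by
  obtain ⟨w, hw⟩ := hC g⁻¹ (inv_mem hg)
  have h1 : volume (w '' (⇑Circle.exp ⁻¹' N)) = 0 :=
    addHaar_image_eq_zero_of_differentiableOn_of_addHaar_eq_zero volume
      (hw.1.differentiable (by norm_num)).differentiableOn hN
  have h2 : ⇑Circle.exp ⁻¹' (⇑g ⁻¹' N) ⊆
      ⋃ k : ℤ, (fun t : ℝ => t + (k : ℝ) * (2 * Real.pi)) ⁻¹' (w '' (⇑Circle.exp ⁻¹' N)) := by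
    intro t ht
    have ht' : g (Circle.exp t) ∈ N := ht
    obtain ⟨s, hs⟩ : ∃ s, Circle.exp s = g (Circle.exp t) :=
      ⟨_, Circle.exp_arg (g (Circle.exp t))⟩
    have hsN : s ∈ ⇑Circle.exp ⁻¹' N := by
      show Circle.exp s ∈ N
      rw [hs]; exact ht'
    have h3 : Circle.exp (w s) = Circle.exp t := by
      rw [hw.2.2, hs]
      exact g.symm_apply_apply (Circle.exp t)
    rw [Circle.exp_eq_exp] at h3
    obtain ⟨m, hm⟩ := h3
    rw [mem_iUnion]
    exact ⟨m, s, hsN, hm⟩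
  refine measure_mono_null h2 (measure_iUnion_null fun k => ?_)
  rw [measure_preimage_add_right]
  exact h1

/-- every null-measurable set of the circle agrees up to a null set with a measurable one -/
theorem nul_meas {A : Set Circle} (hA : NullMeasurableSet (⇑Circle.exp ⁻¹' A)) :
    ∃ B : Set Circle, MeasurableSet (⇑Circle.exp ⁻¹' B) ∧
      volume (⇑Circle.exp ⁻¹' (symmDiff B A)) = 0 := by
  obtain ⟨E, hEsub, hE, hEae⟩ := hA.exists_measurable_subset_ae_eq
  have hN : volume ((⇑Circle.exp ⁻¹' A) \ E) = 0 := by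
    have := ae_eq_set.1 hEae
    exact this.2
  refine ⟨Circle.exp '' (E ∩ Icc 0 (2 * Real.pi)), ?_, ?_⟩
  · have h1 : ⇑Circle.exp ⁻¹' (⇑Circle.exp '' (E ∩ Icc 0 (2 * Real.pi))) =
        ⋃ k : ℤ, (fun t : ℝ => t + (k : ℝ) * (2 * Real.pi)) ⁻¹' (E ∩ Icc 0 (2 * Real.pi)) := by
      ext t
      simp only [mem_preimage, mem_image, mem_iUnion]
      constructor
      · rintro ⟨s, hs, hst⟩
        rw [Circle.exp_eq_exp] at hst
        obtain ⟨m, hm⟩ := hst
        exact ⟨m, hm ▸ hs⟩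
      · rintro ⟨k, hk⟩
        refine ⟨_, hk, ?_⟩
        rw [Circle.exp_eq_exp]
        exact ⟨k, rfl⟩
    rw [h1]
    exact MeasurableSet.iUnion fun k =>
      (measurable_id.add_const _) (hE.inter measurableSet_Icc)
  · have h2 : ⇑Circle.exp ⁻¹' (symmDiff (⇑Circle.exp '' (E ∩ Icc 0 (2 * Real.pi))) A) ⊆
        ⋃ k : ℤ, (fun t : ℝ => t + (k : ℝ) * (2 * Real.pi)) ⁻¹' ((⇑Circle.exp ⁻¹' A) \ E) := by
      intro t ht
      have ht' : Circle.exp t ∈ symmDiff (⇑Circle.exp '' (E ∩ Icc 0 (2 * Real.pi))) A := ht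
      rcases mem_symmDiff.1 ht' with ⟨⟨s, hs, hst⟩, hnA⟩ | ⟨htA, hn⟩
      · exact absurd (hst ▸ (hEsub hs.1 : Circle.exp s ∈ A)) hnA
      · -- move `t` to `[0, 2π)`
        obtain ⟨k, hk, -⟩ := existsUnique_add_zsmul_mem_Ico Real.two_pi_pos t 0
        have hk2 : t + (k : ℝ) * (2 * Real.pi) ∈ Ico (0 : ℝ) (0 + 2 * Real.pi) := by
          simpa [zsmul_eq_mul] using hk
        have hexp : Circle.exp (t + (k : ℝ) * (2 * Real.pi)) = Circle.exp t := by
          rw [Circle.exp_eq_exp]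
          exact ⟨k, rfl⟩
        rw [mem_iUnion]
        refine ⟨k, ?_, fun hE' => hn ⟨_, ⟨hE', ⟨hk2.1, ?_⟩⟩, hexp⟩⟩
        · show Circle.exp (t + (k : ℝ) * (2 * Real.pi)) ∈ A
          rw [hexp]; exact htA
        · have := hk2.2
          rw [zero_add] at this
          exact this.le
    refine measure_mono_null h2 (measure_iUnion_null fun k => ?_)
    rw [measure_preimage_add_right]
    exact hN

/-- ergodicity extends to null-measurable sets invariant up to null sets -/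
theorem nul_ergodic {G : Subgroup (Circle ≃ₜ Circle)} (hC : C2Group G) (hfg : G.FG)
    (he : LebErgodic G) (A : Set Circle) (hA : NullMeasurableSet (⇑Circle.exp ⁻¹' A))
    (hinv : ∀ g ∈ G, volume (⇑Circle.exp ⁻¹' (symmDiff (⇑g ⁻¹' A) A)) = 0) :
    volume (⇑Circle.exp ⁻¹' A) = 0 ∨ volume (⇑Circle.exp ⁻¹' Aᶜ) = 0 := by
  have : Countable G := by
    have : Group.FG G := (Group.fg_iff_subgroup_fg G).2 hfg
    obtain ⟨α, _, φ, hφ⟩ := Group.fg_iff_exists_freeGroup_hom_surjective_finite.1 this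
    have : Countable α := Finite.to_countable
    have : Countable (FreeGroup α) :=
      Quot.mk_surjective.countable
    exact hφ.countable
  obtain ⟨B, hBm, hBA⟩ := nul_meas hA
  set D : Set Circle := ⋂ g : G, ⇑(g : Circle ≃ₜ Circle) ⁻¹' B with hD
  have hDm : MeasurableSet (⇑Circle.exp ⁻¹' D) := by
    have h1 : ⇑Circle.exp ⁻¹' D = ⋂ g : G, ⇑Circle.exp ⁻¹' (⇑(g : Circle ≃ₜ Circle) ⁻¹' B) := by
      rw [hD, preimage_iInter]
    rw [h1]
    refine MeasurableSet.iInter fun g => ?_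
    obtain ⟨u, hu⟩ := hC g.1 g.2
    have h2 : ⇑Circle.exp ⁻¹' (⇑(g : Circle ≃ₜ Circle) ⁻¹' B) = u ⁻¹' (⇑Circle.exp ⁻¹' B) := by
      ext t
      simp only [mem_preimage, hu.2.2]
    rw [h2]
    exact hu.1.continuous.measurable hBm
  have hDinv : ∀ g ∈ G, ⇑g ⁻¹' D = D := by
    intro g hg
    ext x
    simp only [hD, mem_preimage, mem_iInter]
    constructor
    · intro h k
      have := h (k * ⟨g, hg⟩⁻¹)
      have h3 : ((k * (⟨g, hg⟩ : G)⁻¹ : G) : Circle ≃ₜ Circle) (g x) = (k : Circle ≃ₜ Circle) x := by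
        show (k : Circle ≃ₜ Circle) ((g⁻¹ : Circle ≃ₜ Circle) (g x)) = _
        congr 1
        exact g.symm_apply_apply x
      rwa [h3] at this
    · intro h k
      exact h (k * ⟨g, hg⟩)
  -- `D` agrees with `A` up to a null set
  have hBinv : ∀ g ∈ G, volume (⇑Circle.exp ⁻¹' (symmDiff (⇑g ⁻¹' B) A)) = 0 := by
    intro g hg
    have h1 : volume (⇑Circle.exp ⁻¹' (⇑g ⁻¹' (symmDiff B A))) = 0 := nul_preimage hC hg hBA
    have h2 : ⇑Circle.exp ⁻¹' (symmDiff (⇑g ⁻¹' B) A) ⊆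
        ⇑Circle.exp ⁻¹' (⇑g ⁻¹' (symmDiff B A)) ∪ ⇑Circle.exp ⁻¹' (symmDiff (⇑g ⁻¹' A) A) := by
      intro t ht
      have ht' : Circle.exp t ∈ symmDiff (⇑g ⁻¹' B) A := ht
      rw [mem_symmDiff] at ht'
      by_cases hgA : g (Circle.exp t) ∈ A <;> by_cases hgB : g (Circle.exp t) ∈ B <;>
        by_cases htA : Circle.exp t ∈ A <;>
        simp_all [mem_symmDiff]
    exact measure_mono_null h2 (measure_union_null h1 (hinv g hg))
  have hDA : volume (⇑Circle.exp ⁻¹' (symmDiff D A)) = 0 := by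
    have h1 : ⇑Circle.exp ⁻¹' (symmDiff D A) ⊆
        ⋃ g : G, ⇑Circle.exp ⁻¹' (symmDiff (⇑(g : Circle ≃ₜ Circle) ⁻¹' B) A) := by
      intro t ht
      have ht' : Circle.exp t ∈ symmDiff D A := ht
      rw [mem_iUnion]
      rcases mem_symmDiff.1 ht' with ⟨h2, h3⟩ | ⟨h2, h3⟩
      · refine ⟨1, ?_⟩
        show Circle.exp t ∈ symmDiff _ A
        rw [mem_symmDiff]
        exact Or.inl ⟨(mem_iInter.1 h2) 1, h3⟩
      · rw [hD, mem_iInter, not_forall] at h3
        obtain ⟨g, hg⟩ := h3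
        refine ⟨g, ?_⟩
        show Circle.exp t ∈ symmDiff _ A
        rw [mem_symmDiff]
        exact Or.inr ⟨h2, hg⟩
    exact measure_mono_null h1 (measure_iUnion_null fun g => hBinv g.1 g.2)
  rcases he D hDm hDinv with h | h
  · left
    have h1 : ⇑Circle.exp ⁻¹' A ⊆ ⇑Circle.exp ⁻¹' D ∪ ⇑Circle.exp ⁻¹' (symmDiff D A) := by
      intro t ht
      have ht' : Circle.exp t ∈ A := ht
      by_cases hD' : Circle.exp t ∈ D
      · exact Or.inl hD'
      · exact Or.inr (mem_symmDiff.2 (Or.inr ⟨ht', hD'⟩))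
    exact measure_mono_null h1 (measure_union_null h hDA)
  · right
    have h1 : ⇑Circle.exp ⁻¹' Aᶜ ⊆ ⇑Circle.exp ⁻¹' Dᶜ ∪ ⇑Circle.exp ⁻¹' (symmDiff D A) := by
      intro t ht
      have ht' : Circle.exp t ∉ A := ht
      by_cases hD' : Circle.exp t ∈ D
      · exact Or.inr (mem_symmDiff.2 (Or.inl ⟨hD', ht'⟩))
      · exact Or.inl hD'
    exact measure_mono_null h1 (measure_union_null h hDA)

/-- dense orbits give minimality -/
theorem nul_minimal {G : Subgroup (Circle ≃ₜ Circle)}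
    (hmin : ∀ x : Circle, Dense {y : Circle | ∃ g ∈ G, g x = y}) : Minimal G := by
  intro C hC hinv
  rcases C.eq_empty_or_nonempty with h | ⟨x, hx⟩
  · exact Or.inl h
  · right
    have h1 : {y : Circle | ∃ g ∈ G, g x = y} ⊆ C := by
      rintro y ⟨g, hg, rfl⟩
      have h2 : x ∈ ⇑g ⁻¹' C := by rw [hinv g hg]; exact hx
      exact h2
    have h3 : closure C = univ := (hmin x).mono h1 |>.closure_eq
    rw [← h3, hC.closure_eq]

/-- the theorem for subgroups of the group of homeomorphisms that consist of C2 diffeomorphisms -/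
theorem nul_main (G : Subgroup (Circle ≃ₜ Circle))
    (hG : ∀ g ∈ G, ∃ f : Diffeomorph (𝓡 1) (𝓡 1) Circle Circle 2, ∀ x, f x = g x)
    (hfg : G.FG) (hmin : ∀ x : Circle, Dense {y : Circle | ∃ g ∈ G, g x = y})
    (A : Set Circle) (hA : NullMeasurableSet (⇑Circle.exp ⁻¹' A))
    (hinv : ∀ g ∈ G, volume (⇑Circle.exp ⁻¹' (symmDiff (⇑g ⁻¹' A) A)) = 0) :
    volume (⇑Circle.exp ⁻¹' A) = 0 ∨ volume (⇑Circle.exp ⁻¹' Aᶜ) = 0 := by
  have hC : C2Group G := by
    intro g hg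
    obtain ⟨f, hf⟩ := hG g hg
    obtain ⟨u, hu⟩ := lift_of_diffeo f
    refine ⟨u, hu.1, hu.2.1, fun t => ?_⟩
    rw [hu.2.2]
    exact hf _
  exact nul_ergodic hC hfg
    (Pool.Agent.H66.GSC.ergodic_c2 hC (nul_minimal hmin) hfg) A hA hinv

end Pool.Agent.H24.GN
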