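import Mathlib
import Pool.Agent.H24.GN.Calc

/-!
# GN-8: every interval can be expanded to a fixed size

PROOF.  `q y = y`, `q' y < 1`: there is `η > 0` with `q x < x` for `y < x ≤ y + η`
(`HasDerivAt`).  `c0 = η`.  Given `x < x'`: by `h.dense` for the point `y` there is `g ∈ Γ` with
`x < g y < x'`, i.e. `g⁻¹ x < y < g⁻¹ x'`.  If `g⁻¹ x' ≥ y + η` take `g⁻¹`.  Otherwise the sequence
`q^(-n) (g⁻¹ x')` is increasing as long as it is `≤ y + η`; if it never exceeds `y + η` it converges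
to a fixed point of `q` in `(y, y + η]`, impossible; so `q^(-n) (g⁻¹ x') > y + η` for some `n`, and
`q^(-n) (g⁻¹ x) < q^(-n) y = y`.
-/

set_option autoImplicit false
open Set Filter Topology MeasureTheory

namespace Pool.Agent.H24.GN

open Pool.Agent.H52.GS (TT BB)

theorem expd_pull {q : ℝ ≃o ℝ} (hq : Rg q) {y : ℝ} (hqy : q y = y)
    (hd : deriv (q : ℝ → ℝ) y < 1) :
    ∃ η : ℝ, 0 < η ∧ ∀ x : ℝ, y < x → x ≤ y + η → q x < x := by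
  have h1 : HasDerivAt (q : ℝ → ℝ) (deriv (q : ℝ → ℝ) y) y := (hq.1 y).hasDerivAt
  have h2 := (hasDerivAt_iff_tendsto_slope.mp h1).eventually (gt_mem_nhds hd)
  rw [eventually_nhdsWithin_iff] at h2
  obtain ⟨η, hη, h3⟩ := Metric.eventually_nhds_iff.mp h2
  refine ⟨η / 2, by linarith, fun x hx hx' => ?_⟩
  have h4 : dist x y < η := by
    rw [Real.dist_eq, abs_of_pos (by linarith)]
    linarith
  have h5 := h3 h4 (by
    simp only [mem_compl_iff, mem_singleton_iff]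
    exact ne_of_gt hx)
  rw [slope_def_field, hqy, div_lt_one (by linarith)] at h5
  linarith

theorem expd_fix {q : ℝ ≃o ℝ} {y : ℝ} (hqy : q y = y) (n : ℕ) :
    ((q⁻¹) ^ n : ℝ ≃o ℝ) y = y := by
  induction n with
  | zero => simp
  | succ n ih =>
    rw [pow_succ]
    have h1 : (q⁻¹ : ℝ ≃o ℝ) y = y := by
      conv_lhs => rw [← hqy]
      exact RelIso.inv_apply_self q y
    have h2 : ((q⁻¹) ^ n * q⁻¹ : ℝ ≃o ℝ) y = ((q⁻¹) ^ n : ℝ ≃o ℝ) ((q⁻¹ : ℝ ≃o ℝ) y) := rfl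
    rw [h2, h1, ih]

theorem expd_esc {q : ℝ ≃o ℝ} {y η : ℝ} (hqy : q y = y)
    (hlt : ∀ x : ℝ, y < x → x ≤ y + η → q x < x) {z : ℝ} (hz : y < z) :
    ∃ n : ℕ, y + η ≤ ((q⁻¹) ^ n : ℝ ≃o ℝ) z := by
  by_contra hcon
  push Not at hcon
  set u : ℕ → ℝ := fun n => ((q⁻¹) ^ n : ℝ ≃o ℝ) z with hu
  have hy : ∀ n, y < u n := by
    intro n
    have h1 := ((q⁻¹) ^ n : ℝ ≃o ℝ).strictMono hz
    rw [expd_fix hqy n] at h1
    exact h1
  have hqu : ∀ n, q (u (n + 1)) = u n := by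
    intro n
    have h1 : u (n + 1) = (q⁻¹ : ℝ ≃o ℝ) (u n) := by
      simp only [hu]
      rw [pow_succ']
      rfl
    rw [h1]
    exact RelIso.apply_inv_self q _
  have hm : Monotone u := by
    refine monotone_nat_of_le_succ fun n => ?_
    have h1 := hlt (u (n + 1)) (hy _) (hcon _).le
    rw [hqu n] at h1
    exact h1.le
  have hb : BddAbove (range u) := ⟨y + η, by
    rintro _ ⟨n, rfl⟩
    exact (hcon n).le⟩
  have hl := tendsto_atTop_ciSup hm hb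
  set L := ⨆ n, u n with hL
  have hl1 : Tendsto (fun n => u (n + 1)) atTop (𝓝 L) := (tendsto_add_atTop_iff_nat 1).mpr hl
  have hl2 : Tendsto (fun n => q (u (n + 1))) atTop (𝓝 (q L)) :=
    (q.continuous.tendsto L).comp hl1
  simp only [hqu] at hl2
  have h3 : q L = L := tendsto_nhds_unique hl2 hl
  have h4 : L ≤ y + η := le_of_tendsto' hl fun n => (hcon n).le
  have h5 : y < L := (hy 0).trans_le (le_ciSup hb 0)
  exact (hlt L h5 h4).ne h3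

theorem expd {Γ : Subgroup (ℝ ≃o ℝ)} (h : Gq Γ) : ∃ c0 : ℝ, 0 < c0 ∧
    ∀ x x' : ℝ, x < x' → ∃ g ∈ Γ, c0 ≤ g x' - g x := by
  obtain ⟨q, hq, y, hqy, hd⟩ := h.hyp
  obtain ⟨η, hη, hlt⟩ := expd_pull (h.rg q hq) hqy hd
  refine ⟨η, hη, fun x x' hxx => ?_⟩
  obtain ⟨g, hg, h1, h2⟩ := h.dense y x x' hxx
  have h3 : (g⁻¹ : ℝ ≃o ℝ) x < y := by
    rw [← g.lt_iff_lt, RelIso.apply_inv_self]
    exact h1
  have h4 : y < (g⁻¹ : ℝ ≃o ℝ) x' := by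
    rw [← g.lt_iff_lt, RelIso.apply_inv_self]
    exact h2
  obtain ⟨n, hn⟩ := expd_esc hqy hlt h4
  refine ⟨(q⁻¹) ^ n * g⁻¹, mul_mem (pow_mem (inv_mem hq) n) (inv_mem hg), ?_⟩
  have h5 : ((q⁻¹) ^ n : ℝ ≃o ℝ) y = y := expd_fix hqy n
  have h6 : ((q⁻¹) ^ n : ℝ ≃o ℝ) ((g⁻¹ : ℝ ≃o ℝ) x) < y := by
    have h7 := ((q⁻¹) ^ n : ℝ ≃o ℝ).strictMono h3
    rw [h5] at h7
    exact h7
  have e1 : ((q⁻¹) ^ n * g⁻¹ : ℝ ≃o ℝ) x' = ((q⁻¹) ^ n : ℝ ≃o ℝ) ((g⁻¹ : ℝ ≃o ℝ) x') := rfl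
  have e2 : ((q⁻¹) ^ n * g⁻¹ : ℝ ≃o ℝ) x = ((q⁻¹) ^ n : ℝ ≃o ℝ) ((g⁻¹ : ℝ ≃o ℝ) x) := rfl
  rw [e1, e2]
  linarith

/-- a gap of an element of `Γ` and all its images have length at most `2 pi` -/
theorem gap_len {Γ : Subgroup (ℝ ≃o ℝ)} (h : Gq Γ) {f w : ℝ ≃o ℝ} {a b : ℝ} (hf : f ∈ Γ)
    (hw : w ∈ Γ) (hg : Gap f a b) : w b - w a ≤ 2 * Real.pi := by
  have hpi : 0 < 2 * Real.pi := by positivity
  have h1 : b ≤ a + 2 * Real.pi := by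
    by_contra h2
    push Not at h2
    refine hg.ne (a + 2 * Real.pi) (by linarith) h2 ?_
    rw [h.comm f hf, hg.fa]
  have h3 := w.monotone h1
  rw [h.comm w hw] at h3
  linarith

end Pool.Agent.H24.GN
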