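import Mathlib

/-!
# GN-10: erasing loops between equal classes (abstract)

PROOF.  By strong induction on `n + 1 - m`: if `m ≤ n + 1` and `P (x m) c` then
`P (x (n+1)) (c + Σ over the classes of m..n)`.  For `m ≤ n` let `i'` be the last index `≤ n` with
`cl i' = cl m`; jump to `x i'`, step to `x (i'+1)`; the classes of `i'+1..n` do not contain `cl m`
and are contained in the classes of `m..n`; all weights are nonnegative (`hmono`).
The second part: disjoint intervals in `[u, v]` have total length at most `v - u` (measure of the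
union of the open intervals).
-/

set_option autoImplicit false
open Set Filter Topology MeasureTheory

namespace Pool.Agent.H24.GN

theorem chain {X α : Type*} [DecidableEq α] (P : X → ℝ → Prop) (n : ℕ) (x : ℕ → X) (cl : ℕ → α)
    (j s : α → ℝ) (hj : ∀ c, 0 ≤ j c) (hs : ∀ c, 0 ≤ s c)
    (hmono : ∀ y c c', c ≤ c' → P y c → P y c')
    (h0 : P (x 0) 0)
    (hjump : ∀ i i' c, i ≤ i' → i' ≤ n → cl i = cl i' → 0 ≤ c → P (x i) c →
      P (x i') (c + j (cl i)))
    (hstep : ∀ i c, i ≤ n → 0 ≤ c → P (x i) c → P (x (i + 1)) (c + s (cl i))) :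
    P (x (n + 1)) (∑ c ∈ (Finset.range (n + 1)).image cl, (j c + s c)) := by
  have key : ∀ k m : ℕ, m + k = n + 1 → ∀ c, 0 ≤ c → P (x m) c →
      P (x (n + 1)) (c + ∑ d ∈ (Finset.Icc m n).image cl, (j d + s d)) := by
    intro k
    induction k using Nat.strong_induction_on with
    | _ k ih =>
      intro m hm c hc hP
      rcases Nat.eq_zero_or_pos k with hk | hk
      · have hmn : m = n + 1 := by omega
        have he : Finset.Icc m n = ∅ := Finset.Icc_eq_empty (by omega)
        rw [he]
        simpa [hmn] using hP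
      · have hmn : m ≤ n := by omega
        have hne : ((Finset.Icc m n).filter (fun i => cl i = cl m)).Nonempty :=
          ⟨m, by simp [hmn]⟩
        obtain ⟨i', hi', hmax⟩ := Finset.exists_max_image _ (fun i : ℕ => i) hne
        rw [Finset.mem_filter, Finset.mem_Icc] at hi'
        obtain ⟨⟨h1, h2⟩, h3⟩ := hi'
        have e1 := hjump m i' c h1 h2 h3.symm hc hP
        have e2 := hstep i' (c + j (cl m)) h2 (add_nonneg hc (hj _)) e1
        have e3 := ih (n - i') (by omega) (i' + 1) (by omega) _
          (add_nonneg (add_nonneg hc (hj _)) (hs _)) e2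
        refine hmono _ _ _ ?_ e3
        have hnot : cl m ∉ (Finset.Icc (i' + 1) n).image cl := by
          intro hin
          rw [Finset.mem_image] at hin
          obtain ⟨l, hl, hle⟩ := hin
          rw [Finset.mem_Icc] at hl
          have := hmax l (by
            rw [Finset.mem_filter, Finset.mem_Icc]
            exact ⟨⟨by omega, hl.2⟩, hle⟩)
          omega
        have hsub : insert (cl m) ((Finset.Icc (i' + 1) n).image cl) ⊆
            (Finset.Icc m n).image cl := by
          intro d hd
          rw [Finset.mem_insert] at hd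
          rcases hd with hd | hd
          · rw [hd]
            exact Finset.mem_image_of_mem _ (Finset.mem_Icc.2 ⟨le_refl _, hmn⟩)
          · rw [Finset.mem_image] at hd
            obtain ⟨l, hl, hle⟩ := hd
            rw [Finset.mem_Icc] at hl
            rw [← hle]
            exact Finset.mem_image_of_mem _ (Finset.mem_Icc.2 ⟨by omega, hl.2⟩)
        have hle := Finset.sum_le_sum_of_subset_of_nonneg hsub
          (f := fun d => j d + s d) (fun d _ _ => add_nonneg (hj d) (hs d))
        rw [Finset.sum_insert hnot] at hle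
        rw [h3]
        linarith
  have h := key (n + 1) 0 (by omega) 0 le_rfl h0
  rw [zero_add] at h
  have he : Finset.Icc 0 n = Finset.range (n + 1) := by
    ext l
    rw [Finset.mem_Icc, Finset.mem_range]
    omega
  rwa [he] at h

/-- total length of disjoint intervals -/
theorem sum_len {ι : Type*} (F : Finset ι) (p q : ι → ℝ) {u v : ℝ} (huv : u ≤ v)
    (h1 : ∀ i ∈ F, u ≤ p i ∧ p i ≤ q i ∧ q i ≤ v)
    (h2 : ∀ i ∈ F, ∀ j ∈ F, i ≠ j → q i ≤ p j ∨ q j ≤ p i) :
    ∑ i ∈ F, (q i - p i) ≤ v - u := by
  have hd : Set.PairwiseDisjoint (↑F : Set ι) (fun i => Ioo (p i) (q i)) := by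
    intro i hi j' hj' hij
    rw [Function.onFun, Set.disjoint_left]
    intro t ht ht'
    rcases h2 i hi j' hj' hij with h | h
    · exact absurd (lt_trans ht'.1 (lt_of_lt_of_le ht.2 h)) (lt_irrefl _)
    · exact absurd (lt_trans ht.1 (lt_of_lt_of_le ht'.2 h)) (lt_irrefl _)
  have h3 : volume (⋃ i ∈ F, Ioo (p i) (q i)) = ∑ i ∈ F, volume (Ioo (p i) (q i)) :=
    measure_biUnion_finset hd (fun i _ => measurableSet_Ioo)
  have h4 : volume (⋃ i ∈ F, Ioo (p i) (q i)) ≤ volume (Icc u v) := by
    refine measure_mono ?_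
    intro t ht
    simp only [mem_iUnion] at ht
    obtain ⟨i, hi, hti⟩ := ht
    exact ⟨le_trans (h1 i hi).1 hti.1.le, le_trans hti.2.le (h1 i hi).2.2⟩
  rw [h3, Real.volume_Icc] at h4
  simp only [Real.volume_Ioo] at h4
  rw [← ENNReal.ofReal_sum_of_nonneg (fun i hi => sub_nonneg.2 (h1 i hi).2.1)] at h4
  exact (ENNReal.ofReal_le_ofReal_iff (sub_nonneg.2 huv)).1 h4

end Pool.Agent.H24.GN
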