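import Mathlib
import Pool.Agent.H24.GN.Calc
import Pool.Agent.H24.GN.Seq

/-!
# GN-11: the powers of `f` on a small interval inside a gap

`f` moves the points of `(a, b)` to the right, `D = [z, f z]`, `L = [p, q]` with `z ≤ p < f z`,
`p < q ≤ f p`; `r = (q - p)/(f z - z)`.
PROOF.  (1) For an interval `K = [s, t] ⊆ (a, b)` with `t ≤ f (f (f s))`: the intervals
`f^i K`, `i ∈ ℤ`, cover every point at most 3 times, so for `m : ℕ` and `j : ℤ`: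
`Σ_{i<m} (f^(j+i) t - f^(j+i) s) ≤ 3 (b - a)` (telescoping:
`f^(j+i) t ≤ f^(j+i+3) s`), hence `DB (f^m) (f^j s) (f^j t) (3 B)` and
`DB (f^k) (f^j s) (f^j t) (3 B)` for all `k ∈ ℤ` (`DB.inv` for negative `k`).
(2) Apply (1) to `K = [z, f (f (f z))]`: `L ⊆ K`, so by `DB.ratio_le` for `f^j` on `K`:
`f^j q - f^j p ≤ exp (3 B) (q - p) (f^j (f^3 z) - f^j z)/(f^3 z - z) ≤ exp (3 B) r (f^(j+3) z - f^j z)`
and `f^(j+3) z - f^j z ≤ 3 * 2 δ (b - a)` (three steps, `step_le`).  That is the first claim.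
(3) `Σ_{i<m} (f^(j+i) q - f^(j+i) p) ≤ exp (3 B) r Σ (f^(j+i+3) z - f^(j+i) z) ≤ 3 exp (3 B) r (b - a)`.
With `|ld (f^m) x - ld (f^m) y| ≤ Σ_{i<m} (B/(b-a)) |f^i x - f^i y|` and
`|f^i x - f^i y| ≤ exp (3 B) (|f^i L'|/|L'|) |x - y|` on `L' = f^j L`: 
`NB (f^m) (f^j p) (f^j q) (3 B exp (6 B) r)`; negative powers by `NB.inv` (factor `exp (3 B)`).
-/

set_option autoImplicit false
open Set Filter Topology MeasureTheory

namespace Pool.Agent.H24.GN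

open Pool.Agent.H52.GS (TT BB)

/-- the data of a small interval in normal position -/
structure Nrm (f : ℝ ≃o ℝ) (z p q : ℝ) : Prop where
  zp : z ≤ p
  pz : p < f z
  pq : p < q
  qp : q ≤ f p

/-- the constant of the powers of `f` -/
noncomputable def CB (B : ℝ) : ℝ := Real.exp (20 * (B + 1))

theorem fdx_add (f : ℝ ≃o ℝ) (i j : ℤ) (x : ℝ) : (f ^ (i + j)) x = (f ^ i) ((f ^ j) x) := by
  rw [zpow_add]; rfl

theorem fdx_succ (f : ℝ ≃o ℝ) (j : ℤ) (x : ℝ) : (f ^ (j + 1)) x = f ((f ^ j) x) := by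
  rw [add_comm, zpow_add, zpow_one]; rfl

theorem fdx_fix {f : ℝ ≃o ℝ} {a : ℝ} (fa : f a = a) (j : ℤ) : (f ^ j) a = a := by
  have fi : (f⁻¹ : ℝ ≃o ℝ) a = a := by
    have h := RelIso.inv_apply_self f a
    rw [fa] at h
    exact h
  induction j using Int.induction_on with
  | zero => simp
  | succ i ih => rw [fdx_add, zpow_one, fa, ih]
  | pred i ih =>
    rw [sub_eq_add_neg, fdx_add, zpow_neg_one, fi, ih]

theorem fdx_memc {f : ℝ ≃o ℝ} {a b : ℝ} (fa : f a = a) (fb : f b = b) {x : ℝ}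
    (hx : x ∈ Icc a b) (j : ℤ) : (f ^ j) x ∈ Icc a b := by
  have h1 := (f ^ j).monotone hx.1
  have h2 := (f ^ j).monotone hx.2
  rw [fdx_fix fa] at h1
  rw [fdx_fix fb] at h2
  exact ⟨h1, h2⟩

theorem fdx_mem {f : ℝ ≃o ℝ} {a b : ℝ} (hg : GapR f a b) {x : ℝ} (hx : x ∈ Ioo a b) (j : ℤ) :
    (f ^ j) x ∈ Ioo a b := by
  have h1 := (f ^ j).strictMono hx.1
  have h2 := (f ^ j).strictMono hx.2
  rw [fdx_fix hg.fa] at h1
  rw [fdx_fix hg.fb] at h2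
  exact ⟨h1, h2⟩

theorem fdx_mono {f : ℝ ≃o ℝ} {a b : ℝ} (hg : GapR f a b) {x : ℝ} (hx : x ∈ Ioo a b) :
    StrictMono (fun j : ℤ => (f ^ j) x) := by
  refine strictMono_int_of_lt_succ fun j => ?_
  show (f ^ j) x < (f ^ (j + 1)) x
  rw [fdx_succ]
  have := fdx_mem hg hx j
  exact hg.mv _ this.1 this.2

theorem fdx_tele {f : ℝ ≃o ℝ} {a b : ℝ} (hg : GapR f a b) {x : ℝ} (hx : x ∈ Ioo a b) (j : ℤ)
    (m : ℕ) :
    ∑ i ∈ Finset.range m, ((f ^ (j + (i : ℤ) + 3)) x - (f ^ (j + (i : ℤ))) x) ≤ 3 * (b - a) := by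
  have key : ∀ m : ℕ, ∑ i ∈ Finset.range m,
      ((f ^ (j + (i : ℤ) + 3)) x - (f ^ (j + (i : ℤ))) x) =
      ((f ^ (j + (m : ℤ))) x + (f ^ (j + (m : ℤ) + 1)) x + (f ^ (j + (m : ℤ) + 2)) x) -
        ((f ^ j) x + (f ^ (j + 1)) x + (f ^ (j + 2)) x) := by
    intro m
    induction m with
    | zero => simp
    | succ m ih =>
      rw [Finset.sum_range_succ, ih]
      push_cast
      have e0 : j + ((m : ℤ) + 1) = j + (m : ℤ) + 1 := by ring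
      have e1 : j + (m : ℤ) + 1 + 1 = j + (m : ℤ) + 2 := by ring
      have e2 : j + (m : ℤ) + 1 + 2 = j + (m : ℤ) + 3 := by ring
      rw [e0, e1, e2]
      ring
  rw [key m]
  have h1 := fdx_mem hg hx (j + (m : ℤ))
  have h2 := fdx_mem hg hx (j + (m : ℤ) + 1)
  have h3 := fdx_mem hg hx (j + (m : ℤ) + 2)
  have h4 := fdx_mem hg hx j
  have h5 := fdx_mem hg hx (j + 1)
  have h6 := fdx_mem hg hx (j + 2)
  linarith [h1.2, h2.2, h3.2, h4.1, h5.1, h6.1]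

theorem fdx_ld {f : ℝ ≃o ℝ} (hf : Rg f) (m : ℕ) (x y : ℝ) :
    |ld (f ^ (m : ℤ)) x - ld (f ^ (m : ℤ)) y| ≤
      ∑ i ∈ Finset.range m, |ld f ((f ^ (i : ℤ)) x) - ld f ((f ^ (i : ℤ)) y)| := by
  induction m with
  | zero =>
    have e : (f ^ ((0 : ℕ) : ℤ)) = 1 := by simp
    rw [e, ld_one, ld_one]
    simp
  | succ m ih =>
    have e : (f ^ ((m + 1 : ℕ) : ℤ)) = f * f ^ (m : ℤ) := by
      push_cast
      rw [add_comm, zpow_add, zpow_one]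
    rw [e, ld_mul hf (rg_zpow hf _), ld_mul hf (rg_zpow hf _), Finset.sum_range_succ]
    have h1 : ld f ((f ^ (m : ℤ)) x) + ld (f ^ (m : ℤ)) x -
        (ld f ((f ^ (m : ℤ)) y) + ld (f ^ (m : ℤ)) y) =
        (ld (f ^ (m : ℤ)) x - ld (f ^ (m : ℤ)) y) +
        (ld f ((f ^ (m : ℤ)) x) - ld f ((f ^ (m : ℤ)) y)) := by ring
    rw [h1]
    exact (abs_add_le _ _).trans (add_le_add ih le_rfl)

theorem fdx_ld' {f : ℝ ≃o ℝ} (hf : Rg f) {a b B : ℝ} (hg : GapR f a b) (hn : NB f a b B)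
    (m : ℕ) {x y : ℝ} (hx : x ∈ Icc a b) (hy : y ∈ Icc a b) :
    |ld (f ^ (m : ℤ)) x - ld (f ^ (m : ℤ)) y| * (b - a) ≤
      ∑ i ∈ Finset.range m, B * |(f ^ (i : ℤ)) x - (f ^ (i : ℤ)) y| := by
  have h0 : 0 ≤ b - a := by linarith [hg.lt]
  calc |ld (f ^ (m : ℤ)) x - ld (f ^ (m : ℤ)) y| * (b - a)
      ≤ (∑ i ∈ Finset.range m, |ld f ((f ^ (i : ℤ)) x) - ld f ((f ^ (i : ℤ)) y)|) * (b - a) :=
        mul_le_mul_of_nonneg_right (fdx_ld hf m x y) h0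
    _ = ∑ i ∈ Finset.range m, |ld f ((f ^ (i : ℤ)) x) - ld f ((f ^ (i : ℤ)) y)| * (b - a) := by
        rw [Finset.sum_mul]
    _ ≤ _ := Finset.sum_le_sum fun i _ =>
        hn _ (fdx_memc hg.fa hg.fb hx _) _ (fdx_memc hg.fa hg.fb hy _)

theorem fdx_db_pos {f : ℝ ≃o ℝ} (hf : Rg f) {a b B : ℝ} (hB : 0 ≤ B) (hg : GapR f a b)
    (hn : NB f a b B) {s t : ℝ} (hs : s ∈ Ioo a b) (hst : s ≤ t) (ht : t ≤ (f ^ (3 : ℤ)) s)
    (j : ℤ) (m : ℕ) : DB (f ^ (m : ℤ)) ((f ^ j) s) ((f ^ j) t) (3 * B) := by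
  have h0 : 0 < b - a := by linarith [hg.lt]
  have htb : t ∈ Icc a b := ⟨hs.1.le.trans hst, ht.trans (fdx_mem hg hs 3).2.le⟩
  have hjs := fdx_memc hg.fa hg.fb ⟨hs.1.le, hs.2.le⟩ j
  have hjt := fdx_memc hg.fa hg.fb htb j
  intro x hx y hy
  have h1 := fdx_ld' hf hg hn m ⟨hjs.1.trans hx.1, hx.2.trans hjt.2⟩
    ⟨hjs.1.trans hy.1, hy.2.trans hjt.2⟩
  have h2 : ∑ i ∈ Finset.range m, B * |(f ^ (i : ℤ)) x - (f ^ (i : ℤ)) y| ≤
      ∑ i ∈ Finset.range m, B * ((f ^ (j + (i : ℤ) + 3)) s - (f ^ (j + (i : ℤ))) s) := by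
    refine Finset.sum_le_sum fun i _ => mul_le_mul_of_nonneg_left ?_ hB
    have e1 : (f ^ (j + (i : ℤ))) s = (f ^ (i : ℤ)) ((f ^ j) s) := by
      rw [add_comm, fdx_add]
    have e2 : (f ^ (i : ℤ)) ((f ^ j) t) ≤ (f ^ (j + (i : ℤ) + 3)) s := by
      have e3 : (f ^ (j + (i : ℤ) + 3)) s = (f ^ (i : ℤ)) ((f ^ j) ((f ^ (3 : ℤ)) s)) := by
        rw [← fdx_add, ← fdx_add]
        congr 2
        ring
      rw [e3]
      exact (f ^ (i : ℤ)).monotone ((f ^ j).monotone ht)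
    have hx1 := (f ^ (i : ℤ)).monotone hx.1
    have hx2 := (f ^ (i : ℤ)).monotone hx.2
    have hy1 := (f ^ (i : ℤ)).monotone hy.1
    have hy2 := (f ^ (i : ℤ)).monotone hy.2
    rw [e1, abs_le]
    constructor <;> linarith
  have h3 := fdx_tele hg hs j m
  have h4 : |ld (f ^ (m : ℤ)) x - ld (f ^ (m : ℤ)) y| * (b - a) ≤ 3 * B * (b - a) := by
    calc _ ≤ _ := h1
      _ ≤ _ := h2
      _ = B * ∑ i ∈ Finset.range m, ((f ^ (j + (i : ℤ) + 3)) s - (f ^ (j + (i : ℤ))) s) := by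
          rw [Finset.mul_sum]
      _ ≤ B * (3 * (b - a)) := mul_le_mul_of_nonneg_left h3 hB
      _ = 3 * B * (b - a) := by ring
  exact le_of_mul_le_mul_right h4 h0

theorem fdx_neg_eq (f : ℝ ≃o ℝ) (m : ℕ) (j : ℤ) (x : ℝ) :
    (f ^ (m : ℤ)) ((f ^ (j - (m : ℤ))) x) = (f ^ j) x := by
  rw [← fdx_add]
  congr 2
  ring

theorem fdx_db {f : ℝ ≃o ℝ} (hf : Rg f) {a b B : ℝ} (hB : 0 ≤ B) (hg : GapR f a b)
    (hn : NB f a b B) {s t : ℝ} (hs : s ∈ Ioo a b) (hst : s ≤ t) (ht : t ≤ (f ^ (3 : ℤ)) s)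
    (j k : ℤ) : DB (f ^ k) ((f ^ j) s) ((f ^ j) t) (3 * B) := by
  obtain ⟨m, rfl | rfl⟩ := k.eq_nat_or_neg
  · exact fdx_db_pos hf hB hg hn hs hst ht j m
  · have h := DB.inv (rg_zpow hf _) (fdx_db_pos hf hB hg hn hs hst ht (j - (m : ℤ)) m)
    rw [fdx_neg_eq, fdx_neg_eq] at h
    rw [zpow_neg]
    exact h

/-- the data in the normal position -/
theorem fdx_nrm {f : ℝ ≃o ℝ} {a b : ℝ} (hg : GapR f a b) {z p q : ℝ} (hz : z ∈ Ioo a b)
    (hN : Nrm f z p q) : q ≤ f (f z) ∧ f z < f (f z) ∧ f (f z) < (f ^ (3 : ℤ)) z ∧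
      z < f z := by
  have h1 : z < f z := hg.mv z hz.1 hz.2
  have e3 : (f ^ (3 : ℤ)) z = f (f (f z)) := by
    have : (3 : ℤ) = 1 + 1 + 1 := by norm_num
    rw [this, fdx_succ, fdx_succ, zpow_one]
  refine ⟨hN.qp.trans (f.monotone hN.pz.le), f.strictMono h1, ?_, h1⟩
  rw [e3]
  exact f.strictMono (f.strictMono h1)

/-- one image -/
theorem fdx_img {f : ℝ ≃o ℝ} (hf : Rg f) {a b B : ℝ} (hB : 0 ≤ B)
    (hg : GapR f a b) (hn : NB f a b B) {z p q : ℝ} (hz : z ∈ Ioo a b) (hN : Nrm f z p q)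
    (j : ℤ) : (f ^ j) q - (f ^ j) p ≤
      Real.exp (3 * B) * ((q - p) / (f z - z)) * ((f ^ (j + 3)) z - (f ^ j) z) := by
  obtain ⟨h1, h2, h3, h4⟩ := fdx_nrm hg hz hN
  have hq3 : q ≤ (f ^ (3 : ℤ)) z := h1.trans h3.le
  have h5 := fdx_db hf hB hg hn hz ((h4.trans h2).trans h3).le le_rfl 0 j
  rw [zpow_zero] at h5
  have h5' : DB (f ^ j) z ((f ^ (3 : ℤ)) z) (3 * B) := h5
  have h6 := DB.ratio_le (rg_zpow hf j) h5' (y := p) (z := q)
    ⟨hN.zp, hN.pq.le.trans hq3⟩ ⟨hN.zp.trans hN.pq.le, hq3⟩ hN.pq.le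
  rw [← fdx_add] at h6
  have h7 : 0 ≤ (f ^ j) q - (f ^ j) p := sub_nonneg.mpr ((f ^ j).monotone hN.pq.le)
  have h8 : 0 < f z - z := by linarith
  have h9 : ((f ^ j) q - (f ^ j) p) * (f z - z) ≤
      Real.exp (3 * B) * ((f ^ (j + 3)) z - (f ^ j) z) * (q - p) :=
    (mul_le_mul_of_nonneg_left (by linarith) h7).trans h6
  rw [← le_div_iff₀ h8] at h9
  refine h9.trans_eq ?_
  ring

theorem fd_len {f : ℝ ≃o ℝ} (hf : Rg f) {a b B δ : ℝ} (hB : 0 ≤ B) (hδ : δ ≤ 1)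
    (hg : GapR f a b) (hn : Nr f a b B δ) {z p q : ℝ} (hz : z ∈ Ioo a b) (hN : Nrm f z p q)
    (j : ℤ) : (f ^ j) q - (f ^ j) p ≤ CB B * δ * ((q - p) / (f z - z)) * (b - a) := by
  have hδ0 : 0 ≤ δ := (abs_nonneg _).trans (hn.sm a (left_mem_Icc.mpr hg.lt.le))
  have h1 := fdx_img hf hB hg hn.nb hz hN j
  have hb : ∀ i : ℤ, (f ^ (i + 1)) z - (f ^ i) z ≤ 2 * δ * (b - a) := by
    intro i
    have hm := fdx_mem hg hz i
    have h2 := (step_le hf hδ hn.sm (x := (f ^ i) z) ⟨hm.1.le, hm.2.le⟩).1 hg.fa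
    rw [fdx_succ]
    have h3 := (abs_le.mp h2).2
    have h4 : 2 * δ * ((f ^ i) z - a) ≤ 2 * δ * (b - a) :=
      mul_le_mul_of_nonneg_left (by linarith [hm.2]) (by linarith)
    linarith
  have h5 : (f ^ (j + 3)) z - (f ^ j) z ≤ 6 * δ * (b - a) := by
    have e1 := hb j
    have e2 := hb (j + 1)
    have e3 := hb (j + 1 + 1)
    have e4 : j + 1 + 1 + 1 = j + 3 := by ring
    rw [e4] at e3
    linarith
  have hr : 0 ≤ (q - p) / (f z - z) :=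
    div_nonneg (by linarith [hN.pq]) (by linarith [hg.mv z hz.1 hz.2])
  have h6 : Real.exp (3 * B) * 6 ≤ CB B := by
    unfold CB
    have e : 20 * (B + 1) = 3 * B + (17 * B + 20) := by ring
    rw [e, Real.exp_add]
    refine mul_le_mul_of_nonneg_left ?_ (Real.exp_pos _).le
    have := Real.add_one_le_exp (17 * B + 20)
    linarith
  have h7 : 0 ≤ δ * ((q - p) / (f z - z)) * (b - a) :=
    mul_nonneg (mul_nonneg hδ0 hr) (by linarith [hg.lt])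
  calc (f ^ j) q - (f ^ j) p
      ≤ Real.exp (3 * B) * ((q - p) / (f z - z)) * ((f ^ (j + 3)) z - (f ^ j) z) := h1
    _ ≤ Real.exp (3 * B) * ((q - p) / (f z - z)) * (6 * δ * (b - a)) :=
        mul_le_mul_of_nonneg_left h5 (mul_nonneg (Real.exp_pos _).le hr)
    _ = (Real.exp (3 * B) * 6) * (δ * ((q - p) / (f z - z)) * (b - a)) := by ring
    _ ≤ CB B * (δ * ((q - p) / (f z - z)) * (b - a)) := mul_le_mul_of_nonneg_right h6 h7
    _ = CB B * δ * ((q - p) / (f z - z)) * (b - a) := by ring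

theorem fdx_nb_pos {f : ℝ ≃o ℝ} (hf : Rg f) {a b B : ℝ} (hB : 0 ≤ B)
    (hg : GapR f a b) (hn : NB f a b B) {z p q : ℝ} (hz : z ∈ Ioo a b) (hN : Nrm f z p q)
    (j : ℤ) (m : ℕ) : NB (f ^ (m : ℤ)) ((f ^ j) p) ((f ^ j) q)
      (3 * B * Real.exp (6 * B) * ((q - p) / (f z - z))) := by
  obtain ⟨h1, h2, h3, h4⟩ := fdx_nrm hg hz hN
  have h0 : 0 < b - a := by linarith [hg.lt]
  have hq3 : q ≤ (f ^ (3 : ℤ)) z := h1.trans h3.le
  have hz3 := fdx_mem hg hz 3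
  have hp : p ∈ Icc a b := ⟨hz.1.le.trans hN.zp, (hN.pq.le.trans hq3).trans hz3.2.le⟩
  have hq : q ∈ Icc a b := ⟨hp.1.trans hN.pq.le, hq3.trans hz3.2.le⟩
  have hjp := fdx_memc hg.fa hg.fb hp j
  have hjq := fdx_memc hg.fa hg.fb hq j
  have hr : 0 ≤ (q - p) / (f z - z) :=
    div_nonneg (by linarith [hN.pq]) (by linarith)
  have hLl : 0 ≤ (f ^ j) q - (f ^ j) p := sub_nonneg.mpr ((f ^ j).monotone hN.pq.le)
  intro x hx y hy
  have k1 := fdx_ld' hf hg hn m (x := x) (y := y) ⟨hjp.1.trans hx.1, hx.2.trans hjq.2⟩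
    ⟨hjp.1.trans hy.1, hy.2.trans hjq.2⟩
  -- each term
  have k2 : ∀ i ∈ Finset.range m, (B * |(f ^ (i : ℤ)) x - (f ^ (i : ℤ)) y|) *
      ((f ^ j) q - (f ^ j) p) ≤
      (B * Real.exp (6 * B) * ((q - p) / (f z - z)) * |x - y|) *
        ((f ^ (j + (i : ℤ) + 3)) z - (f ^ (j + (i : ℤ))) z) := by
    intro i _
    have d1 : DB (f ^ (i : ℤ)) ((f ^ j) z) ((f ^ j) ((f ^ (3 : ℤ)) z)) (3 * B) :=
      fdx_db hf hB hg hn hz ((h4.trans h2).trans h3).le le_rfl j i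
    have d2 : DB (f ^ (i : ℤ)) ((f ^ j) p) ((f ^ j) q) (3 * B) :=
      DB.sub d1 ((f ^ j).monotone hN.zp) ((f ^ j).monotone hq3)
    have d3 := calc_ratio_le (rg_zpow hf _) d2 hx hy
    have d4 := fdx_img hf hB hg hn hz hN (j + (i : ℤ))
    have e1 : ∀ u : ℝ, (f ^ (i : ℤ)) ((f ^ j) u) = (f ^ (j + (i : ℤ))) u := by
      intro u
      rw [← fdx_add, add_comm]
    rw [e1, e1] at d3
    have d5 : Real.exp (3 * B) * ((f ^ (j + (i : ℤ))) q - (f ^ (j + (i : ℤ))) p) * |x - y| ≤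
        Real.exp (3 * B) * (Real.exp (3 * B) * ((q - p) / (f z - z)) *
          ((f ^ (j + (i : ℤ) + 3)) z - (f ^ (j + (i : ℤ))) z)) * |x - y| :=
      mul_le_mul_of_nonneg_right (mul_le_mul_of_nonneg_left d4 (Real.exp_pos _).le)
        (abs_nonneg _)
    have e6 : Real.exp (6 * B) = Real.exp (3 * B) * Real.exp (3 * B) := by
      rw [← Real.exp_add]
      congr 1
      ring
    calc (B * |(f ^ (i : ℤ)) x - (f ^ (i : ℤ)) y|) * ((f ^ j) q - (f ^ j) p)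
        = B * (|(f ^ (i : ℤ)) x - (f ^ (i : ℤ)) y| * ((f ^ j) q - (f ^ j) p)) := by ring
      _ ≤ B * (Real.exp (3 * B) * (Real.exp (3 * B) * ((q - p) / (f z - z)) *
          ((f ^ (j + (i : ℤ) + 3)) z - (f ^ (j + (i : ℤ))) z)) * |x - y|) :=
          mul_le_mul_of_nonneg_left (d3.trans d5) hB
      _ = _ := by
          rw [e6]
          ring
  have k3 : (∑ i ∈ Finset.range m, B * |(f ^ (i : ℤ)) x - (f ^ (i : ℤ)) y|) *
      ((f ^ j) q - (f ^ j) p) ≤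
      (B * Real.exp (6 * B) * ((q - p) / (f z - z)) * |x - y|) * (3 * (b - a)) := by
    rw [Finset.sum_mul]
    refine (Finset.sum_le_sum k2).trans ?_
    rw [← Finset.mul_sum]
    refine mul_le_mul_of_nonneg_left (fdx_tele hg hz j m) ?_
    exact mul_nonneg (mul_nonneg (mul_nonneg hB (Real.exp_pos _).le) hr) (abs_nonneg _)
  have k4 := (mul_le_mul_of_nonneg_right k1 hLl).trans k3
  have k5 : (|ld (f ^ (m : ℤ)) x - ld (f ^ (m : ℤ)) y| * ((f ^ j) q - (f ^ j) p)) * (b - a) ≤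
      (3 * B * Real.exp (6 * B) * ((q - p) / (f z - z)) * |x - y|) * (b - a) := by
    calc _ = |ld (f ^ (m : ℤ)) x - ld (f ^ (m : ℤ)) y| * (b - a) * ((f ^ j) q - (f ^ j) p) := by
          ring
      _ ≤ _ := k4
      _ = _ := by ring
  exact le_of_mul_le_mul_right k5 h0

theorem fd_nb {f : ℝ ≃o ℝ} (hf : Rg f) {a b B δ : ℝ} (hB : 0 ≤ B) (hδ : δ ≤ 1)
    (hg : GapR f a b) (hn : Nr f a b B δ) {z p q : ℝ} (hz : z ∈ Ioo a b) (hN : Nrm f z p q)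
    (j k : ℤ) : NB (f ^ k) ((f ^ j) p) ((f ^ j) q) (CB B * ((q - p) / (f z - z))) := by
  obtain ⟨h1, h2, h3, h4⟩ := fdx_nrm hg hz hN
  have hq3 : q ≤ (f ^ (3 : ℤ)) z := h1.trans h3.le
  have hr : 0 ≤ (q - p) / (f z - z) :=
    div_nonneg (by linarith [hN.pq]) (by linarith)
  have hB3 : 3 * B ≤ Real.exp (11 * B + 20) := by
    have := Real.add_one_le_exp (11 * B + 20)
    linarith
  have hcb : Real.exp (3 * B) * (3 * B * Real.exp (6 * B)) ≤ CB B := by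
    unfold CB
    have e : 20 * (B + 1) = 3 * B + ((11 * B + 20) + 6 * B) := by ring
    rw [e, Real.exp_add, Real.exp_add]
    refine mul_le_mul_of_nonneg_left ?_ (Real.exp_pos _).le
    exact mul_le_mul_of_nonneg_right hB3 (Real.exp_pos _).le
  have hcb' : 3 * B * Real.exp (6 * B) ≤ CB B := by
    refine le_trans ?_ hcb
    have hx : 1 ≤ Real.exp (3 * B) := Real.one_le_exp (by linarith)
    have hy : 0 ≤ 3 * B * Real.exp (6 * B) := mul_nonneg (by linarith) (Real.exp_pos _).le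
    nlinarith
  obtain ⟨m, rfl | rfl⟩ := k.eq_nat_or_neg
  · exact (fdx_nb_pos hf hB hg hn.nb hz hN j m).mono (mul_le_mul_of_nonneg_right hcb' hr)
  · have d1 : DB (f ^ (m : ℤ)) ((f ^ (j - (m : ℤ))) z) ((f ^ (j - (m : ℤ))) ((f ^ (3 : ℤ)) z))
        (3 * B) :=
      fdx_db hf hB hg hn.nb hz ((h4.trans h2).trans h3).le le_rfl _ _
    have d2 : DB (f ^ (m : ℤ)) ((f ^ (j - (m : ℤ))) p) ((f ^ (j - (m : ℤ))) q) (3 * B) :=
      DB.sub d1 ((f ^ (j - (m : ℤ))).monotone hN.zp) ((f ^ (j - (m : ℤ))).monotone hq3)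
    have h := NB.inv (rg_zpow hf _) ((f ^ (j - (m : ℤ))).strictMono hN.pq)
      (fdx_nb_pos hf hB hg hn.nb hz hN (j - (m : ℤ)) m) d2
    rw [fdx_neg_eq, fdx_neg_eq] at h
    rw [zpow_neg]
    refine h.mono ?_
    calc Real.exp (3 * B) * (3 * B * Real.exp (6 * B) * ((q - p) / (f z - z)))
        = (Real.exp (3 * B) * (3 * B * Real.exp (6 * B))) * ((q - p) / (f z - z)) := by ring
      _ ≤ CB B * ((q - p) / (f z - z)) := mul_le_mul_of_nonneg_right hcb hr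

/-- the size of an interval in normal position -/
theorem nrm_len {f : ℝ ≃o ℝ} (hf : Rg f) {a b B δ : ℝ} (hδ : δ ≤ 1 / 100)
    (hg : GapR f a b) (hn : Nr f a b B δ) {z p q : ℝ} (hz : z ∈ Ioo a b) (hN : Nrm f z p q) :
    0 < (q - p) / (f z - z) ∧ (q - p) / (f z - z) ≤ 2 ∧ q ≤ f (f z) ∧
      f (f z) - z ≤ 3 * (f z - z) := by
  obtain ⟨h1, h2, h3, h4⟩ := fdx_nrm hg hz hN
  have h0 : 0 < f z - z := by linarith
  have hδ1 : δ ≤ 1 := by linarith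
  have hz3 := fdx_mem hg hz 3
  have hpb : p ∈ Icc a b :=
    ⟨hz.1.le.trans hN.zp, ((hN.pz.le.trans h2.le).trans h3.le).trans hz3.2.le⟩
  have hfz : f z ∈ Icc a b := ⟨(hz.1.trans h4).le, (h2.trans (h3.trans hz3.2)).le⟩
  have k1 := step_lip hf hδ1 hn.sm hpb ⟨hz.1.le, hz.2.le⟩
  have k2 := step_lip hf hδ1 hn.sm hfz ⟨hz.1.le, hz.2.le⟩
  have hpz : |p - z| ≤ f z - z := by
    rw [abs_of_nonneg (by linarith [hN.zp])]
    linarith [hN.pz]
  rw [abs_of_pos h0] at k2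
  have k3 : 2 * δ * |p - z| ≤ 1 / 50 * (f z - z) :=
    mul_le_mul (by linarith) hpz (abs_nonneg _) (by norm_num)
  have k4 : 2 * δ * (f z - z) ≤ 1 / 50 * (f z - z) :=
    mul_le_mul_of_nonneg_right (by linarith) h0.le
  have k5 := (abs_le.mp k1).2
  have k6 := (abs_le.mp k2).2
  have hqp := hN.qp
  refine ⟨div_pos (by linarith [hN.pq]) h0, ?_, h1, by linarith⟩
  rw [div_le_iff₀ h0]
  linarith

theorem fdx_reach {f : ℝ ≃o ℝ} {a b : ℝ} (hg : GapR f a b) {x y : ℝ} (hx : x ∈ Ioo a b)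
    (hy : y ∈ Ioo a b) : ∃ n : ℕ, y < (f ^ (n : ℤ)) x := by
  by_contra hcon
  push Not at hcon
  have hbdd : BddAbove (range fun n : ℕ => (f ^ (n : ℤ)) x) := ⟨y, by
    rintro _ ⟨n, rfl⟩
    exact hcon n⟩
  have hmono : Monotone fun n : ℕ => (f ^ (n : ℤ)) x := by
    intro m n hmn
    exact (fdx_mono hg hx).monotone (Int.ofNat_le.mpr hmn)
  have ht := tendsto_atTop_ciSup hmono hbdd
  set u := ⨆ n : ℕ, (f ^ (n : ℤ)) x with hu
  have h1 : Tendsto (fun n : ℕ => f ((f ^ (n : ℤ)) x)) atTop (𝓝 (f u)) :=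
    ((OrderIso.continuous f).tendsto u).comp ht
  have h2 : Tendsto (fun n : ℕ => (f ^ ((n + 1 : ℕ) : ℤ)) x) atTop (𝓝 u) :=
    ht.comp (tendsto_add_atTop_nat 1)
  have h3 : (fun n : ℕ => (f ^ ((n + 1 : ℕ) : ℤ)) x) = fun n : ℕ => f ((f ^ (n : ℤ)) x) := by
    funext n
    push_cast
    rw [fdx_succ]
  rw [h3] at h2
  have h4 : f u = u := tendsto_nhds_unique h1 h2
  have h5 : u ≤ y := ciSup_le hcon
  have h6 : x ≤ u := by
    have h7 : (f ^ ((0 : ℕ) : ℤ)) x ≤ u := le_ciSup hbdd 0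
    have h8 : (f ^ ((0 : ℕ) : ℤ)) x = x := by simp
    rw [h8] at h7
    exact h7
  have := hg.mv u (hx.1.trans_le h6) (h5.trans_lt hy.2)
  linarith

/-- every interval in `(a, b)` which `f` moves off itself has a normal position -/
theorem nrm_exists {f : ℝ ≃o ℝ} (hf : Rg f) {a b : ℝ} (hg : GapR f a b) {z s t : ℝ}
    (hz : z ∈ Ioo a b) (hs : a < s) (hst : s < t) (ht : t < b) (hft : t ≤ f s) :
    ∃ k : ℤ, Nrm f z ((f ^ k) s) ((f ^ k) t) := by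
  have hsm : s ∈ Ioo a b := ⟨hs, hst.trans ht⟩
  obtain ⟨n, hn⟩ := fdx_reach hg hsm hz
  obtain ⟨m, hm⟩ := fdx_reach hg hz hsm
  obtain ⟨k, hk1, hk2⟩ := Int.exists_least_of_bdd (P := fun k : ℤ => z ≤ (f ^ k) s)
    ⟨-(m : ℤ), fun k hk => by
      by_contra hlt
      push Not at hlt
      have h1 : (f ^ k) s ≤ (f ^ (-(m : ℤ))) s := (fdx_mono hg hsm).monotone hlt.le
      have h2 : (f ^ (-(m : ℤ))) s < z := by
        have h3 := (f ^ (-(m : ℤ))).strictMono hm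
        rw [← fdx_add, neg_add_cancel, zpow_zero] at h3
        exact h3
      exact absurd hk (not_le.mpr (h1.trans_lt h2))⟩ ⟨n, hn.le⟩
  refine ⟨k, hk1, ?_, (f ^ k).strictMono hst, ?_⟩
  · have h1 : (f ^ (k - 1)) s < z := by
      by_contra h
      push Not at h
      have := hk2 _ h
      linarith
    have h2 := f.strictMono h1
    rw [← fdx_succ] at h2
    have e : k - 1 + 1 = k := by ring
    rw [e] at h2
    exact h2
  · have h1 := (f ^ k).monotone hft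
    have e : (f ^ k) (f s) = f ((f ^ k) s) := by
      rw [← fdx_succ, fdx_add, zpow_one]
    rw [e] at h1
    exact h1

end Pool.Agent.H24.GN
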