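import Mathlib
import Pool.Agent.H24.GN.Calc

/-!
# GN-2: an iterated function system in `Γ` is impossible

PROOF.  Write `I = [p,q]`, `I' = [p',q']`.  By induction on `n`: for every `y ∈ I'` there is
`Φ ∈ Γ` with `p ≤ Φ p`, `Φ q ≤ q`, `Φ p' ≤ y ≤ Φ q'`, `NB Φ p q (2 C)` and
`(Φ q - Φ p) 2^n ≤ q - p`.  `n = 0`: take the `φ` of `H` (or `Φ = 1`).  Step: `φ` from `H` at `y`,
`y1 = φ⁻¹ y ∈ I'`, `Φ1` for `y1` and `n`; `Φ = φ * Φ1`?  No: use the other order: `Φ` for `y` and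
`n`, `y1 = Φ⁻¹ y ∈ I'`, `φ` from `H` at `y1`, new map `Φ * φ`.  `NB (Φ * φ) p q (C + exp C * (2 C) *
((φ q - φ p)/(q - p)))` (`NB.sub` for `Φ` on `[φ p, φ q]`, then `NB.mul`) and
`exp C * 2 C / R ≤ C`.  Length: `Φ (φ q) - Φ (φ p) ≤ exp (2 C) (Φ q - Φ p) (φ q - φ p)/(q - p)`
(`DB.ratio_le`), and `exp (2 C) / R ≤ 1/2`.
So for every `y ∈ I'` and `n` the inverse `w = Φ⁻¹` satisfies `NB w (Φ p) (Φ q) (exp (2 C) * (2 C))`
(`NB.inv`), `w (Φ q) - w (Φ p) = q - p`, `Φ p ≤ y ≤ Φ q`, `Φ q - Φ p ≤ (q - p)/2^n`: every point of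
`I'` is in `{x | Con Γ κ x}` with `κ = min (q - p) (exp (2 C) * (2 C) + 1)⁻¹`, which contradicts
`h.con` because `volume (Icc p' q') = q' - p' > 0`.
-/

set_option autoImplicit false
open Set Filter Topology MeasureTheory

namespace Pool.Agent.H24.GN

open Pool.Agent.H52.GS (TT BB)

theorem ifs_step {Γ : Subgroup (ℝ ≃o ℝ)} (h : Gq Γ) {p p' q' q C R : ℝ} (h1 : p ≤ p')
    (h2 : p' < q') (h3 : q' ≤ q) (hC : 0 ≤ C) (hR : 2 * Real.exp (2 * C) ≤ R)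
    (H : ∀ y ∈ Icc p' q', ∃ φ ∈ Γ, p ≤ φ p ∧ φ q ≤ q ∧ φ p' ≤ y ∧ y ≤ φ q' ∧ NB φ p q C ∧
      (φ q - φ p) * R ≤ q - p) (n : ℕ) :
    ∀ y ∈ Icc p' q', ∃ φ ∈ Γ, p ≤ φ p ∧ φ q ≤ q ∧ φ p' ≤ y ∧ y ≤ φ q' ∧ NB φ p q (2 * C) ∧
      (φ q - φ p) * 2 ^ n ≤ q - p := by
  have hpq : p < q := by linarith
  induction n with
  | zero =>
    intro y hy
    refine ⟨1, Γ.one_mem, le_refl p, le_refl q, hy.1, hy.2, (NB.one p q).mono (by linarith), ?_⟩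
    have : ((1 : ℝ ≃o ℝ) q - (1 : ℝ ≃o ℝ) p) = q - p := rfl
    rw [this]
    simp
  | succ n ih =>
    intro y hy
    obtain ⟨Φ, hΦ, a1, a2, a3, a4, a5, a6⟩ := ih y hy
    have ey : Φ ((Φ⁻¹ : ℝ ≃o ℝ) y) = y := RelIso.apply_inv_self Φ y
    have hy1 : (Φ⁻¹ : ℝ ≃o ℝ) y ∈ Icc p' q' := by
      refine ⟨?_, ?_⟩
      · rw [← Φ.le_iff_le, ey]
        exact a3
      · rw [← Φ.le_iff_le, ey]
        exact a4
    obtain ⟨φ, hφ, b1, b2, b3, b4, b5, b6⟩ := H _ hy1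
    have rΦ := h.rg Φ hΦ
    have rφ := h.rg φ hφ
    have hφpq : φ p < φ q := φ.strictMono hpq
    have hΦpq : Φ p < Φ q := Φ.strictMono hpq
    have h0 : 0 < q - p := by linarith
    have eC : 1 ≤ Real.exp C := Real.one_le_exp hC
    have e2C : Real.exp C ≤ Real.exp (2 * C) := Real.exp_le_exp.mpr (by linarith)
    have hR0 : 0 < R := by linarith
    have hratio : (φ q - φ p) / (q - p) ≤ 1 / R := by
      rw [div_le_div_iff₀ h0 hR0]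
      linarith
    refine ⟨Φ * φ, Γ.mul_mem hΦ hφ, ?_, ?_, ?_, ?_, ?_, ?_⟩
    · exact a1.trans (Φ.monotone b1)
    · exact (Φ.monotone b2).trans a2
    · have := Φ.monotone b3
      rw [ey] at this
      exact this
    · have := Φ.monotone b4
      rw [ey] at this
      exact this
    · have hs := a5.sub b1 hφpq b2
      refine (NB.mul rΦ rφ hpq b5 (b5.db hpq) hs).mono ?_
      have c1 : 0 ≤ Real.exp C * (2 * C) := by positivity
      have c2 : Real.exp C * (2 * C) * ((φ q - φ p) / (q - p)) ≤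
          Real.exp C * (2 * C) * (1 / R) := mul_le_mul_of_nonneg_left hratio c1
      have c3 : Real.exp C * (2 * C) * (1 / R) ≤ C := by
        rw [mul_one_div, div_le_iff₀ hR0]
        have : Real.exp C * 2 ≤ R := by linarith
        nlinarith
      linarith
    · have c1 := DB.ratio_le rΦ (a5.db hpq) (y := φ p) (z := φ q)
        ⟨b1, hφpq.le.trans b2⟩ ⟨b1.trans hφpq.le, b2⟩ hφpq.le
      have c2 : Real.exp (2 * C) * (φ q - φ p) * 2 ≤ q - p := by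
        have : 0 ≤ φ q - φ p := by linarith
        nlinarith
      have c3 : (Φ (φ q) - Φ (φ p)) * 2 ≤ Φ q - Φ p := by
        have c4 : ((Φ (φ q) - Φ (φ p)) * 2) * (q - p) ≤ (Φ q - Φ p) * (q - p) := by
          calc ((Φ (φ q) - Φ (φ p)) * 2) * (q - p)
              = 2 * ((Φ (φ q) - Φ (φ p)) * (q - p)) := by ring
            _ ≤ 2 * (Real.exp (2 * C) * (Φ q - Φ p) * (φ q - φ p)) := by linarith
            _ = (Φ q - Φ p) * (Real.exp (2 * C) * (φ q - φ p) * 2) := by ring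
            _ ≤ (Φ q - Φ p) * (q - p) := mul_le_mul_of_nonneg_left c2 (by linarith)
        exact le_of_mul_le_mul_right c4 h0
      have e1 : (Φ * φ) q - (Φ * φ) p = Φ (φ q) - Φ (φ p) := rfl
      rw [e1, pow_succ]
      have c5 : (0:ℝ) ≤ 2 ^ n := by positivity
      calc (Φ (φ q) - Φ (φ p)) * (2 ^ n * 2) = ((Φ (φ q) - Φ (φ p)) * 2) * 2 ^ n := by ring
        _ ≤ (Φ q - Φ p) * 2 ^ n := mul_le_mul_of_nonneg_right c3 c5
        _ ≤ q - p := a6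

theorem ifs_false {Γ : Subgroup (ℝ ≃o ℝ)} (h : Gq Γ) {p p' q' q C R : ℝ} (h1 : p ≤ p')
    (h2 : p' < q') (h3 : q' ≤ q) (hC : 0 ≤ C) (hR : 2 * Real.exp (2 * C) ≤ R)
    (H : ∀ y ∈ Icc p' q', ∃ φ ∈ Γ, p ≤ φ p ∧ φ q ≤ q ∧ φ p' ≤ y ∧ y ≤ φ q' ∧ NB φ p q C ∧
      (φ q - φ p) * R ≤ q - p) : False := by
  have hpq : p < q := by linarith
  have h0 : 0 < q - p := by linarith
  set K : ℝ := Real.exp (2 * C) * (2 * C) with hK
  have hK0 : 0 ≤ K := by positivity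
  have hκ : 0 < min (q - p) (K + 1)⁻¹ := lt_min h0 (by positivity)
  have hsub : Icc p' q' ⊆ {x : ℝ | Con Γ (min (q - p) (K + 1)⁻¹) x} := by
    intro y hy ρ hρ
    obtain ⟨n, hn⟩ := pow_unbounded_of_one_lt ((q - p) / ρ) (one_lt_two : (1:ℝ) < 2)
    obtain ⟨Φ, hΦ, a1, a2, a3, a4, a5, a6⟩ := ifs_step h h1 h2 h3 hC hR H n y hy
    have rΦ := h.rg Φ hΦ
    have hpow : (0:ℝ) < 2 ^ n := by positivity
    have ep : (Φ⁻¹ : ℝ ≃o ℝ) (Φ p) = p := RelIso.inv_apply_self Φ p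
    have eq' : (Φ⁻¹ : ℝ ≃o ℝ) (Φ q) = q := RelIso.inv_apply_self Φ q
    refine ⟨Φ⁻¹, Γ.inv_mem hΦ, Φ p, Φ q, Φ.strictMono hpq, ?_, (Φ.monotone h1).trans a3,
      a4.trans (Φ.monotone h3), ?_, ?_⟩
    · rw [div_lt_iff₀ hρ] at hn
      have : (Φ q - Φ p) * 2 ^ n ≤ ρ * 2 ^ n := by linarith
      exact le_of_mul_le_mul_right this hpow
    · refine (NB.inv rΦ hpq a5 (a5.db hpq)).mono ?_
      have c1 : min (q - p) (K + 1)⁻¹ ≤ (K + 1)⁻¹ := min_le_right _ _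
      have c2 : ((K + 1)⁻¹)⁻¹ ≤ (min (q - p) (K + 1)⁻¹)⁻¹ := inv_anti₀ hκ c1
      rw [inv_inv] at c2
      linarith
    · rw [ep, eq']
      exact min_le_left _ _
  have hvol : volume (Icc p' q') = 0 :=
    measure_mono_null hsub (h.con _ hκ)
  rw [Real.volume_Icc, ENNReal.ofReal_eq_zero] at hvol
  linarith

end Pool.Agent.H24.GN
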