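import Mathlib
import Pool.Agent.H24.GN.Ifs
import Pool.Agent.H51.GN.NcGap
import Pool.Agent.H51.GN.IfsCon

/-!
# GN-3: no crossing at the left end of a gap

PROOF of `nc_left`.  We may assume `f x < x` on `(a, b)` (otherwise use `f⁻¹`: its bounds are
`NB f⁻¹ a b (exp B * B)` and the same `δ`, and `|f⁻¹ c - c| ≤ exp δ |f c - c|`; prove first a version
`nc_left'` with `f x < x`, with the constant `5` instead of `6` and `k x2 ≤ b`).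
Put `c = k a`, `v = c - f c > 0`, `I = [c + v, c + 5 v]`, `I' = [c + 2 v, c + 4 v]`, `μ = k' a ≥ m`.
`v ≤ 2 δ (c - a)` (`step_le`).  Steps: `s x = x - f x` is `2 δ`-Lipschitz (`step_lip`).
Let `y ∈ I'`, `z = k⁻¹ y ∈ (a, x2)`, `d = z - a`: `exp (-G) μ d ≤ y - c ≤ 4 v` (`DB.ge` for `k`), so
`d ≤ 4 exp G v / μ ≤ 8 exp G δ (c - a) / m < (c - a)/10`, and `z < c`.
Let `n` be the first number with `f^(-n) z ≥ c + 2 v` (exists: no fixed point in `[z, c + 2 v]`); the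
previous point `x` is in `[c, c + 2 v)` (if `x < c` then `f⁻¹ x < f⁻¹ c ≤ c + 2 v`, as
`f⁻¹ c - c ≤ exp δ v`) and `f⁻¹ x - x ≤ 2 v`, so `f^(-n) z ∈ I'`.
`φ = k * f ^ n`.  (1) `φ p' ≤ y ≤ φ q'` with `I' = [p', q']` because `f^(-n) (k⁻¹ y) ∈ I'`.
(2) The steps of `f⁻¹` at points of `I` are `≥ v/2`, so `c + 5 v ≤ f^(-8) (c + v)`; the intervals
`f^i [c + v, c + 5 v] ⊆ [f^i (c + v), f^(i-8) (c + v)]`, `0 ≤ i < n`, have total length `≤ 8 (b - a)`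
(telescoping), so `DB (f^n) I (8 B)` and, with `DB`, `NB (f^n) I (8 B exp (8 B))`:
`|ld (f^n) x - ld (f^n) y| ≤ Σ |ld f (f^i x) - ld f (f^i y)| ≤ (B/(b-a)) Σ |f^i x - f^i y|`,
`|f^i x - f^i y| ≤ exp (8 B) |f^i I| |x - y| / |I|`.
(3) `f^n I ⊆ [f^n (c+v), f^(-8) (f^n (c+v))]` contains `z`, all its points have distance `≤ 2 d` to
`a` or so, steps `≤ 4 δ d`, so `|f^n I| ≤ 64 δ d ≤ 256 δ exp G v / μ`.
(4) `f^n I ⊆ [a, x2]`: otherwise `k x2 - k z ≤ exp G μ |f^n I| ≤ 256 δ exp (2 G) v < v`, but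
`k x2 - k z ≥ c + 5 v - (c + 4 v)`.
(5) `NB φ I C1`, `C1 = 8 B exp (8 B) + exp (8 B) G` and `|φ I| ≤ exp G μ |f^n I| ≤ 256 δ exp (2 G) v`,
so `|φ I| R ≤ |I| = 4 v` with `R = 2 exp (2 C1)` for small `δ`, and `φ I ⊆ I` because `y ∈ φ I`,
`y ∈ I'`.  `ifs_false`.
-/

set_option autoImplicit false
open Set Filter Topology MeasureTheory

namespace Pool.Agent.H24.GN

open Pool.Agent.H52.GS (TT BB)

theorem nc_left (B G m : ℝ) (hB : 0 ≤ B) (hG : 0 ≤ G) (hm : 0 < m) : ∃ δ0 : ℝ, 0 < δ0 ∧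
    ∀ {Γ : Subgroup (ℝ ≃o ℝ)}, Gq Γ → ∀ {f k : ℝ ≃o ℝ} {a b x2 : ℝ}, f ∈ Γ → k ∈ Γ →
      Gap f a b → Nr f a b B δ0 → a < k a → a < x2 → x2 ≤ b → NB k a x2 G →
      k a + 6 * |f (k a) - k a| ≤ k x2 → k x2 ≤ b → m ≤ deriv (k : ℝ → ℝ) a → False := by
  obtain ⟨K1, hK1⟩ : ∃ K1, K1 = Real.exp G * Real.exp G * Real.exp (15 * B) := ⟨_, rfl⟩
  obtain ⟨K2, hK2⟩ : ∃ K2, K2 = 4 * Real.exp G := ⟨_, rfl⟩
  have hK10 : 0 < K1 := by rw [hK1]; positivity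
  have hK20 : 0 < K2 := by rw [hK2]; positivity
  refine ⟨min (1 / 1000 / K1) (m / K2), lt_min (by positivity) (by positivity), ?_⟩
  intro Γ h f k a b x2 hf hk hgap hnr h1 h2 _ h3 h4 h5 h6
  have hR := Pool.Agent.H51.GN.reg_of_gq h
  have hN := Pool.Agent.H51.GN.noIFS_of_gq h
  have h3' : Pool.Agent.H51.GN.Nle k a x2 G := h3
  refine Pool.Agent.H51.GN.nc_gap hR hN hf hk hgap (B := B) (G := G) (x2 := x2) hnr.sm hnr.nb
    h1 h2 (h3'.dle h2) h4 h5 ?_ (le_trans ?_ h6)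
  · rw [mul_assoc, ← hK1, ← le_div_iff₀ hK10]
    exact min_le_left _ _
  · rw [← hK2, mul_comm, ← le_div_iff₀ hK20]
    exact min_le_right _ _

end Pool.Agent.H24.GN
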