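import Mathlib
import Pool.Agent.H24.GN.NcL

/-!
# GN-4: reflection, and no crossing at the right end of a gap

`rf f` is `x ↦ - f (-x)`; `rfG Γ` is the image of `Γ`.  `Con (rfG Γ) κ x ↔ Con Γ κ (-x)`.
`nc_right` follows from `nc_left` for `rfG Γ`, `rf f`, `rf k`, the gap `(-b, -a)` and `-x2`.
-/

set_option autoImplicit false
open Set Filter Topology MeasureTheory

namespace Pool.Agent.H24.GN

open Pool.Agent.H52.GS (TT BB)

/-- conjugation by the reflection -/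
noncomputable def rf : (ℝ ≃o ℝ) →* (ℝ ≃o ℝ) where
  toFun f :=
    { toFun := fun x => - f (-x)
      invFun := fun x => - (f⁻¹ : ℝ ≃o ℝ) (-x)
      left_inv := by
        intro x
        have h : (f⁻¹ : ℝ ≃o ℝ) (f (-x)) = -x := f.symm_apply_apply (-x)
        simp only [neg_neg, h]
      right_inv := by
        intro x
        have h : f ((f⁻¹ : ℝ ≃o ℝ) (-x)) = -x := f.apply_symm_apply (-x)
        simp only [neg_neg, h]
      map_rel_iff' := by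
        intro x y
        show - f (-x) ≤ - f (-y) ↔ x ≤ y
        rw [neg_le_neg_iff, f.le_iff_le, neg_le_neg_iff] }
  map_one' := by
    ext x
    show - (-x) = x
    exact neg_neg x
  map_mul' := by
    intro f g
    ext x
    show - f (g (-x)) = - f (- - g (-x))
    rw [neg_neg]

theorem rf_apply (f : ℝ ≃o ℝ) (x : ℝ) : rf f x = - f (-x) := rfl

theorem rf_inv (f : ℝ ≃o ℝ) : rf f⁻¹ = (rf f)⁻¹ := map_inv rf f

theorem deriv_rf (f : ℝ ≃o ℝ) (x : ℝ) :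
    deriv (rf f : ℝ → ℝ) x = deriv (f : ℝ → ℝ) (-x) := by
  have h : (rf f : ℝ → ℝ) = fun x => - (fun y => (f : ℝ → ℝ) (-y)) x := rfl
  rw [h]
  have h2 : deriv (fun x => - (fun y => (f : ℝ → ℝ) (-y)) x) x
      = - deriv (fun y => (f : ℝ → ℝ) (-y)) x := deriv.fun_neg
  rw [h2, deriv_comp_neg, neg_neg]

theorem rg_rf {f : ℝ ≃o ℝ} (hf : Rg f) : Rg (rf f) := by
  refine ⟨?_, fun x => ?_⟩
  · have h : (rf f : ℝ → ℝ) = fun x => - (f : ℝ → ℝ) (-x) := rfl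
    rw [h]
    exact (hf.1.comp differentiable_neg).neg
  · rw [deriv_rf]
    exact hf.2 _

theorem ld_rf (f : ℝ ≃o ℝ) (x : ℝ) : ld (rf f) x = ld f (-x) := by
  unfold ld
  rw [deriv_rf]

theorem NB.rf {w : ℝ ≃o ℝ} {a b t : ℝ} (h : NB w a b t) :
    NB (Pool.Agent.H24.GN.rf w) (-b) (-a) t := by
  intro x hx y hy
  rw [ld_rf, ld_rf]
  have h1 := h (-x) ⟨by linarith [hx.2], by linarith [hx.1]⟩ (-y)
    ⟨by linarith [hy.2], by linarith [hy.1]⟩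
  have h2 : |(-x) - (-y)| = |x - y| := by
    rw [show (-x) - (-y) = -(x - y) by ring, abs_neg]
  rw [h2] at h1
  have h3 : -a - -b = b - a := by ring
  rw [h3]
  exact h1

theorem Gap.rf {f : ℝ ≃o ℝ} {a b : ℝ} (h : Gap f a b) :
    Gap (Pool.Agent.H24.GN.rf f) (-b) (-a) := by
  refine ⟨by linarith [h.lt], ?_, ?_, ?_⟩
  · rw [rf_apply, neg_neg, h.fb]
  · rw [rf_apply, neg_neg, h.fa]
  · intro x h1 h2 h3
    rw [rf_apply] at h3
    exact h.ne (-x) (by linarith) (by linarith) (by linarith)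

theorem Nr.rf {f : ℝ ≃o ℝ} {a b B δ : ℝ} (h : Nr f a b B δ) :
    Nr (Pool.Agent.H24.GN.rf f) (-b) (-a) B δ := by
  refine ⟨h.nb.rf, ?_⟩
  intro x hx
  rw [ld_rf]
  exact h.sm (-x) ⟨by linarith [hx.2], by linarith [hx.1]⟩

theorem ncr_con {Γ : Subgroup (ℝ ≃o ℝ)} {κ x : ℝ} (h : Con (Γ.map rf) κ x) : Con Γ κ (-x) := by
  intro ρ hρ
  obtain ⟨w, hw, a, b, h1, h2, h3, h4, h5, h6⟩ := h ρ hρ
  obtain ⟨v, hv, rfl⟩ := Subgroup.mem_map.1 hw
  have h5' : NB v (-b) (-a) κ⁻¹ := by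
    intro y hy z hz
    have h7 := h5 (-y) ⟨by linarith [hy.2], by linarith [hy.1]⟩ (-z)
      ⟨by linarith [hz.2], by linarith [hz.1]⟩
    rw [ld_rf, ld_rf, neg_neg, neg_neg] at h7
    have h8 : |(-y) - (-z)| = |y - z| := by
      rw [show (-y) - (-z) = -(y - z) by ring, abs_neg]
    rw [h8] at h7
    have h9 : -a - -b = b - a := by ring
    rw [h9]
    exact h7
  refine ⟨v, hv, -b, -a, by linarith, by linarith, by linarith, by linarith, h5', ?_⟩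
  rw [rf_apply, rf_apply] at h6
  linarith

theorem gq_rf {Γ : Subgroup (ℝ ≃o ℝ)} (h : Gq Γ) : Gq (Γ.map rf) := by
  refine ⟨?_, ?_, ?_, ?_, ?_, ?_, ?_⟩
  · refine Subgroup.mem_map.2 ⟨TT⁻¹, Γ.inv_mem h.T_mem, ?_⟩
    ext x
    rw [rf_apply]
    have h1 : TT ((TT⁻¹ : ℝ ≃o ℝ) (-x)) = -x := TT.apply_symm_apply (-x)
    have h2 : ∀ y : ℝ, TT y = y + 2 * Real.pi := fun y => rfl
    rw [h2] at h1
    rw [h2]
    linarith
  · intro f hf x
    obtain ⟨g, hg, rfl⟩ := Subgroup.mem_map.1 hf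
    rw [rf_apply, rf_apply]
    have h1 := h.comm g hg (-(x + 2 * Real.pi))
    rw [show -(x + 2 * Real.pi) + 2 * Real.pi = -x by ring] at h1
    linarith
  · intro f hf
    obtain ⟨g, hg, rfl⟩ := Subgroup.mem_map.1 hf
    exact rg_rf (h.rg g hg)
  · intro f hf
    obtain ⟨g, hg, rfl⟩ := Subgroup.mem_map.1 hf
    obtain ⟨C, hC, h1⟩ := h.lip g hg
    refine ⟨C, hC, fun x y => ?_⟩
    rw [ld_rf, ld_rf]
    have h2 := h1 (-x) (-y)
    rwa [show (-x) - (-y) = -(x - y) by ring, abs_neg] at h2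
  · intro x a b hab
    obtain ⟨g, hg, h1, h2⟩ := h.dense (-x) (-b) (-a) (by linarith)
    refine ⟨rf g, Subgroup.mem_map.2 ⟨g, hg, rfl⟩, ?_, ?_⟩
    · rw [rf_apply]; linarith
    · rw [rf_apply]; linarith
  · obtain ⟨q, hq, y, h1, h2⟩ := h.hyp
    refine ⟨rf q, Subgroup.mem_map.2 ⟨q, hq, rfl⟩, -y, ?_, ?_⟩
    · rw [rf_apply, neg_neg, h1]
    · rw [deriv_rf, neg_neg]; exact h2
  · intro κ hκ
    have h1 : {x : ℝ | Con (Γ.map rf) κ x} ⊆ Neg.neg ⁻¹' {x : ℝ | Con Γ κ x} := by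
      intro x hx
      exact ncr_con hx
    refine measure_mono_null h1 ?_
    rw [Measure.measure_preimage_neg]
    exact h.con κ hκ

theorem nc_right (B G m : ℝ) (hB : 0 ≤ B) (hG : 0 ≤ G) (hm : 0 < m) : ∃ δ0 : ℝ, 0 < δ0 ∧
    ∀ {Γ : Subgroup (ℝ ≃o ℝ)}, Gq Γ → ∀ {f k : ℝ ≃o ℝ} {a b x2 : ℝ}, f ∈ Γ → k ∈ Γ →
      Gap f a b → Nr f a b B δ0 → k b < b → x2 < b → a ≤ x2 → NB k x2 b G →
      k x2 ≤ k b - 6 * |f (k b) - k b| → a ≤ k x2 → m ≤ deriv (k : ℝ → ℝ) b → False := by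
  obtain ⟨δ0, h0, h1⟩ := nc_left B G m hB hG hm
  refine ⟨δ0, h0, ?_⟩
  intro Γ h f k a b x2 hf hk hgap hnr h2 h3 h4 h5 h6 h7 h8
  refine h1 (gq_rf h) (f := rf f) (k := rf k) (a := -b) (b := -a) (x2 := -x2)
    (Subgroup.mem_map.2 ⟨f, hf, rfl⟩) (Subgroup.mem_map.2 ⟨k, hk, rfl⟩) hgap.rf hnr.rf
    ?_ ?_ ?_ h5.rf ?_ ?_ ?_
  · rw [rf_apply, neg_neg]; linarith
  · linarith
  · linarith
  · simp only [rf_apply, neg_neg]
    rw [show -f (k b) - -k b = -(f (k b) - k b) by ring, abs_neg]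
    linarith
  · rw [rf_apply, neg_neg]; linarith
  · rw [deriv_rf, neg_neg]; exact h8

end Pool.Agent.H24.GN
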