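import Mathlib
import Pool.Agent.H24.GN.NcR

/-!
# GN-5: two controlled images of a near-identity gap do not cross

PROOF of `no_cross`.  Suppose `w a < w' a < w b < w' b`.  `F = w * f ^ ε * w⁻¹`, `ε = 1` or `-1` with
`F (w' a) > w' a`; `c2 = F (w' a)`, `c = w'⁻¹ c2 ∈ (a, b)`, `k = w'⁻¹ * F * w'`, so `k a = c`.
`nc_left` for `f` on `(a, b)`, this `k` and `x2 = c`: `w' [a, c] = [w' a, c2] ⊆ (w a, w b)`,
`w⁻¹` of it is `[z, f^ε z] ⊆ (a, b)`, `f^ε` of it is `[f^ε z, f^(2ε) z]`, `w` of it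
`[c2, F c2] ⊆ (w a, w b)`, which is also in `(w' a, w' b)`, and `w'⁻¹` of it is in `(a, b)`: all five
maps are controlled (`NB.sub'`, `NB.inv`, `NB.mul`), so `NB k a c (G B)`, and
`k' a = w' a-derivative / w' c-derivative * F' (w' a) ≥ exp (-2 B - 1) =: m`.
`|f c - c| ≤ 2 δ (c - a)` (`step_le`), `k c - k a ≥ exp (-G) m (c - a)` (`DB.ge`), so the condition
`k a + 6 |f (k a) - k a| ≤ k c` holds for small `δ`; `k c ≤ b` as `F c2 < w b < w' b`.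
-/

set_option autoImplicit false
open Set Filter Topology MeasureTheory

namespace Pool.Agent.H24.GN

open Pool.Agent.H52.GS (TT BB)

theorem no_cross (B : ℝ) (hB : 0 ≤ B) : ∃ δ0 : ℝ, 0 < δ0 ∧
    ∀ {Γ : Subgroup (ℝ ≃o ℝ)}, Gq Γ → ∀ {f w w' : ℝ ≃o ℝ} {a b : ℝ}, f ∈ Γ → w ∈ Γ → w' ∈ Γ →
      Gap f a b → Nr f a b B δ0 → NB w a b B → NB w' a b B →
      ¬ (w a < w' a ∧ w' a < w b ∧ w b < w' b) := by
  sorry

end Pool.Agent.H24.GN
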