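import Mathlib
import Pool.Agent.H24.GN.NcR

/-!
# GN-6: two different controlled images of a near-identity gap have no common end

PROOF of `no_endL`.  Suppose `w a = w' a`, `w b < w' b`.  `F' = w' * f ^ ε * w'⁻¹` with
`F' (w b) < w b` (`w b` is in the gap `(w' a, w' b)` of `F'`).  `k = w⁻¹ * F' * w`, `k b ∈ (a, b)`
because `w a = w' a < F' (w b) < w b`.  `nc_right` for `f` on `(a, b)`, `k`, `x2 = k b`:
`w [k b, b] = [F' (w b), w b] ⊆ (w' a, w' b)`, then `w'⁻¹`, `f^ε`, `w'` gives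
`[F'^2 (w b), F' (w b)]`, inside `(w' a, w b) = (w a, w b)`, then `w⁻¹`.  Bounds as in `no_cross`
(file Cross): `NB k (k b) b (G B)`, `k' b ≥ exp (-2 B - 1)`,
`|f (k b) - k b| ≤ 2 δ (b - k b)` (`step_le`, second part).
`no_endR`: the mirror image (use `rf`, or repeat): `w b = w' b`, `w a < w' a`: now `(w' a, w' b)` is
the smaller one; `F = w * f ^ ε * w⁻¹` with `F (w' a) > w' a`, `k = w'⁻¹ * F * w'`, `nc_left`.
-/

set_option autoImplicit false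
open Set Filter Topology MeasureTheory

namespace Pool.Agent.H24.GN

open Pool.Agent.H52.GS (TT BB)

theorem no_endL (B : ℝ) (hB : 0 ≤ B) : ∃ δ0 : ℝ, 0 < δ0 ∧
    ∀ {Γ : Subgroup (ℝ ≃o ℝ)}, Gq Γ → ∀ {f w w' : ℝ ≃o ℝ} {a b : ℝ}, f ∈ Γ → w ∈ Γ → w' ∈ Γ →
      Gap f a b → Nr f a b B δ0 → NB w a b B → NB w' a b B → ¬ (w a = w' a ∧ w b < w' b) := by
  sorry

theorem no_endR (B : ℝ) (hB : 0 ≤ B) : ∃ δ0 : ℝ, 0 < δ0 ∧
    ∀ {Γ : Subgroup (ℝ ≃o ℝ)}, Gq Γ → ∀ {f w w' : ℝ ≃o ℝ} {a b : ℝ}, f ∈ Γ → w ∈ Γ → w' ∈ Γ →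
      Gap f a b → Nr f a b B δ0 → NB w a b B → NB w' a b B → ¬ (w b = w' b ∧ w a < w' a) := by
  sorry

end Pool.Agent.H24.GN
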