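import Mathlib
import Pool.Agent.H24.GN.Cross
import Pool.Agent.H24.GN.Ends

/-!
# GN-7: controlled images of a near-identity gap are equal, disjoint or strongly nested

PROOF.  `δ0` is the minimum of the constants of `no_cross` (for `B` and for the bound `B2` below),
`no_endL`, `no_endR` for `B`, and a small number.  If the images `[w a, w b]`, `[w' a, w' b]` are
neither equal nor disjoint, then by `no_cross`, `no_endL`, `no_endR` (both orders) one is strictly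
inside the other, say `w' a < w a`, `w b < w' b`.  `F = w' * f * w'⁻¹` (or with `f⁻¹`) moves the
points of `(w' a, w' b)` to the right.  `v = F * w`: `NB v a b B2` (`w` on `[a,b]`, `w'⁻¹` on
`[w a, w b] ⊆ [w' a, w' b]`, `f`, `w'`; `NB.inv`, `NB.sub'`, `NB.mul`).  `w a < v a`, `w b < v b`; if
`v a < w b` then `w` and `v` contradict `no_cross` for `B2`.  So `w b ≤ F (w a)`, and
`F (w a) - w a ≤ exp B ((w' b - w' a)/(b - a)) |f ξ - ξ|` with `ξ = w'⁻¹ (w a)` (`DB.ratio_le`) and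
`|f ξ - ξ| ≤ 2 δ (b - a)` (`step_le`): ratio `≤ 2 δ exp B ≤ ε`.
-/

set_option autoImplicit false
open Set Filter Topology MeasureTheory

namespace Pool.Agent.H24.GN

open Pool.Agent.H52.GS (TT BB)

/-- the four possible positions of the images of `[a, b]` under `w` and `w'` -/
def Pos4 (w w' : ℝ ≃o ℝ) (a b ε : ℝ) : Prop :=
  (w a = w' a ∧ w b = w' b) ∨ (w b ≤ w' a ∨ w' b ≤ w a) ∨
    (w' a < w a ∧ w b < w' b ∧ w b - w a ≤ ε * (w' b - w' a)) ∨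
    (w a < w' a ∧ w' b < w b ∧ w' b - w' a ≤ ε * (w b - w a))

/-- bound for `w' * g * w'⁻¹ * w` -/
noncomputable def lamB (B : ℝ) : ℝ :=
  (B + Real.exp B * (Real.exp B * B)) + Real.exp (B + B) * (Real.exp B * B) +
    Real.exp (B + B + B) * B

theorem lamB_ge {B : ℝ} (hB : 0 ≤ B) : B ≤ lamB B := by
  unfold lamB
  have h1 : 0 ≤ Real.exp B * (Real.exp B * B) := by positivity
  have h2 : 0 ≤ Real.exp (B + B) * (Real.exp B * B) := by positivity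
  have h3 : 0 ≤ Real.exp (B + B + B) * B := by positivity
  linarith

/-- sign of the displacement in a gap -/
theorem lam_sign {f : ℝ ≃o ℝ} {a b : ℝ} (h : Gap f a b) :
    (∀ x : ℝ, a < x → x < b → x < f x) ∨
      (∀ x : ℝ, a < x → x < b → x < (f⁻¹ : ℝ ≃o ℝ) x) := by
  by_contra hc
  push Not at hc
  obtain ⟨⟨x, hx, hx', hfx⟩, ⟨y, hy, hy', hfy⟩⟩ := hc
  have hfy' : y ≤ f y := by
    have h1 := f.monotone hfy
    have h2 : f ((f⁻¹ : ℝ ≃o ℝ) y) = y := RelIso.apply_inv_self f y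
    rw [h2] at h1
    exact h1
  have h1 := isPreconnected_Ioo.intermediate_value₂ (s := Ioo a b) ⟨hx, hx'⟩ ⟨hy, hy'⟩
    f.continuous.continuousOn continuousOn_id (f := (f : ℝ → ℝ)) (g := id) hfx hfy'
  obtain ⟨z, hz, hz'⟩ := h1
  exact h.ne z hz.1 hz.2 hz'

/-- the nested position, for an element `g` moving the points of its gap to the right -/
theorem lam_nest_aux {B ε δ δ1 : ℝ} (hB : 0 ≤ B) (hδ1 : δ ≤ 1)
    (hδε : 2 * δ * Real.exp B ≤ ε) (hle : δ ≤ δ1)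
    (hcr : ∀ {Γ : Subgroup (ℝ ≃o ℝ)}, Gq Γ → ∀ {f w w' : ℝ ≃o ℝ} {a b : ℝ}, f ∈ Γ → w ∈ Γ →
      w' ∈ Γ → Gap f a b → Nr f a b (lamB B) δ1 → NB w a b (lamB B) → NB w' a b (lamB B) →
      ¬ (w a < w' a ∧ w' a < w b ∧ w b < w' b))
    {Γ : Subgroup (ℝ ≃o ℝ)} (hΓ : Gq Γ) {f g w w' : ℝ ≃o ℝ} {a b : ℝ} (hf : f ∈ Γ)
    (hg : g ∈ Γ) (hw : w ∈ Γ) (hw' : w' ∈ Γ) (hgap : Gap f a b) (hnr : Nr f a b B δ)
    (ga : g a = a) (gb : g b = b) (hmv : ∀ x : ℝ, a < x → x < b → x < g x)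
    (hgn : NB g a b (Real.exp B * B)) (hgd : DB g a b B) (hgs : ∀ x ∈ Icc a b, |ld g x| ≤ δ)
    (hn : NB w a b B) (hn' : NB w' a b B) (h1 : w' a < w a) (h2 : w b < w' b) :
    w b - w a ≤ ε * (w' b - w' a) := by
  have hab := hgap.lt
  have rw1 := hΓ.rg w hw
  have rw2 := hΓ.rg w' hw'
  have rg1 := hΓ.rg g hg
  have hwab : w a < w b := w.strictMono hab
  have hwab' : w' a < w' b := w'.strictMono hab
  have hap : ∀ x : ℝ, w' ((w'⁻¹ : ℝ ≃o ℝ) x) = x := fun x => RelIso.apply_inv_self w' x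
  obtain ⟨ξ, hξ⟩ : ∃ ξ, ξ = (w'⁻¹ : ℝ ≃o ℝ) (w a) := ⟨_, rfl⟩
  obtain ⟨η, hη⟩ : ∃ η, η = (w'⁻¹ : ℝ ≃o ℝ) (w b) := ⟨_, rfl⟩
  have hξw : w' ξ = w a := by rw [hξ, hap]
  have hηw : w' η = w b := by rw [hη, hap]
  have a1 : a < ξ := by
    rw [← w'.lt_iff_lt, hξw]
    exact h1
  have a2 : ξ < η := by
    rw [← w'.lt_iff_lt, hξw, hηw]
    exact hwab
  have a3 : η < b := by
    rw [← w'.lt_iff_lt, hηw]
    exact h2
  have b1 : a < g ξ := by
    have := g.strictMono a1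
    rwa [ga] at this
  have b2 : g ξ < g η := g.strictMono a2
  have b3 : g η < b := by
    have := g.strictMono a3
    rwa [gb] at this
  -- the map `v`
  obtain ⟨v, hv⟩ : ∃ v : ℝ ≃o ℝ, v = w' * (g * (w'⁻¹ * w)) := ⟨_, rfl⟩
  have va : v a = w' (g ξ) := by
    rw [hv, hξ]
    rfl
  have vb : v b = w' (g η) := by
    rw [hv, hη]
    rfl
  have hvΓ : v ∈ Γ := by
    rw [hv]
    exact Γ.mul_mem hw' (Γ.mul_mem hg (Γ.mul_mem (Γ.inv_mem hw') hw))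
  have hd := hn.db hab
  have hd' := hn'.db hab
  -- bounds of `v`
  have hnv : NB v a b (lamB B) := by
    have i1 : NB w'⁻¹ (w a) (w b) (Real.exp B * B) :=
      (NB.inv rw2 hab hn' hd').sub' h1.le hwab h2.le
    have i2 : DB w'⁻¹ (w a) (w b) B := (DB.inv rw2 hd').sub h1.le h2.le
    have r1 : Rg (w'⁻¹ * w) := rg_mul (rg_inv rw2) rw1
    have j1 : NB (w'⁻¹ * w) a b (B + Real.exp B * (Real.exp B * B)) :=
      NB.mul (rg_inv rw2) rw1 hab hn hd i1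
    have j2 : DB (w'⁻¹ * w) a b (B + B) := DB.mul (rg_inv rw2) rw1 hd i2
    have ea : (w'⁻¹ * w : ℝ ≃o ℝ) a = ξ := by
      rw [hξ]
      rfl
    have eb : (w'⁻¹ * w : ℝ ≃o ℝ) b = η := by
      rw [hη]
      rfl
    have k1 : NB g ((w'⁻¹ * w : ℝ ≃o ℝ) a) ((w'⁻¹ * w : ℝ ≃o ℝ) b) (Real.exp B * B) := by
      rw [ea, eb]
      exact hgn.sub' a1.le a2 a3.le
    have k2 : DB g ((w'⁻¹ * w : ℝ ≃o ℝ) a) ((w'⁻¹ * w : ℝ ≃o ℝ) b) B := by
      rw [ea, eb]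
      exact hgd.sub a1.le a3.le
    have r2 : Rg (g * (w'⁻¹ * w)) := rg_mul rg1 r1
    have l1 := NB.mul rg1 r1 hab j1 j2 k1
    have l2 := DB.mul rg1 r1 j2 k2
    have fa : (g * (w'⁻¹ * w) : ℝ ≃o ℝ) a = g ξ := by
      rw [hξ]
      rfl
    have fb : (g * (w'⁻¹ * w) : ℝ ≃o ℝ) b = g η := by
      rw [hη]
      rfl
    have m1 : NB w' ((g * (w'⁻¹ * w) : ℝ ≃o ℝ) a) ((g * (w'⁻¹ * w) : ℝ ≃o ℝ) b) B := by
      rw [fa, fb]
      exact hn'.sub' b1.le b2 b3.le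
    have n1 := NB.mul rw2 r2 hab l1 l2 m1
    rw [hv]
    exact n1
  have c1 : w a < v a := by
    rw [va, ← hξw]
    exact w'.strictMono (hmv ξ a1 (a2.trans a3))
  have c2 : w b < v b := by
    rw [vb, ← hηw]
    exact w'.strictMono (hmv η (a1.trans a2) a3)
  have c3 : w b ≤ v a := by
    by_contra hc
    push Not at hc
    exact hcr hΓ hf hw hvΓ hgap (hnr.mono (lamB_ge hB) hle) (hn.mono (lamB_ge hB)) hnv
      ⟨c1, hc, c2⟩
  have hξm : ξ ∈ Icc a b := ⟨a1.le, (a2.trans a3).le⟩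
  have d1 : (w' (g ξ) - w' ξ) * (b - a) ≤ Real.exp B * (w' b - w' a) * (g ξ - ξ) :=
    DB.ratio_le rw2 hd' hξm ⟨b1.le, (b2.trans b3).le⟩ (hmv ξ a1 (a2.trans a3)).le
  have d2 : |g ξ - ξ| ≤ 2 * δ * (ξ - a) := (step_le rg1 hδ1 hgs hξm).1 ga
  have hδ0 : 0 ≤ δ := (abs_nonneg _).trans (hgs a (left_mem_Icc.mpr hab.le))
  have d3 : g ξ - ξ ≤ 2 * δ * (b - a) := by
    have e1 : g ξ - ξ ≤ |g ξ - ξ| := le_abs_self _
    have e2 : 2 * δ * (ξ - a) ≤ 2 * δ * (b - a) :=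
      mul_le_mul_of_nonneg_left (by linarith [a2.trans a3]) (by linarith)
    linarith
  have d4 : (w b - w a) * (b - a) ≤ (ε * (w' b - w' a)) * (b - a) := by
    calc (w b - w a) * (b - a) ≤ (w' (g ξ) - w' ξ) * (b - a) := by
          refine mul_le_mul_of_nonneg_right ?_ (by linarith)
          rw [hξw, ← va]
          linarith
      _ ≤ Real.exp B * (w' b - w' a) * (g ξ - ξ) := d1
      _ ≤ Real.exp B * (w' b - w' a) * (2 * δ * (b - a)) := by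
          refine mul_le_mul_of_nonneg_left d3 ?_
          exact mul_nonneg (Real.exp_pos _).le (by linarith)
      _ = (2 * δ * Real.exp B) * ((w' b - w' a) * (b - a)) := by ring
      _ ≤ ε * ((w' b - w' a) * (b - a)) := by
          refine mul_le_mul_of_nonneg_right hδε ?_
          exact mul_nonneg (by linarith) (by linarith)
      _ = (ε * (w' b - w' a)) * (b - a) := by ring
  exact le_of_mul_le_mul_right d4 (by linarith)

/-- the nested position -/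
theorem lam_nest {B ε δ δ1 : ℝ} (hB : 0 ≤ B) (hδ1 : δ ≤ 1)
    (hδε : 2 * δ * Real.exp B ≤ ε) (hle : δ ≤ δ1)
    (hcr : ∀ {Γ : Subgroup (ℝ ≃o ℝ)}, Gq Γ → ∀ {f w w' : ℝ ≃o ℝ} {a b : ℝ}, f ∈ Γ → w ∈ Γ →
      w' ∈ Γ → Gap f a b → Nr f a b (lamB B) δ1 → NB w a b (lamB B) → NB w' a b (lamB B) →
      ¬ (w a < w' a ∧ w' a < w b ∧ w b < w' b))
    {Γ : Subgroup (ℝ ≃o ℝ)} (hΓ : Gq Γ) {f w w' : ℝ ≃o ℝ} {a b : ℝ} (hf : f ∈ Γ)
    (hw : w ∈ Γ) (hw' : w' ∈ Γ) (hgap : Gap f a b) (hnr : Nr f a b B δ)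
    (hn : NB w a b B) (hn' : NB w' a b B) (h1 : w' a < w a) (h2 : w b < w' b) :
    w b - w a ≤ ε * (w' b - w' a) := by
  have hab := hgap.lt
  have rf1 := hΓ.rg f hf
  have hdf := hnr.nb.db hab
  rcases lam_sign hgap with hs | hs
  · have hB1 : B ≤ Real.exp B * B := by
      calc B = 1 * B := (one_mul B).symm
        _ ≤ Real.exp B * B := mul_le_mul_of_nonneg_right (Real.one_le_exp hB) hB
    exact lam_nest_aux hB hδ1 hδε hle hcr hΓ hf hf hw hw' hgap hnr hgap.fa hgap.fb hs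
      (hnr.nb.mono hB1) hdf hnr.sm hn hn' h1 h2
  · have hinv := Nr.inv rf1 hab hgap.fa hgap.fb hnr
    have hdi := DB.inv rf1 hdf
    rw [hgap.fa, hgap.fb] at hdi
    have ia : (f⁻¹ : ℝ ≃o ℝ) a = a := by
      have h3 : (f⁻¹ : ℝ ≃o ℝ) (f a) = a := RelIso.inv_apply_self f a
      rwa [hgap.fa] at h3
    have ib : (f⁻¹ : ℝ ≃o ℝ) b = b := by
      have h3 : (f⁻¹ : ℝ ≃o ℝ) (f b) = b := RelIso.inv_apply_self f b
      rwa [hgap.fb] at h3
    exact lam_nest_aux hB hδ1 hδε hle hcr hΓ hf (Γ.inv_mem hf) hw hw' hgap hnr ia ib hs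
      hinv.nb hdi hinv.sm hn hn' h1 h2

theorem lam (B ε : ℝ) (hB : 0 ≤ B) (hε : 0 < ε) : ∃ δ0 : ℝ, 0 < δ0 ∧
    ∀ {Γ : Subgroup (ℝ ≃o ℝ)}, Gq Γ → ∀ {f w w' : ℝ ≃o ℝ} {a b : ℝ}, f ∈ Γ → w ∈ Γ → w' ∈ Γ →
      Gap f a b → Nr f a b B δ0 → NB w a b B → NB w' a b B → Pos4 w w' a b ε := by
  obtain ⟨d1, hd1, H1⟩ := no_cross B hB
  obtain ⟨d2, hd2, H2⟩ := no_cross (lamB B) (hB.trans (lamB_ge hB))
  obtain ⟨d3, hd3, H3⟩ := no_endL B hB
  obtain ⟨d4, hd4, H4⟩ := no_endR B hB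
  have he : 0 < ε / (2 * Real.exp B) := by positivity
  refine ⟨min (min d1 d2) (min (min d3 d4) (min 1 (ε / (2 * Real.exp B)))), ?_, ?_⟩
  · exact lt_min (lt_min hd1 hd2) (lt_min (lt_min hd3 hd4) (lt_min one_pos he))
  intro Γ hΓ f w w' a b hf hw hw' hgap hnr hn hn'
  obtain ⟨δ, hδ⟩ : ∃ δ, δ = min (min d1 d2) (min (min d3 d4) (min 1 (ε / (2 * Real.exp B)))) :=
    ⟨_, rfl⟩
  rw [← hδ] at hnr
  have l1 : δ ≤ d1 := by rw [hδ]; exact (min_le_left _ _).trans (min_le_left _ _)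
  have l2 : δ ≤ d2 := by rw [hδ]; exact (min_le_left _ _).trans (min_le_right _ _)
  have l3 : δ ≤ d3 := by
    rw [hδ]; exact (min_le_right _ _).trans ((min_le_left _ _).trans (min_le_left _ _))
  have l4 : δ ≤ d4 := by
    rw [hδ]; exact (min_le_right _ _).trans ((min_le_left _ _).trans (min_le_right _ _))
  have l5 : δ ≤ 1 := by
    rw [hδ]; exact (min_le_right _ _).trans ((min_le_right _ _).trans (min_le_left _ _))
  have l6 : δ ≤ ε / (2 * Real.exp B) := by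
    rw [hδ]; exact (min_le_right _ _).trans ((min_le_right _ _).trans (min_le_right _ _))
  have l7 : 2 * δ * Real.exp B ≤ ε := by
    rw [le_div_iff₀ (by positivity)] at l6
    linarith
  have hnest : ∀ {w w' : ℝ ≃o ℝ}, w ∈ Γ → w' ∈ Γ → NB w a b B → NB w' a b B →
      w' a < w a → w b < w' b → w b - w a ≤ ε * (w' b - w' a) := by
    intro w w' hw hw' hn hn' h1 h2
    exact lam_nest hB l5 l7 l2 H2 hΓ hf hw hw' hgap hnr hn hn' h1 h2
  have hcross : ∀ {w w' : ℝ ≃o ℝ}, w ∈ Γ → w' ∈ Γ → NB w a b B → NB w' a b B →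
      ¬ (w a < w' a ∧ w' a < w b ∧ w b < w' b) := by
    intro w w' hw hw' hn hn'
    exact H1 hΓ hf hw hw' hgap (hnr.mono le_rfl l1) hn hn'
  have hendL : ∀ {w w' : ℝ ≃o ℝ}, w ∈ Γ → w' ∈ Γ → NB w a b B → NB w' a b B →
      ¬ (w a = w' a ∧ w b < w' b) := by
    intro w w' hw hw' hn hn'
    exact H3 hΓ hf hw hw' hgap (hnr.mono le_rfl l3) hn hn'
  have hendR : ∀ {w w' : ℝ ≃o ℝ}, w ∈ Γ → w' ∈ Γ → NB w a b B → NB w' a b B →
      ¬ (w b = w' b ∧ w a < w' a) := by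
    intro w w' hw hw' hn hn'
    exact H4 hΓ hf hw hw' hgap (hnr.mono le_rfl l4) hn hn'
  rcases lt_trichotomy (w a) (w' a) with h1 | h1 | h1
  · rcases le_or_gt (w b) (w' a) with h2 | h2
    · exact Or.inr (Or.inl (Or.inl h2))
    · rcases lt_trichotomy (w b) (w' b) with h3 | h3 | h3
      · exact (hcross hw hw' hn hn' ⟨h1, h2, h3⟩).elim
      · exact (hendR hw hw' hn hn' ⟨h3, h1⟩).elim
      · exact Or.inr (Or.inr (Or.inr ⟨h1, h3, hnest hw' hw hn' hn h1 h3⟩))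
  · rcases lt_trichotomy (w b) (w' b) with h3 | h3 | h3
    · exact (hendL hw hw' hn hn' ⟨h1, h3⟩).elim
    · exact Or.inl ⟨h1, h3⟩
    · exact (hendL hw' hw hn' hn ⟨h1.symm, h3⟩).elim
  · rcases le_or_gt (w' b) (w a) with h2 | h2
    · exact Or.inr (Or.inl (Or.inr h2))
    · rcases lt_trichotomy (w b) (w' b) with h3 | h3 | h3
      · exact Or.inr (Or.inr (Or.inl ⟨h1, h3, hnest hw hw' hn hn' h1 h3⟩))
      · exact (hendR hw' hw hn' hn ⟨h3.symm, h1⟩).elim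
      · exact (hcross hw' hw hn' hn ⟨h1, h2, h3⟩).elim

end Pool.Agent.H24.GN
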