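import Mathlib
import Pool.Agent.H24.GN.Lam
import Pool.Agent.H24.GN.Fd
import Pool.Agent.H24.GN.Expd

/-!
# GN-12: the context of the main step, and parents

PROOF of `parent`.  The members of `V = {w : w ∈ Γ, NB w a b A}` whose image of `[a, b]` strictly
contains `[w0 a, w0 b]` are pairwise equal or nested with ratio `≤ ε ≤ 1/2` (`c.lam`: they are not
disjoint).  Let `ℓ` be the infimum of their lengths, `ℓ ≥ w0 b - w0 a > 0`, and `P` one with length
`< 2 ℓ`.  Any other one `w'` is equal, contains `P`, or is contained in `P` with length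
`≤ ε * length P < ℓ`, impossible.
-/

set_option autoImplicit false
open Set Filter Topology MeasureTheory

namespace Pool.Agent.H24.GN

open Pool.Agent.H52.GS (TT BB)

/-- the context of the main step: a near-identity element `f` with gap `(a, b)` -/
structure Ctx (Γ : Subgroup (ℝ ≃o ℝ)) (f : ℝ ≃o ℝ) (a b B A K CS δ : ℝ) : Prop where
  h : Gq Γ
  hf : f ∈ Γ
  g : GapR f a b
  n : Nr f a b B δ
  B0 : 0 ≤ B
  S0 : 0 ≤ CS
  δ0 : 0 ≤ δ
  K1 : CS * (4 * Real.pi) + 3 * CB B + 1 ≤ K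
  A1 : A = 2 * K * Real.exp K
  δ1 : δ * (CB B * (CS + 1) * Real.exp (20 * (A + 1))) ≤ 1
  lam : ∀ w ∈ Γ, ∀ w' ∈ Γ, NB w a b A → NB w' a b A →
    Pos4 w w' a b (Real.exp (-(20 * (A + 1))))

/-- numerical consequences -/
theorem Ctx.num {Γ : Subgroup (ℝ ≃o ℝ)} {f : ℝ ≃o ℝ} {a b B A K CS δ : ℝ}
    (c : Ctx Γ f a b B A K CS δ) : 1 ≤ K ∧ 3 * CB B ≤ K ∧ Real.exp K ≤ A ∧ 2 * K ≤ A ∧ 1 ≤ A ∧
      1 ≤ CB B ∧ B ≤ CB B ∧ CB B ≤ A ∧ δ ≤ Real.exp (-(20 * (A + 1))) ∧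
      δ * CB B ≤ Real.exp (-(20 * (A + 1))) ∧ δ * CB B * CS ≤ Real.exp (-(20 * (A + 1))) ∧
      K * Real.exp K + 3 * CB B * Real.exp K + Real.exp K ≤ A ∧ δ ≤ 1 / 100 := by
  have hB := c.B0
  have hS := c.S0
  have hd := c.δ0
  have hK := c.K1
  have hA := c.A1
  have h1 := c.δ1
  have hCB : 20 * (B + 1) + 1 ≤ CB B := by
    unfold CB; exact Real.add_one_le_exp _
  generalize CB B = q at hCB hK h1 ⊢
  have hpi : 0 ≤ CS * (4 * Real.pi) := by have := Real.pi_pos; positivity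
  have hq : 21 ≤ q := by linarith
  have hK1 : 1 ≤ K := by linarith
  have h3 : 3 * q ≤ K := by linarith
  have heK : K + 1 ≤ Real.exp K := Real.add_one_le_exp _
  have heK0 : 0 < Real.exp K := Real.exp_pos _
  have a1 : Real.exp K ≤ A := by rw [hA]; nlinarith
  have a2 : 2 * K ≤ A := by rw [hA]; nlinarith
  have hA1 : 1 ≤ A := by linarith
  have hE : 20 * (A + 1) + 1 ≤ Real.exp (20 * (A + 1)) := Real.add_one_le_exp _
  have hEi : Real.exp (-(20 * (A + 1))) = (Real.exp (20 * (A + 1)))⁻¹ := Real.exp_neg _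
  have hEp : 0 < Real.exp (20 * (A + 1)) := Real.exp_pos _
  rw [hEi]
  generalize Real.exp (20 * (A + 1)) = E at hE h1 hEp ⊢
  have key : ∀ t : ℝ, 0 ≤ t → t ≤ q * (CS + 1) → δ * t ≤ E⁻¹ := by
    intro t ht htt
    rw [← one_div, le_div_iff₀ hEp]
    have : δ * t * E ≤ δ * (q * (CS + 1) * E) := by
      have : t * E ≤ q * (CS + 1) * E := mul_le_mul_of_nonneg_right htt hEp.le
      calc δ * t * E = δ * (t * E) := by ring
        _ ≤ δ * (q * (CS + 1) * E) := mul_le_mul_of_nonneg_left this hd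
    linarith
  have k1 : δ ≤ E⁻¹ := by
    have := key 1 zero_le_one (by nlinarith)
    simpa using this
  have k2 : δ * q ≤ E⁻¹ := key q (by linarith) (by nlinarith)
  have k3 : δ * q * CS ≤ E⁻¹ := by
    rw [mul_assoc]
    exact key (q * CS) (by positivity) (by nlinarith)
  have k4 : K * Real.exp K + 3 * q * Real.exp K + Real.exp K ≤ A := by
    rw [hA]
    nlinarith [mul_nonneg (by linarith : (0 : ℝ) ≤ K - 3 * q - 1) heK0.le]
  have k5 : δ ≤ 1 / 100 := by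
    refine k1.trans ?_
    rw [← one_div]
    apply one_div_le_one_div_of_le (by norm_num)
    linarith
  exact ⟨hK1, h3, a1, a2, hA1, by linarith, by linarith, by linarith, k1, k2, k3, k4, k5⟩

/-- `w` is a maximal controlled image -/
def Mx (Γ : Subgroup (ℝ ≃o ℝ)) (a b A : ℝ) (w : ℝ ≃o ℝ) : Prop :=
  ∀ w' ∈ Γ, NB w' a b A → ¬ (w' a < w a ∧ w b < w' b)

/-- `P` is the smallest controlled image which strictly contains the image of `w` -/
structure Par (Γ : Subgroup (ℝ ≃o ℝ)) (a b A : ℝ) (P w : ℝ ≃o ℝ) : Prop where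
  mem : P ∈ Γ
  nb : NB P a b A
  lt1 : P a < w a
  lt2 : w b < P b
  min : ∀ w' ∈ Γ, NB w' a b A → w' a < w a → w b < w' b → w' a ≤ P a ∧ P b ≤ w' b

theorem parent {Γ : Subgroup (ℝ ≃o ℝ)} {f : ℝ ≃o ℝ} {a b B A K CS δ : ℝ}
    (c : Ctx Γ f a b B A K CS δ) {w : ℝ ≃o ℝ} (hw : w ∈ Γ) (hn : NB w a b A)
    (hx : ¬ Mx Γ a b A w) : ∃ P, Par Γ a b A P w := by
  obtain ⟨_, _, _, _, hA1, _⟩ := c.num
  have hab := c.g.lt
  have hwab : w a < w b := w.strictMono hab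
  have hε : Real.exp (-(20 * (A + 1))) ≤ 1 / 2 := by
    rw [Real.exp_neg, ← one_div]
    apply one_div_le_one_div_of_le (by norm_num)
    have : 20 * (A + 1) + 1 ≤ Real.exp (20 * (A + 1)) := Real.add_one_le_exp _
    linarith
  set V : Set (ℝ ≃o ℝ) := {w' | w' ∈ Γ ∧ NB w' a b A ∧ w' a < w a ∧ w b < w' b} with hV
  have hne : V.Nonempty := by
    unfold Mx at hx
    push Not at hx
    obtain ⟨w', h1, h2, h3, h4⟩ := hx
    exact ⟨w', h1, h2, h3, h4⟩
  set L : Set ℝ := (fun w' : ℝ ≃o ℝ => w' b - w' a) '' V with hL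
  have hLne : L.Nonempty := hne.image _
  have hlow : ∀ y ∈ L, w b - w a ≤ y := by
    rintro _ ⟨w', ⟨_, _, h3, h4⟩, rfl⟩
    simp only
    linarith
  have hbdd : BddBelow L := ⟨_, hlow⟩
  have hl : w b - w a ≤ sInf L := le_csInf hLne hlow
  have hpos : 0 < sInf L := by linarith
  obtain ⟨_, ⟨P, ⟨p1, p2, p3, p4⟩, rfl⟩, hP⟩ :=
    exists_lt_of_csInf_lt hLne (show sInf L < 2 * sInf L by linarith)
  simp only at hP
  refine ⟨P, p1, p2, p3, p4, ?_⟩
  intro w' q1 q2 q3 q4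
  rcases c.lam P p1 w' q1 p2 q2 with ⟨h1, h2⟩ | h | h | h
  · exact ⟨h1.ge, h2.le⟩
  · exfalso
    rcases h with h | h <;> linarith
  · exact ⟨h.1.le, h.2.1.le⟩
  · exfalso
    have hm : sInf L ≤ w' b - w' a := csInf_le hbdd ⟨w', ⟨q1, q2, q3, q4⟩, rfl⟩
    have hPp : 0 ≤ P b - P a := by
      have := P.strictMono hab
      linarith
    have := mul_le_mul_of_nonneg_right hε hPp
    linarith [h.2.2]

end Pool.Agent.H24.GN
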