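import Mathlib
import Pool.Agent.H24.GN.Ctx

/-!
# GN-13: the position of a controlled image in its parent

`ρ = P⁻¹ * w`, `ε = exp (-20 (A+1))`, `σ = exp (-10 (A+1))`.
PROOF.  `GC w a b K` gives `NB w a b (K exp K)` (`≤ A`) and `DB w a b K`.  By `c.lam` for `w, P`:
`w b - w a ≤ ε (P b - P a)` (the other positions contradict `Par`).  `NB P⁻¹ (P a) (P b) (exp A * A)`
(`NB.inv`), so on `[w a, w b]` it is `≤ exp A * A * ε` (`NB.sub`).  `rho_len`: `DB.ratio_le` for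
`P⁻¹`: `(ρ b - ρ a)/(b - a) ≤ exp A ε`.  `rho_db`, `rho_nb`: `DB.mul`, `NB.mul`.
`rho_off`: `f * ρ` has `NB _ a b A` (`NB f (ρ a) (ρ b) (B * exp A ε)`); by `c.lam` for `ρ` and
`f * ρ`: they are not equal (`ρ a < f (ρ a)`), not nested (both ends move to the right), so disjoint,
and `f (ρ b) ≤ ρ a` is impossible.
`rho_pow`: `fd_nb` with `p = (f^k0) (ρ a)`, `q = (f^k0) (ρ b)`, `j = -k0`: `NB (f^k) (ρ a) (ρ b)
(CB B * r)` with `r ≤ 2` (`nrm_len`); `NB.mul`: `K exp K + σ + exp (K + σ) * 2 * CB B ≤ A - 1/2`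
(`Ctx.num`).
-/

set_option autoImplicit false
open Set Filter Topology MeasureTheory

namespace Pool.Agent.H24.GN

open Pool.Agent.H52.GS (TT BB)

section
variable {Γ : Subgroup (ℝ ≃o ℝ)} {f : ℝ ≃o ℝ} {a b B A K CS δ : ℝ}

theorem rho_rg (c : Ctx Γ f a b B A K CS δ) {w : ℝ ≃o ℝ} (hw : w ∈ Γ) : Rg w := c.h.rg w hw

theorem rho_pinv (P : ℝ ≃o ℝ) (x : ℝ) : (P⁻¹ : ℝ ≃o ℝ) (P x) = x := RelIso.inv_apply_self P x

/-- numerical facts about `σ = exp (-10 (A+1))` -/
theorem rho_sig {A : ℝ} (hA : 1 ≤ A) : 0 < Real.exp (-(10 * (A + 1))) ∧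
    Real.exp (-(10 * (A + 1))) ≤ 1 / 21 := by
  refine ⟨Real.exp_pos _, ?_⟩
  have h1 : 10 * (A + 1) + 1 ≤ Real.exp (10 * (A + 1)) := Real.add_one_le_exp _
  have h2 : Real.exp (-(10 * (A + 1))) * Real.exp (10 * (A + 1)) = 1 := by
    rw [← Real.exp_add]; simp
  have h3 := Real.exp_pos (-(10 * (A + 1)))
  nlinarith

theorem rho_exp_small {x : ℝ} (hx : x ≤ 1 / 21) : Real.exp x ≤ 3 / 2 := by
  have h1 : -x + 1 ≤ Real.exp (-x) := Real.add_one_le_exp _
  have h2 : Real.exp (-x) * Real.exp x = 1 := by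
    rw [← Real.exp_add]; simp
  have h3 := Real.exp_pos x
  nlinarith

/-- the control of `P⁻¹` on the image of `w` -/
theorem rho_pnb (c : Ctx Γ f a b B A K CS δ) {w P : ℝ ≃o ℝ}
    (hP : Par Γ a b A P w) (heps : w b - w a ≤ Real.exp (-(20 * (A + 1))) * (P b - P a)) :
    NB P⁻¹ (w a) (w b) (Real.exp A * A * Real.exp (-(20 * (A + 1)))) := by
  have hab := c.g.lt
  have hA : 1 ≤ A := c.num.2.2.2.2.1
  have hPr : Rg P := rho_rg c hP.mem
  have h1 : NB P⁻¹ (P a) (P b) (Real.exp A * A) := hP.nb.inv hPr hab (hP.nb.db hab)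
  have hwab : w a < w b := w.strictMono hab
  have h2 := h1.sub hP.lt1.le hwab hP.lt2.le
  have hPab : 0 < P b - P a := by
    have := P.strictMono hab
    linarith
  refine h2.mono ?_
  have h3 : (w b - w a) / (P b - P a) ≤ Real.exp (-(20 * (A + 1))) := by
    rw [div_le_iff₀ hPab]
    exact heps
  have h4 : 0 ≤ Real.exp A * A := mul_nonneg (Real.exp_pos _).le (by linarith)
  exact mul_le_mul_of_nonneg_left h3 h4

theorem rho_num {A K : ℝ} (hA : 1 ≤ A) (hK : Real.exp K ≤ A) :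
    Real.exp A * A * Real.exp (-(20 * (A + 1))) ≤ Real.exp (-(10 * (A + 1))) ∧
    Real.exp K * (Real.exp A * A * Real.exp (-(20 * (A + 1)))) ≤ Real.exp (-(10 * (A + 1))) := by
  have h1 : A ≤ Real.exp A := by
    have := Real.add_one_le_exp A
    linarith
  have hp1 := Real.exp_pos A
  have hp2 := Real.exp_pos (-(20 * (A + 1)))
  have hp3 := Real.exp_pos K
  have h2 : Real.exp A * A * Real.exp (-(20 * (A + 1))) ≤
      Real.exp A * Real.exp A * Real.exp (-(20 * (A + 1))) := by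
    apply mul_le_mul_of_nonneg_right _ hp2.le
    exact mul_le_mul_of_nonneg_left h1 hp1.le
  have h3 : Real.exp A * Real.exp A * Real.exp (-(20 * (A + 1))) =
      Real.exp (A + A + -(20 * (A + 1))) := by
    rw [Real.exp_add, Real.exp_add]
  have h4 : Real.exp K ≤ Real.exp A := hK.trans h1
  constructor
  · rw [h3] at h2
    refine h2.trans (Real.exp_le_exp.mpr ?_)
    linarith
  · have h5 : Real.exp K * (Real.exp A * A * Real.exp (-(20 * (A + 1)))) ≤
        Real.exp A * (Real.exp A * Real.exp A * Real.exp (-(20 * (A + 1)))) := by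
      apply mul_le_mul h4 h2 _ hp1.le
      have : 0 ≤ A := by linarith
      positivity
    have h6 : Real.exp A * (Real.exp A * Real.exp A * Real.exp (-(20 * (A + 1)))) =
        Real.exp (A + (A + A + -(20 * (A + 1)))) := by
      rw [h3, ← Real.exp_add]
    rw [h6] at h5
    refine h5.trans (Real.exp_le_exp.mpr ?_)
    linarith

theorem rho_mem (c : Ctx Γ f a b B A K CS δ) {w P : ℝ ≃o ℝ} (hw : w ∈ Γ)
    (hP : Par Γ a b A P w) : P⁻¹ * w ∈ Γ ∧ a < (P⁻¹ * w) a ∧ (P⁻¹ * w) a < (P⁻¹ * w) b ∧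
      (P⁻¹ * w) b < b := by
  refine ⟨Γ.mul_mem (Γ.inv_mem hP.mem) hw, ?_, (P⁻¹ * w).strictMono c.g.lt, ?_⟩
  · have h1 := (P⁻¹ : ℝ ≃o ℝ).strictMono hP.lt1
    rw [rho_pinv] at h1
    exact h1
  · have h1 := (P⁻¹ : ℝ ≃o ℝ).strictMono hP.lt2
    rw [rho_pinv] at h1
    exact h1

/-- the size of the image in its parent -/
theorem rho_eps (c : Ctx Γ f a b B A K CS δ) {w P : ℝ ≃o ℝ} (hw : w ∈ Γ) (hG : GC w a b K)
    (hP : Par Γ a b A P w) : w b - w a ≤ Real.exp (-(20 * (A + 1))) * (P b - P a) := by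
  have hab := c.g.lt
  obtain ⟨hK1, -, -, -, hA, -⟩ := c.num
  have hKe : 0 ≤ K * Real.exp K := mul_nonneg (by linarith) (Real.exp_pos _).le
  have hwn : NB w a b A := hG.1.mono (by rw [c.A1]; linarith)
  have hwab : w a < w b := w.strictMono hab
  have h1 := hP.lt1
  have h2 := hP.lt2
  rcases c.lam w hw P hP.mem hwn hP.nb with h | h | h | h
  · linarith [h.1]
  · rcases h with h | h
    · linarith
    · linarith
  · exact h.2.2
  · linarith [h.1]

theorem rho_len (c : Ctx Γ f a b B A K CS δ) {w P : ℝ ≃o ℝ} (hw : w ∈ Γ) (hG : GC w a b K)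
    (hP : Par Γ a b A P w) :
    (P⁻¹ * w) b - (P⁻¹ * w) a ≤ Real.exp (-(10 * (A + 1))) * (b - a) := by
  have hab := c.g.lt
  have hA : 1 ≤ A := c.num.2.2.2.2.1
  have heps := rho_eps c hw hG hP
  have hPr : Rg P := rho_rg c hP.mem
  have hdb : DB P⁻¹ (P a) (P b) A := (hP.nb.db hab).inv hPr
  have hwab : w a < w b := w.strictMono hab
  have hPab : 0 < P b - P a := by
    have := P.strictMono hab
    linarith
  have h1 := hdb.ratio_le (rg_inv hPr) (y := w a) (z := w b)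
    ⟨hP.lt1.le, hwab.le.trans hP.lt2.le⟩ ⟨hP.lt1.le.trans hwab.le, hP.lt2.le⟩ hwab.le
  rw [rho_pinv, rho_pinv] at h1
  have h2 : (P⁻¹ * w) b - (P⁻¹ * w) a = (P⁻¹ : ℝ ≃o ℝ) (w b) - (P⁻¹ : ℝ ≃o ℝ) (w a) := rfl
  rw [h2]
  have hE := Real.exp_pos A
  have h3 : Real.exp A * (b - a) * (w b - w a) ≤
      Real.exp A * (b - a) * (Real.exp (-(20 * (A + 1))) * (P b - P a)) :=
    mul_le_mul_of_nonneg_left heps (mul_nonneg hE.le (by linarith))
  have h4 : Real.exp A * Real.exp (-(20 * (A + 1))) ≤ Real.exp (-(10 * (A + 1))) := by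
    rw [← Real.exp_add]
    apply Real.exp_le_exp.mpr
    linarith
  have h5 : Real.exp A * (b - a) * (Real.exp (-(20 * (A + 1))) * (P b - P a)) ≤
      Real.exp (-(10 * (A + 1))) * (b - a) * (P b - P a) := by
    have h6 : 0 ≤ (b - a) * (P b - P a) := mul_nonneg (by linarith) hPab.le
    calc Real.exp A * (b - a) * (Real.exp (-(20 * (A + 1))) * (P b - P a))
        = (Real.exp A * Real.exp (-(20 * (A + 1)))) * ((b - a) * (P b - P a)) := by ring
      _ ≤ Real.exp (-(10 * (A + 1))) * ((b - a) * (P b - P a)) :=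
          mul_le_mul_of_nonneg_right h4 h6
      _ = Real.exp (-(10 * (A + 1))) * (b - a) * (P b - P a) := by ring
  exact le_of_mul_le_mul_right ((h1.trans h3).trans h5) hPab

theorem rho_db (c : Ctx Γ f a b B A K CS δ) {w P : ℝ ≃o ℝ} (hw : w ∈ Γ) (hG : GC w a b K)
    (hP : Par Γ a b A P w) : DB (P⁻¹ * w) a b (K + Real.exp (-(10 * (A + 1)))) := by
  obtain ⟨hK1, -, hKA, -, hA, -⟩ := c.num
  have hwab : w a < w b := w.strictMono c.g.lt
  have h1 := rho_pnb c hP (rho_eps c hw hG hP)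
  have h2 : DB P⁻¹ (w a) (w b) (Real.exp (-(10 * (A + 1)))) :=
    (h1.db hwab).mono (rho_num hA hKA).1
  exact hG.2.mul (rg_inv (rho_rg c hP.mem)) (rho_rg c hw) h2

theorem rho_nb (c : Ctx Γ f a b B A K CS δ) {w P : ℝ ≃o ℝ} (hw : w ∈ Γ) (hG : GC w a b K)
    (hP : Par Γ a b A P w) :
    NB (P⁻¹ * w) a b (K * Real.exp K + Real.exp (-(10 * (A + 1)))) := by
  obtain ⟨hK1, -, hKA, -, hA, -⟩ := c.num
  have h1 := rho_pnb c hP (rho_eps c hw hG hP)
  refine (NB.mul (rg_inv (rho_rg c hP.mem)) (rho_rg c hw) c.g.lt hG.1 hG.2 h1).mono ?_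
  linarith [(rho_num hA hKA).2]

theorem rho_off (c : Ctx Γ f a b B A K CS δ) {w P : ℝ ≃o ℝ} (hw : w ∈ Γ) (hG : GC w a b K)
    (hP : Par Γ a b A P w) : (P⁻¹ * w) b ≤ f ((P⁻¹ * w) a) := by
  have hab := c.g.lt
  obtain ⟨hK1, -, hKA, -, hA, hCB1, hBC, hCA, -, -, -, -, -⟩ := c.num
  obtain ⟨hm, hm1, hm2, hm3⟩ := rho_mem c hw hP
  have hlen := rho_len c hw hG hP
  have hdb := rho_db c hw hG hP
  have hnb := rho_nb c hw hG hP
  obtain ⟨hs0, hs1⟩ := rho_sig hA
  have hρr : Rg (P⁻¹ * w) := rho_rg c hm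
  have hfr : Rg f := rho_rg c c.hf
  have hB0 := c.B0
  have hKe : 2 ≤ K * Real.exp K := by
    have h1 := Real.add_one_le_exp K
    nlinarith
  have hA1 : A = 2 * (K * Real.exp K) := by rw [c.A1]; ring
  have hρA : NB (P⁻¹ * w) a b A := hnb.mono (by linarith)
  have hfn : NB f ((P⁻¹ * w) a) ((P⁻¹ * w) b) (B * Real.exp (-(10 * (A + 1)))) := by
    refine (c.n.nb.sub hm1.le hm2 hm3.le).mono ?_
    apply mul_le_mul_of_nonneg_left _ hB0
    rw [div_le_iff₀ (by linarith)]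
    exact hlen
  have hfρ : NB (f * (P⁻¹ * w)) a b A := by
    refine (NB.mul hfr hρr hab hnb hdb hfn).mono ?_
    have h1 : Real.exp (K + Real.exp (-(10 * (A + 1)))) ≤ 3 / 2 * A := by
      rw [Real.exp_add]
      have h2 := rho_exp_small hs1
      have h3 := Real.exp_pos K
      have h4 := Real.exp_pos (Real.exp (-(10 * (A + 1))))
      nlinarith
    have h2 : B * Real.exp (-(10 * (A + 1))) ≤ A * Real.exp (-(10 * (A + 1))) :=
      mul_le_mul_of_nonneg_right (hBC.trans hCA) hs0.le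
    have h3 : Real.exp (K + Real.exp (-(10 * (A + 1)))) * (B * Real.exp (-(10 * (A + 1)))) ≤
        3 / 2 * A * (A * Real.exp (-(10 * (A + 1)))) :=
      mul_le_mul h1 h2 (mul_nonneg hB0 hs0.le) (by linarith)
    have h4 : A * (A * Real.exp (-(10 * (A + 1)))) ≤ 1 / 2 := by
      have h5 : A ≤ Real.exp A := by
        have := Real.add_one_le_exp A
        linarith
      have h6 : A * (A * Real.exp (-(10 * (A + 1)))) ≤
          Real.exp A * (Real.exp A * Real.exp (-(10 * (A + 1)))) := by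
        apply mul_le_mul h5 _ _ (Real.exp_pos _).le
        · exact mul_le_mul_of_nonneg_right h5 hs0.le
        · have : 0 ≤ A := by linarith
          positivity
      have h7 : Real.exp A * (Real.exp A * Real.exp (-(10 * (A + 1)))) = Real.exp (-(8 * A + 10)) := by
        rw [← Real.exp_add, ← Real.exp_add]
        congr 1
        ring
      rw [h7] at h6
      have h8 : Real.exp (-(8 * A + 10)) * Real.exp (8 * A + 10) = 1 := by
        rw [← Real.exp_add]; simp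
      have h9 := Real.add_one_le_exp (8 * A + 10)
      have h10 := Real.exp_pos (-(8 * A + 10))
      nlinarith
    linarith
  have hz1 := c.g.mv _ hm1 (hm2.trans hm3)
  have hz2 := c.g.mv _ (hm1.trans hm2) hm3
  have he1 : (f * (P⁻¹ * w)) a = f ((P⁻¹ * w) a) := rfl
  have he2 : (f * (P⁻¹ * w)) b = f ((P⁻¹ * w) b) := rfl
  rcases c.lam _ hm _ (Γ.mul_mem c.hf hm) hρA hfρ with h | h | h | h
  · rw [he1] at h
    linarith [h.1]
  · rcases h with h | h
    · rw [he1] at h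
      exact h
    · rw [he2] at h
      linarith
  · rw [he1] at h
    linarith [h.1]
  · rw [he2] at h
    linarith [h.2.1]

theorem rho_pow (c : Ctx Γ f a b B A K CS δ) {w P : ℝ ≃o ℝ} (hw : w ∈ Γ) (hG : GC w a b K)
    (hP : Par Γ a b A P w) {z : ℝ} (hz : z ∈ Ioo a b) {k0 : ℤ}
    (hN : Nrm f z ((f ^ k0) ((P⁻¹ * w) a)) ((f ^ k0) ((P⁻¹ * w) b))) (k : ℤ) :
    NB (f ^ k * (P⁻¹ * w)) a b (A - 1 / 2) := by
  have hab := c.g.lt
  obtain ⟨hK1, -, hKA, -, hA, hCB1, hBC, hCA, -, -, -, hsum, hδ⟩ := c.num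
  obtain ⟨hm, hm1, hm2, hm3⟩ := rho_mem c hw hP
  have hdb := rho_db c hw hG hP
  have hnb := rho_nb c hw hG hP
  obtain ⟨hs0, hs1⟩ := rho_sig hA
  have hρr : Rg (P⁻¹ * w) := rho_rg c hm
  have hfr : Rg f := rho_rg c c.hf
  have h1 := fd_nb hfr c.B0 (hδ.trans (by norm_num)) c.g c.n hz hN (-k0) k
  obtain ⟨hr0, hr2, -, -⟩ := nrm_len hfr hδ c.g c.n hz hN
  have he : ∀ x : ℝ, (f ^ (-k0)) ((f ^ k0) x) = x := fun x => by
    rw [← fdx_add, neg_add_cancel, zpow_zero]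
    rfl
  rw [he, he] at h1
  have h2 : NB (f ^ k) ((P⁻¹ * w) a) ((P⁻¹ * w) b) (2 * CB B) := by
    refine h1.mono ?_
    nlinarith
  refine (NB.mul (rg_zpow hfr k) hρr hab hnb hdb h2).mono ?_
  have h3 : Real.exp (K + Real.exp (-(10 * (A + 1)))) ≤ 3 / 2 * Real.exp K := by
    rw [Real.exp_add]
    have h4 := rho_exp_small hs1
    have h5 := Real.exp_pos K
    nlinarith
  have h6 : Real.exp (K + Real.exp (-(10 * (A + 1)))) * (2 * CB B) ≤
      3 / 2 * Real.exp K * (2 * CB B) :=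
    mul_le_mul_of_nonneg_right h3 (by linarith)
  have h7 := Real.add_one_le_exp K
  linarith

end

end Pool.Agent.H24.GN
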