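import Mathlib
import Pool.Agent.H24.GN.Rho

/-!
# GN-15: the cost of a jump and of a step at an image which is not maximal

PROOF.  `ρi = Pi⁻¹ * wi`, `r = (q - p)/(f z - z)`, `p, q` the ends of the common normal position.
`h = P2 * (f^(-k2) * f^k1) * P1⁻¹` sends `w1 a, w1 b` to `w2 a, w2 b`.
`fd_len` (`j = -k1`, `j = -k2`): `ρi b - ρi a ≤ CB B δ r (b - a)`.
(1) `NB P1⁻¹ (w1 a) (w1 b) τ`, `τ = exp A * A * (w1 b - w1 a)/(P1 b - P1 a)` and
`(w1 b - w1 a)/(P1 b - P1 a) ≤ exp A (ρ1 b - ρ1 a)/(b - a)` (`DB.ratio_le` for `P1` on `[a,b]`), so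
`τ ≤ A exp (2A) CB B δ r`.
(2) `NB (f^(k1-k2)) (ρ1 a) (ρ1 b) (CB B * r)` (`fd_nb`, `j = -k1`).
(3) `NB P2 (ρ2 a) (ρ2 b) (A CB B δ r)` (`NB.sub`).
`NB.mul` twice: total `τ + exp τ * CB B * r + exp (τ + CB B r) * A CB B δ r ≤ (CB B + 1/6) r`:
`r ≤ 2`, `CB B ≤ K/3`, so `exp (2 CB B) ≤ exp K ≤ A`; `δ CB B ≤ exp (-20 (A+1))` (`Ctx.num`).
`step_cost`: `CS (w b - w a) ≤ CS exp A (P b - P a) (ρ b - ρ a)/(b - a) ≤ CS exp A 2 pi CB B δ r`
(`gap_len` for `P`).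
-/

set_option autoImplicit false
open Set Filter Topology MeasureTheory

namespace Pool.Agent.H24.GN

open Pool.Agent.H52.GS (TT BB)

theorem cst_exp {x : ℝ} (hx : 36 ≤ x) : Real.exp (-x) ≤ 1 / 600 := by
  have h1 := Real.quadratic_le_exp_of_nonneg (by linarith : 0 ≤ x)
  have h2 : 600 ≤ Real.exp x := by nlinarith
  rw [Real.exp_neg, inv_eq_one_div]
  exact one_div_le_one_div_of_le (by norm_num) h2

/-- `A ^ 2 exp (2 A) D ≤ 1/600` -/
theorem cst_M {A D : ℝ} (hA : 1 ≤ A) (hD0 : 0 ≤ D) (hD : D ≤ Real.exp (-(20 * (A + 1)))) :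
    A * A * Real.exp (2 * A) * D ≤ 1 / 600 := by
  have h1 : A ≤ Real.exp A := by linarith [Real.add_one_le_exp A]
  have h2 : A * A ≤ Real.exp A * Real.exp A :=
    mul_le_mul h1 h1 (by linarith) (Real.exp_pos _).le
  have h3 : A * A * Real.exp (2 * A) ≤ Real.exp A * Real.exp A * Real.exp (2 * A) :=
    mul_le_mul_of_nonneg_right h2 (Real.exp_pos _).le
  have h4 : A * A * Real.exp (2 * A) * D ≤
      Real.exp A * Real.exp A * Real.exp (2 * A) * Real.exp (-(20 * (A + 1))) :=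
    mul_le_mul h3 hD hD0 (by positivity)
  have h5 : Real.exp A * Real.exp A * Real.exp (2 * A) * Real.exp (-(20 * (A + 1))) =
      Real.exp (-(16 * A + 20)) := by
    rw [← Real.exp_add, ← Real.exp_add, ← Real.exp_add]
    congr 1
    ring
  rw [h5] at h4
  exact h4.trans (cst_exp (by linarith))

/-- the final numerical inequality -/
theorem cst_num {A C K D r τ : ℝ} (hA : 1 ≤ A) (hC0 : 0 ≤ C) (hCA : C ≤ A) (hCK : 3 * C ≤ K)
    (hK : Real.exp K ≤ A) (hD0 : 0 ≤ D) (hD : D ≤ Real.exp (-(20 * (A + 1)))) (hr0 : 0 ≤ r)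
    (hr : r ≤ 2) (hτ : τ = A * Real.exp (2 * A) * D * r) :
    τ + Real.exp τ * (C * r) + Real.exp (τ + C * r) * (A * (D * r)) ≤ (C + 1 / 6) * r := by
  have hM := cst_M hA hD0 hD
  have hE : 1 ≤ Real.exp (2 * A) := Real.one_le_exp (by linarith)
  have hA0 : 0 ≤ A := by linarith
  -- `N = A exp (2 A) D`
  have hN0 : 0 ≤ A * Real.exp (2 * A) * D := by positivity
  have hAN : A * (A * Real.exp (2 * A) * D) ≤ 1 / 600 := by
    calc A * (A * Real.exp (2 * A) * D) = A * A * Real.exp (2 * A) * D := by ring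
      _ ≤ 1 / 600 := hM
  have hN : A * Real.exp (2 * A) * D ≤ 1 / 600 := by
    refine le_trans ?_ hAN
    nlinarith
  set N := A * Real.exp (2 * A) * D with hNd
  have hτ0 : 0 ≤ τ := by rw [hτ]; exact mul_nonneg hN0 hr0
  have hτ1 : τ ≤ 1 / 300 := by
    rw [hτ]
    calc N * r ≤ (1 / 600) * 2 := mul_le_mul hN hr hr0 (by norm_num)
      _ = 1 / 300 := by norm_num
  have h1 : Real.exp τ ≤ 1 + 2 * τ := by
    have h2 := Real.abs_exp_sub_one_le (x := τ) (by rw [abs_of_nonneg hτ0]; linarith)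
    rw [abs_of_nonneg hτ0] at h2
    linarith [(abs_le.mp h2).2]
  have h3 : Real.exp (τ + C * r) ≤ 3 * A := by
    have h4 : τ + C * r ≤ 1 + K := by nlinarith
    have h5 : Real.exp (τ + C * r) ≤ Real.exp (1 + K) := Real.exp_le_exp.mpr h4
    rw [Real.exp_add 1 K] at h5
    have h6 : Real.exp 1 ≤ 3 := by linarith [Real.exp_one_lt_d9]
    exact h5.trans (mul_le_mul h6 hK (Real.exp_pos _).le (by norm_num))
  have hCr : 0 ≤ C * r := mul_nonneg hC0 hr0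
  have h7 : Real.exp τ * (C * r) ≤ C * r + (1 / 150) * r := by
    calc Real.exp τ * (C * r) ≤ (1 + 2 * τ) * (C * r) := mul_le_mul_of_nonneg_right h1 hCr
      _ = C * r + 2 * (C * N) * r * r := by rw [hτ]; ring
      _ ≤ C * r + 2 * (A * N) * r * 2 := by
          have h8 : C * N ≤ A * N := mul_le_mul_of_nonneg_right hCA hN0
          have h9 : 2 * (C * N) * r ≤ 2 * (A * N) * r :=
            mul_le_mul_of_nonneg_right (by linarith) hr0
          have h10 : 0 ≤ 2 * (A * N) * r := by positivity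
          have h11 := mul_le_mul h9 hr hr0 h10
          linarith
      _ ≤ C * r + 2 * (1 / 600) * r * 2 := by
          have h8 : 2 * (A * N) * r * 2 ≤ 2 * (1 / 600) * r * 2 := by
            have h9 := mul_le_mul_of_nonneg_right hAN hr0
            linarith
          linarith
      _ = C * r + (1 / 150) * r := by ring
  have h12 : A * D ≤ N := by
    rw [hNd]
    have h13 : A * 1 ≤ A * Real.exp (2 * A) := mul_le_mul_of_nonneg_left hE hA0
    have h14 := mul_le_mul_of_nonneg_right h13 hD0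
    linarith
  have h15 : Real.exp (τ + C * r) * (A * (D * r)) ≤ (1 / 200) * r := by
    have h16 : 0 ≤ A * (D * r) := by positivity
    calc Real.exp (τ + C * r) * (A * (D * r)) ≤ 3 * A * (A * (D * r)) :=
          mul_le_mul_of_nonneg_right h3 h16
      _ = 3 * (A * (A * D)) * r := by ring
      _ ≤ 3 * (1 / 600) * r := by
          refine mul_le_mul_of_nonneg_right ?_ hr0
          have h17 : A * (A * D) ≤ A * N := mul_le_mul_of_nonneg_left h12 hA0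
          linarith
      _ = (1 / 200) * r := by ring
  have h18 : τ ≤ (1 / 600) * r := by
    rw [hτ]
    exact mul_le_mul_of_nonneg_right hN hr0
  nlinarith

/-- an image of `[a, b]` inside its parent -/
theorem cst_img {Γ : Subgroup (ℝ ≃o ℝ)} {f : ℝ ≃o ℝ} {a b B A K CS δ : ℝ}
    (c : Ctx Γ f a b B A K CS δ) {z : ℝ} (hz : z ∈ Ioo a b) {w P : ℝ ≃o ℝ} {k : ℤ}
    {p q : ℝ} (hN : Nrm f z p q) (hP : Par Γ a b A P w)
    (hp : (f ^ k) ((P⁻¹ * w) a) = p) (hq : (f ^ k) ((P⁻¹ * w) b) = q) :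
    (f ^ (-k)) p = (P⁻¹ * w) a ∧ (f ^ (-k)) q = (P⁻¹ * w) b ∧
    (P⁻¹ * w) b - (P⁻¹ * w) a ≤ CB B * δ * ((q - p) / (f z - z)) * (b - a) ∧
    w b - w a ≤ Real.exp A * (CB B * δ * ((q - p) / (f z - z))) * (P b - P a) := by
  have hab : a < b := c.g.lt
  obtain ⟨hK1, hCK, hKA, h2K, hA1, hC1, hBC, hCA, hδe, hDe, hDS, hbig, hδ100⟩ := c.num
  have e1 : (f ^ (-k)) p = (P⁻¹ * w) a := by
    rw [← hp, ← fdx_add, neg_add_cancel, zpow_zero]
    rfl
  have e2 : (f ^ (-k)) q = (P⁻¹ * w) b := by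
    rw [← hq, ← fdx_add, neg_add_cancel, zpow_zero]
    rfl
  have h1 := fd_len (c.h.rg f c.hf) c.B0 (by linarith : δ ≤ 1) c.g c.n hz hN (-k)
  rw [e1, e2] at h1
  refine ⟨e1, e2, h1, ?_⟩
  have hPr : Rg P := c.h.rg P hP.mem
  have hPd : DB P a b A := hP.nb.db hab
  have m1 : P ((P⁻¹ * w) a) = w a := RelIso.apply_inv_self P (w a)
  have m2 : P ((P⁻¹ * w) b) = w b := RelIso.apply_inv_self P (w b)
  have hwab : w a < w b := w.strictMono hab
  have l1 : a ≤ (P⁻¹ * w) a := by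
    rw [← P.le_iff_le, m1]
    exact hP.lt1.le
  have l2 : (P⁻¹ * w) b ≤ b := by
    rw [← P.le_iff_le, m2]
    exact hP.lt2.le
  have l3 : (P⁻¹ * w) a ≤ (P⁻¹ * w) b := (P⁻¹ * w).monotone hab.le
  have h2 := DB.ratio_le hPr hPd (y := (P⁻¹ * w) a) (z := (P⁻¹ * w) b)
    ⟨l1, l3.trans l2⟩ ⟨l1.trans l3, l2⟩ l3
  rw [m1, m2] at h2
  have hPab : 0 < P b - P a := by linarith [P.strictMono hab]
  have h0 : 0 < b - a := by linarith
  have h3 : (w b - w a) * (b - a) ≤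
      (Real.exp A * (CB B * δ * ((q - p) / (f z - z))) * (P b - P a)) * (b - a) := by
    calc (w b - w a) * (b - a) ≤ Real.exp A * (P b - P a) * ((P⁻¹ * w) b - (P⁻¹ * w) a) := h2
      _ ≤ Real.exp A * (P b - P a) * (CB B * δ * ((q - p) / (f z - z)) * (b - a)) :=
          mul_le_mul_of_nonneg_left h1 (mul_nonneg (Real.exp_pos _).le hPab.le)
      _ = _ := by ring
  exact le_of_mul_le_mul_right h3 h0

theorem jump_cost {Γ : Subgroup (ℝ ≃o ℝ)} {f : ℝ ≃o ℝ} {a b B A K CS δ : ℝ}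
    (c : Ctx Γ f a b B A K CS δ) {z : ℝ} (hz : z ∈ Ioo a b) {w1 P1 w2 P2 : ℝ ≃o ℝ} {k1 k2 : ℤ}
    {p q : ℝ} (hN : Nrm f z p q)
    (hw1 : w1 ∈ Γ) (hG1 : GC w1 a b K) (hP1 : Par Γ a b A P1 w1)
    (hp1 : (f ^ k1) ((P1⁻¹ * w1) a) = p) (hq1 : (f ^ k1) ((P1⁻¹ * w1) b) = q)
    (hw2 : w2 ∈ Γ) (hG2 : GC w2 a b K) (hP2 : Par Γ a b A P2 w2)
    (hp2 : (f ^ k2) ((P2⁻¹ * w2) a) = p) (hq2 : (f ^ k2) ((P2⁻¹ * w2) b) = q) :
    ∃ h ∈ Γ, h (w1 a) = w2 a ∧ h (w1 b) = w2 b ∧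
      NB h (w1 a) (w1 b) ((CB B + 1 / 6) * ((q - p) / (f z - z))) := by
  obtain ⟨hK1, hCK, hKA, h2K, hA1, hC1, hBC, hCA, hδe, hDe, hDS, hbig, hδ100⟩ := c.num
  have hab : a < b := c.g.lt
  have hfr : Rg f := c.h.rg f c.hf
  obtain ⟨hr0, hr2, -, -⟩ := nrm_len hfr hδ100 c.g c.n hz hN
  obtain ⟨e1, e2, h1, h2⟩ := cst_img c hz hN hP1 hp1 hq1
  obtain ⟨e3, e4, h3, h4⟩ := cst_img c hz hN hP2 hp2 hq2
  set r := (q - p) / (f z - z) with hr
  have hC0 : 0 ≤ CB B := by linarith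
  have hD0 : 0 ≤ δ * CB B := mul_nonneg c.δ0 hC0
  have hP1r : Rg P1 := c.h.rg P1 hP1.mem
  have hP2r : Rg P2 := c.h.rg P2 hP2.mem
  have hw1ab : w1 a < w1 b := w1.strictMono hab
  have hP1ab : 0 < P1 b - P1 a := by linarith [P1.strictMono hab]
  have h0 : 0 < b - a := by linarith
  have hA0 : 0 ≤ A := by linarith
  -- the first piece
  have n1 : NB P1⁻¹ (w1 a) (w1 b) (A * Real.exp (2 * A) * (δ * CB B) * r) := by
    have n2 := NB.inv hP1r hab hP1.nb (hP1.nb.db hab)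
    refine (n2.sub hP1.lt1.le hw1ab hP1.lt2.le).mono ?_
    have n3 : (w1 b - w1 a) / (P1 b - P1 a) ≤ Real.exp A * (CB B * δ * r) := by
      rw [div_le_iff₀ hP1ab]
      exact h2
    calc Real.exp A * A * ((w1 b - w1 a) / (P1 b - P1 a))
        ≤ Real.exp A * A * (Real.exp A * (CB B * δ * r)) :=
          mul_le_mul_of_nonneg_left n3 (mul_nonneg (Real.exp_pos _).le hA0)
      _ = A * Real.exp (2 * A) * (δ * CB B) * r := by
          have e : Real.exp (2 * A) = Real.exp A * Real.exp A := by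
            rw [← Real.exp_add]
            congr 1
            ring
          rw [e]
          ring
  have d1 := n1.db hw1ab
  -- the second piece
  have n4 : NB (f ^ (k1 - k2)) ((P1⁻¹ : ℝ ≃o ℝ) (w1 a)) ((P1⁻¹ : ℝ ≃o ℝ) (w1 b))
      (CB B * r) := by
    have n5 := fd_nb hfr c.B0 (by linarith : δ ≤ 1) c.g c.n hz hN (-k1) (k1 - k2)
    rw [e1, e2] at n5
    exact n5
  have hgab : (P1⁻¹ : ℝ ≃o ℝ) (w1 a) < (P1⁻¹ : ℝ ≃o ℝ) (w1 b) :=
    (P1⁻¹ : ℝ ≃o ℝ).strictMono hw1ab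
  have n6 := NB.mul (rg_zpow hfr (k1 - k2)) (rg_inv hP1r) hw1ab n1 d1 n4
  have d6 := DB.mul (rg_zpow hfr (k1 - k2)) (rg_inv hP1r) d1 (n4.db hgab)
  -- the ends
  have q1 : (f ^ (k1 - k2) * P1⁻¹) (w1 a) = (P2⁻¹ * w2) a := by
    have q2 : (f ^ (k1 - k2) * P1⁻¹) (w1 a) = (f ^ (-k2)) ((f ^ k1) ((P1⁻¹ * w1) a)) := by
      rw [← fdx_add]
      have : -k2 + k1 = k1 - k2 := by ring
      rw [this]
      rfl
    rw [q2, hp1, e3]
  have q3 : (f ^ (k1 - k2) * P1⁻¹) (w1 b) = (P2⁻¹ * w2) b := by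
    have q2 : (f ^ (k1 - k2) * P1⁻¹) (w1 b) = (f ^ (-k2)) ((f ^ k1) ((P1⁻¹ * w1) b)) := by
      rw [← fdx_add]
      have : -k2 + k1 = k1 - k2 := by ring
      rw [this]
      rfl
    rw [q2, hq1, e4]
  have m1 : P2 ((P2⁻¹ * w2) a) = w2 a := RelIso.apply_inv_self P2 (w2 a)
  have m2 : P2 ((P2⁻¹ * w2) b) = w2 b := RelIso.apply_inv_self P2 (w2 b)
  have l1 : a ≤ (P2⁻¹ * w2) a := by
    rw [← P2.le_iff_le, m1]
    exact hP2.lt1.le
  have l2 : (P2⁻¹ * w2) b ≤ b := by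
    rw [← P2.le_iff_le, m2]
    exact hP2.lt2.le
  have l3 : (P2⁻¹ * w2) a < (P2⁻¹ * w2) b := (P2⁻¹ * w2).strictMono hab
  -- the third piece
  have n7 : NB P2 ((f ^ (k1 - k2) * P1⁻¹) (w1 a)) ((f ^ (k1 - k2) * P1⁻¹) (w1 b))
      (A * (δ * CB B * r)) := by
    rw [q1, q3]
    refine (hP2.nb.sub l1 l3 l2).mono ?_
    refine mul_le_mul_of_nonneg_left ?_ hA0
    rw [div_le_iff₀ h0]
    calc (P2⁻¹ * w2) b - (P2⁻¹ * w2) a ≤ CB B * δ * r * (b - a) := h3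
      _ = δ * CB B * r * (b - a) := by ring
  have hGr : Rg (f ^ (k1 - k2) * P1⁻¹) := rg_mul (rg_zpow hfr _) (rg_inv hP1r)
  have n8 := NB.mul hP2r hGr hw1ab n6 d6 n7
  refine ⟨P2 * (f ^ (k1 - k2) * P1⁻¹),
    mul_mem hP2.mem (mul_mem (zpow_mem c.hf _) (inv_mem hP1.mem)), ?_, ?_, ?_⟩
  · have : (P2 * (f ^ (k1 - k2) * P1⁻¹)) (w1 a) = P2 ((f ^ (k1 - k2) * P1⁻¹) (w1 a)) := rfl
    rw [this, q1, m1]
  · have : (P2 * (f ^ (k1 - k2) * P1⁻¹)) (w1 b) = P2 ((f ^ (k1 - k2) * P1⁻¹) (w1 b)) := rfl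
    rw [this, q3, m2]
  · exact n8.mono (cst_num hA1 hC0 hCA hCK hKA hD0 hDe hr0.le hr2 rfl)

theorem step_cost {Γ : Subgroup (ℝ ≃o ℝ)} {f : ℝ ≃o ℝ} {a b B A K CS δ : ℝ}
    (c : Ctx Γ f a b B A K CS δ) {z : ℝ} (hz : z ∈ Ioo a b) {w P : ℝ ≃o ℝ} {k : ℤ}
    {p q : ℝ} (hN : Nrm f z p q)
    (hw : w ∈ Γ) (hG : GC w a b K) (hP : Par Γ a b A P w)
    (hp : (f ^ k) ((P⁻¹ * w) a) = p) (hq : (f ^ k) ((P⁻¹ * w) b) = q) {s : ℝ ≃o ℝ}
    (hs : ∀ x y : ℝ, |ld s x - ld s y| ≤ CS * |x - y|) :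
    NB s (w a) (w b) (1 / 6 * ((q - p) / (f z - z))) := by
  obtain ⟨hK1, hCK, hKA, h2K, hA1, hC1, hBC, hCA, hδe, hDe, hDS, hbig, hδ100⟩ := c.num
  have hab : a < b := c.g.lt
  have hfr : Rg f := c.h.rg f c.hf
  obtain ⟨hr0, hr2, -, -⟩ := nrm_len hfr hδ100 c.g c.n hz hN
  obtain ⟨e1, e2, h1, h2⟩ := cst_img c hz hN hP hp hq
  set r := (q - p) / (f z - z) with hr
  have hgap : Gap f a b := ⟨hab, c.g.fa, c.g.fb, fun x h1 h2 => (c.g.mv x h1 h2).ne'⟩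
  have h3 : P b - P a ≤ 2 * Real.pi := gap_len c.h c.hf hP.mem hgap
  have hpi : 2 * Real.pi ≤ 7 := by linarith [Real.pi_lt_d2]
  have hC0 : 0 ≤ CB B := by linarith
  have hD0 : 0 ≤ δ * CB B * CS := mul_nonneg (mul_nonneg c.δ0 hC0) c.S0
  have hwab : 0 < w b - w a := by linarith [w.strictMono hab]
  have h4 : Real.exp A * (δ * CB B * CS) ≤ 1 / 600 := by
    have h5 : Real.exp A * (δ * CB B * CS) ≤ Real.exp A * Real.exp (-(20 * (A + 1))) :=
      mul_le_mul_of_nonneg_left hDS (Real.exp_pos _).le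
    have h6 : Real.exp A * Real.exp (-(20 * (A + 1))) = Real.exp (-(19 * A + 20)) := by
      rw [← Real.exp_add]
      congr 1
      ring
    rw [h6] at h5
    exact h5.trans (cst_exp (by linarith))
  have h7 : CS * (w b - w a) ≤ 1 / 6 * r := by
    have hx : 0 ≤ Real.exp A * (CB B * δ * r) :=
      mul_nonneg (Real.exp_pos _).le (mul_nonneg (mul_nonneg hC0 c.δ0) hr0.le)
    calc CS * (w b - w a) ≤ CS * (Real.exp A * (CB B * δ * r) * (P b - P a)) :=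
          mul_le_mul_of_nonneg_left h2 c.S0
      _ ≤ CS * (Real.exp A * (CB B * δ * r) * 7) :=
          mul_le_mul_of_nonneg_left (mul_le_mul_of_nonneg_left (h3.trans hpi) hx) c.S0
      _ = 7 * (Real.exp A * (δ * CB B * CS)) * r := by ring
      _ ≤ 7 * (1 / 600) * r := by
          refine mul_le_mul_of_nonneg_right ?_ hr0.le
          linarith
      _ ≤ 1 / 6 * r := by
          refine mul_le_mul_of_nonneg_right ?_ hr0.le
          norm_num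
  intro x _ y _
  calc |ld s x - ld s y| * (w b - w a) ≤ CS * |x - y| * (w b - w a) :=
        mul_le_mul_of_nonneg_right (hs x y) hwab.le
    _ = CS * (w b - w a) * |x - y| := by ring
    _ ≤ 1 / 6 * r * |x - y| := mul_le_mul_of_nonneg_right h7 (abs_nonneg _)

end Pool.Agent.H24.GN
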