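import Mathlib
import Pool.Agent.H24.GN.Rho

/-!
# GN-14: normal positions of images in their parents are equal or disjoint

PROOF.  `σ1 = f^k1 * (P1⁻¹ * w1)`, `σ2 = f^k2 * (P2⁻¹ * w2)`; both have `NB _ a b (A - 1/2)`
(`rho_pow`), so `c.lam` gives their relative position.  Suppose `[σ1 a, σ1 b]` is strictly inside
`[σ2 a, σ2 b]` (the other case is symmetric).  `τ = f^(-k1) * σ2 = f^(k2 - k1) * (P2⁻¹ * w2)`:
`τ a < (P1⁻¹ * w1) a`, `(P1⁻¹ * w1) b < τ b`, `a < τ a`, `τ b < b`, `NB τ a b (A - 1/2)`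
(`rho_pow`), `τ b - τ a ≤ CB B δ r (b - a)`, `r ≤ 2` (`fd_len`, `j = -k1`, `nrm_len`).  Put
`w' = P1 * τ`: `NB w' a b A` because `NB P1 (τ a) (τ b) (A * 2 CB B δ)`, `DB τ a b A`, and
`exp A * A * 2 CB B δ ≤ 1/2` (`Ctx.num`).  `w' a < w1 a`, `w1 b < w' b`, so `w' a ≤ P1 a` by
`Par.min`, i.e. `τ a ≤ a`, a contradiction.
-/

set_option autoImplicit false
open Set Filter Topology MeasureTheory

namespace Pool.Agent.H24.GN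

open Pool.Agent.H52.GS (TT BB)

theorem dsjx_num {A x : ℝ} (hA : 1 ≤ A) (hx : x ≤ Real.exp (-(20 * (A + 1)))) :
    Real.exp (A - 1 / 2) * (A * (2 * x)) ≤ 1 / 2 := by
  have h1 : A ≤ Real.exp A := by linarith [Real.add_one_le_exp A]
  have h0 : 0 < Real.exp (A - 1 / 2) := Real.exp_pos _
  have h2 : A * (2 * x) ≤ Real.exp A * (2 * Real.exp (-(20 * (A + 1)))) := by
    have h3 : A * (2 * x) ≤ A * (2 * Real.exp (-(20 * (A + 1)))) :=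
      mul_le_mul_of_nonneg_left (by linarith) (by linarith)
    have h4 : A * (2 * Real.exp (-(20 * (A + 1)))) ≤
        Real.exp A * (2 * Real.exp (-(20 * (A + 1)))) :=
      mul_le_mul_of_nonneg_right h1 (by positivity)
    linarith
  have h5 := mul_le_mul_of_nonneg_left h2 h0.le
  refine h5.trans ?_
  have e : Real.exp (A - 1 / 2) * (Real.exp A * (2 * Real.exp (-(20 * (A + 1))))) =
      2 * Real.exp (-(20 + 1 / 2 + 18 * A)) := by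
    have e1 : -(20 + 1 / 2 + 18 * A) = (A - 1 / 2) + (A + -(20 * (A + 1))) := by ring
    rw [e1, Real.exp_add, Real.exp_add]
    ring
  rw [e]
  have h6 : Real.exp (-(20 + 1 / 2 + 18 * A)) ≤ Real.exp (-3) := Real.exp_le_exp.mpr (by linarith)
  have h7 : Real.exp (-3) ≤ 1 / 4 := by
    have h8 : (4 : ℝ) ≤ Real.exp 3 := by linarith [Real.add_one_le_exp (3 : ℝ)]
    rw [Real.exp_neg, inv_eq_one_div]
    exact one_div_le_one_div_of_le (by norm_num) h8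
  linarith

theorem dsjx_aux {Γ : Subgroup (ℝ ≃o ℝ)} {f : ℝ ≃o ℝ} {a b B A K CS δ : ℝ}
    (c : Ctx Γ f a b B A K CS δ) {z : ℝ} (hz : z ∈ Ioo a b) {w1 P1 w2 P2 : ℝ ≃o ℝ} {k1 k2 : ℤ}
    (hP1 : Par Γ a b A P1 w1)
    (hw2 : w2 ∈ Γ) (hG2 : GC w2 a b K) (hP2 : Par Γ a b A P2 w2)
    (hN2 : Nrm f z ((f ^ k2) ((P2⁻¹ * w2) a)) ((f ^ k2) ((P2⁻¹ * w2) b)))
    (h1 : (f ^ k2) ((P2⁻¹ * w2) a) < (f ^ k1) ((P1⁻¹ * w1) a))
    (h2 : (f ^ k1) ((P1⁻¹ * w1) b) < (f ^ k2) ((P2⁻¹ * w2) b)) : False := by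
  obtain ⟨n1, n2, n3, n4, n5, n6, n7, n8, n9, n10, n11, n12, n13⟩ := c.num
  obtain ⟨m1, m2, m3, m4⟩ := rho_mem c hw2 hP2
  have hab : a < b := c.g.lt
  have hfr : Rg f := c.h.rg f c.hf
  set ρ2 : ℝ ≃o ℝ := P2⁻¹ * w2 with hρ2
  obtain ⟨τ, hτ⟩ : ∃ τ : ℝ ≃o ℝ, τ = f ^ (k2 - k1) * ρ2 := ⟨_, rfl⟩
  have hτm : τ ∈ Γ := by
    rw [hτ]
    exact Γ.mul_mem (Γ.zpow_mem c.hf _) m1
  have hτr : Rg τ := c.h.rg τ hτm
  have hτN : NB τ a b (A - 1 / 2) := by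
    rw [hτ]
    exact rho_pow c hw2 hG2 hP2 hz hN2 (k2 - k1)
  have hτv : ∀ x : ℝ, τ x = (f ^ (-k1)) ((f ^ k2) (ρ2 x)) := by
    intro x
    rw [← fdx_add, hτ, show -k1 + k2 = k2 - k1 by ring]
    rfl
  have hinv : ∀ x : ℝ, (f ^ (-k1)) ((f ^ k1) x) = x := by
    intro x
    rw [← fdx_add]
    simp
  have hta : τ a < (P1⁻¹ * w1) a := by
    have := (f ^ (-k1)).strictMono h1
    rw [hinv, ← hτv] at this
    exact this
  have htb : (P1⁻¹ * w1) b < τ b := by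
    have := (f ^ (-k1)).strictMono h2
    rw [hinv, ← hτv] at this
    exact this
  have hma : τ a ∈ Ioo a b := by
    rw [hτ]
    exact fdx_mem c.g ⟨m2, m3.trans m4⟩ _
  have hmb : τ b ∈ Ioo a b := by
    rw [hτ]
    exact fdx_mem c.g ⟨m2.trans m3, m4⟩ _
  have hτab : τ a < τ b := τ.strictMono hab
  have hlen : τ b - τ a ≤ CB B * δ * 2 * (b - a) := by
    have l1 := fd_len hfr c.B0 (by linarith) c.g c.n hz hN2 (-k1)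
    rw [← hτv, ← hτv] at l1
    obtain ⟨r1, r2, r3, r4⟩ := nrm_len hfr n13 c.g c.n hz hN2
    have hCB : 0 ≤ CB B * δ := mul_nonneg (by linarith) c.δ0
    refine l1.trans (mul_le_mul_of_nonneg_right ?_ (by linarith))
    exact mul_le_mul_of_nonneg_left r2 hCB
  have hPr : Rg P1 := c.h.rg P1 hP1.mem
  have hPN : NB P1 (τ a) (τ b) (A * (2 * (δ * CB B))) := by
    refine (hP1.nb.sub hma.1.le hτab hmb.2.le).mono ?_
    refine mul_le_mul_of_nonneg_left ?_ (by linarith)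
    rw [div_le_iff₀ (by linarith)]
    refine hlen.trans_eq ?_
    ring
  have hw'N : NB (P1 * τ) a b A := by
    refine (NB.mul hPr hτr hab hτN (hτN.db hab) hPN).mono ?_
    have := dsjx_num (A := A) (x := δ * CB B) n5 n10
    linarith
  have hw'm : P1 * τ ∈ Γ := Γ.mul_mem hP1.mem hτm
  have hPP : ∀ x : ℝ, P1 ((P1⁻¹ * w1) x) = w1 x := by
    intro x
    exact RelIso.apply_inv_self P1 (w1 x)
  have e1 : (P1 * τ) a < w1 a := by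
    have := P1.strictMono hta
    rw [hPP] at this
    exact this
  have e2 : w1 b < (P1 * τ) b := by
    have := P1.strictMono htb
    rw [hPP] at this
    exact this
  have e3 := (hP1.min (P1 * τ) hw'm hw'N e1 e2).1
  have e4 : P1 (τ a) ≤ P1 a := e3
  rw [P1.le_iff_le] at e4
  exact absurd hma.1 (not_lt.mpr e4)

theorem dsj {Γ : Subgroup (ℝ ≃o ℝ)} {f : ℝ ≃o ℝ} {a b B A K CS δ : ℝ}
    (c : Ctx Γ f a b B A K CS δ) {z : ℝ} (hz : z ∈ Ioo a b) {w1 P1 w2 P2 : ℝ ≃o ℝ} {k1 k2 : ℤ}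
    (hw1 : w1 ∈ Γ) (hG1 : GC w1 a b K) (hP1 : Par Γ a b A P1 w1)
    (hN1 : Nrm f z ((f ^ k1) ((P1⁻¹ * w1) a)) ((f ^ k1) ((P1⁻¹ * w1) b)))
    (hw2 : w2 ∈ Γ) (hG2 : GC w2 a b K) (hP2 : Par Γ a b A P2 w2)
    (hN2 : Nrm f z ((f ^ k2) ((P2⁻¹ * w2) a)) ((f ^ k2) ((P2⁻¹ * w2) b))) :
    ((f ^ k1) ((P1⁻¹ * w1) a) = (f ^ k2) ((P2⁻¹ * w2) a) ∧
      (f ^ k1) ((P1⁻¹ * w1) b) = (f ^ k2) ((P2⁻¹ * w2) b)) ∨
    ((f ^ k1) ((P1⁻¹ * w1) b) ≤ (f ^ k2) ((P2⁻¹ * w2) a) ∨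
      (f ^ k2) ((P2⁻¹ * w2) b) ≤ (f ^ k1) ((P1⁻¹ * w1) a)) := by
  have g1 : f ^ k1 * (P1⁻¹ * w1) ∈ Γ := Γ.mul_mem (Γ.zpow_mem c.hf _) (rho_mem c hw1 hP1).1
  have g2 : f ^ k2 * (P2⁻¹ * w2) ∈ Γ := Γ.mul_mem (Γ.zpow_mem c.hf _) (rho_mem c hw2 hP2).1
  have b1 : NB (f ^ k1 * (P1⁻¹ * w1)) a b A :=
    (rho_pow c hw1 hG1 hP1 hz hN1 k1).mono (by linarith)
  have b2 : NB (f ^ k2 * (P2⁻¹ * w2)) a b A :=
    (rho_pow c hw2 hG2 hP2 hz hN2 k2).mono (by linarith)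
  rcases c.lam _ g1 _ g2 b1 b2 with h | h | h | h
  · exact Or.inl h
  · exact Or.inr h
  · exact (dsjx_aux (k1 := k1) (k2 := k2) c hz hP1 hw2 hG2 hP2 hN2 h.1 h.2.1).elim
  · exact (dsjx_aux (k1 := k2) (k2 := k1) c hz hP2 hw1 hG1 hP1 hN1 h.1 h.2.1).elim

/-- two maximal controlled images are equal or disjoint -/
theorem mx_dsj {Γ : Subgroup (ℝ ≃o ℝ)} {f : ℝ ≃o ℝ} {a b B A K CS δ : ℝ}
    (c : Ctx Γ f a b B A K CS δ) {w1 w2 : ℝ ≃o ℝ} (hw1 : w1 ∈ Γ) (hG1 : NB w1 a b A)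
    (hM1 : Mx Γ a b A w1) (hw2 : w2 ∈ Γ) (hG2 : NB w2 a b A) (hM2 : Mx Γ a b A w2) :
    (w1 a = w2 a ∧ w1 b = w2 b) ∨ (w1 b ≤ w2 a ∨ w2 b ≤ w1 a) := by
  rcases c.lam w1 hw1 w2 hw2 hG1 hG2 with h | h | h | h
  · exact Or.inl h
  · exact Or.inr h
  · exact absurd ⟨h.1, h.2.1⟩ (hM1 w2 hw2 hG2)
  · exact absurd ⟨h.1, h.2.1⟩ (hM2 w1 hw1 hG1)

theorem mxx_nb {Γ : Subgroup (ℝ ≃o ℝ)} (h : Gq Γ) {a b A : ℝ} {w : ℝ ≃o ℝ} (hw : w ∈ Γ)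
    (hG : NB w a b A) (k : ℤ) : NB (TT ^ k * w) a b A := by
  intro x hx y hy
  rw [ld_mul (calc_rg_TT k) (h.rg w hw), ld_mul (calc_rg_TT k) (h.rg w hw), ld_TT, ld_TT]
  have := hG x hx y hy
  simpa using this

/-- translates of maximal controlled images are maximal -/
theorem mx_TT {Γ : Subgroup (ℝ ≃o ℝ)} (h : Gq Γ) {a b A : ℝ} {w : ℝ ≃o ℝ} (hw : w ∈ Γ)
    (hG : NB w a b A) (hM : Mx Γ a b A w) (k : ℤ) :
    NB (TT ^ k * w) a b A ∧ Mx Γ a b A (TT ^ k * w) := by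
  refine ⟨mxx_nb h hw hG k, ?_⟩
  intro w' hw' hn' hc
  have hinv : ∀ x : ℝ, (TT ^ (-k) : ℝ ≃o ℝ) ((TT ^ k : ℝ ≃o ℝ) x) = x := by
    intro x
    rw [← fdx_add]
    simp
  refine hM (TT ^ (-k) * w') (Γ.mul_mem (Γ.zpow_mem h.T_mem _) hw') (mxx_nb h hw' hn' (-k))
    ⟨?_, ?_⟩
  · have := (TT ^ (-k) : ℝ ≃o ℝ).strictMono hc.1
    have e : (TT ^ (-k) : ℝ ≃o ℝ) ((TT ^ k * w) a) = w a := hinv (w a)
    rw [e] at this
    exact this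
  · have := (TT ^ (-k) : ℝ ≃o ℝ).strictMono hc.2
    have e : (TT ^ (-k) : ℝ ≃o ℝ) ((TT ^ k * w) b) = w b := hinv (w b)
    rw [e] at this
    exact this

end Pool.Agent.H24.GN
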