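import Mathlib
import Pool.Agent.H24.GN.Dsj

/-!
# GN-18: the total weight of the classes

PROOF.  `tot_mx`: `sum_len` in `[0, 4 pi]`: the lengths are `≤ 2 pi` (`gap_len`; `GapR` gives `Gap`),
different members are disjoint by `mx_dsj`.  `tot_nr`: `sum_len` in `[z, f (f z)]` (`nrm_len`),
different members are disjoint by `dsj`; divide by `f z - z > 0`; `f (f z) - z ≤ 3 (f z - z)`.
`mx_exists`: choose `k = -⌊w a / (2 pi)⌋`, `mx_TT`.  `nr_exists`: `parent`, `rho_mem`, `rho_off`,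
`nrm_exists`.
-/

set_option autoImplicit false
open Set Filter Topology MeasureTheory

namespace Pool.Agent.H24.GN

open Pool.Agent.H52.GS (TT BB)

/-- a maximal controlled image with left end in `[0, 2 pi)` -/
def MxI (Γ : Subgroup (ℝ ≃o ℝ)) (a b A : ℝ) (u : ℝ × ℝ) : Prop :=
  ∃ w ∈ Γ, NB w a b A ∧ Mx Γ a b A w ∧ w a = u.1 ∧ w b = u.2 ∧ 0 ≤ u.1 ∧ u.1 < 2 * Real.pi

/-- a normal position of a controlled image in its parent -/
def NrI (Γ : Subgroup (ℝ ≃o ℝ)) (f : ℝ ≃o ℝ) (a b A K z : ℝ) (u : ℝ × ℝ) : Prop :=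
  ∃ w ∈ Γ, ∃ P, ∃ k : ℤ, GC w a b K ∧ Par Γ a b A P w ∧ (f ^ k) ((P⁻¹ * w) a) = u.1 ∧
    (f ^ k) ((P⁻¹ * w) b) = u.2 ∧ Nrm f z u.1 u.2

section
variable {Γ : Subgroup (ℝ ≃o ℝ)} {f : ℝ ≃o ℝ} {a b B A K CS δ : ℝ}

theorem totx_nb (c : Ctx Γ f a b B A K CS δ) {w : ℝ ≃o ℝ} (hG : GC w a b K) :
    NB w a b A := by
  refine hG.1.mono ?_
  have hK := c.num.1
  rw [c.A1]
  have : 0 < K * Real.exp K := mul_pos (by linarith) (Real.exp_pos _)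
  linarith

theorem tot_mx (c : Ctx Γ f a b B A K CS δ) (F : Finset (ℝ × ℝ))
    (hF : ∀ u ∈ F, MxI Γ a b A u) : ∑ u ∈ F, (u.2 - u.1) ≤ 4 * Real.pi := by
  have hmain := sum_len F Prod.fst Prod.snd (u := 0) (v := 4 * Real.pi)
    (by have := Real.pi_pos; positivity) ?_ ?_
  · simpa using hmain
  · intro u hu
    obtain ⟨w, hw, -, -, h1, h2, h3, h4⟩ := hF u hu
    have hg : Gap f a b := ⟨c.g.lt, c.g.fa, c.g.fb, fun x hx hx' => (c.g.mv x hx hx').ne'⟩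
    have hlen := gap_len c.h c.hf hw hg
    have hlt := w.strictMono c.g.lt
    rw [h1, h2] at hlen hlt
    exact ⟨h3, hlt.le, by linarith⟩
  · intro u hu v hv huv
    obtain ⟨w, hw, hn, hm, h1, h2, -, -⟩ := hF u hu
    obtain ⟨w', hw', hn', hm', h1', h2', -, -⟩ := hF v hv
    rcases mx_dsj c hw hn hm hw' hn' hm' with h | h
    · rw [h1, h2, h1', h2'] at h
      exact absurd (Prod.ext h.1 h.2) huv
    · rw [h1, h2, h1', h2'] at h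
      exact h

theorem tot_nr (c : Ctx Γ f a b B A K CS δ) {z : ℝ} (hz : z ∈ Ioo a b) (F : Finset (ℝ × ℝ))
    (hF : ∀ u ∈ F, NrI Γ f a b A K z u) : ∑ u ∈ F, (u.2 - u.1) / (f z - z) ≤ 3 := by
  obtain ⟨-, -, -, -, -, -, -, -, -, -, -, -, hδ⟩ := c.num
  have hrf : Rg f := c.h.rg f c.hf
  have hzf : z < f z := c.g.mv z hz.1 hz.2
  have hd : 0 < f z - z := by linarith
  rcases F.eq_empty_or_nonempty with he | ⟨u0, hu0⟩
  · subst he
    simp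
  obtain ⟨-, -, -, -, -, -, -, -, hN0⟩ := hF u0 hu0
  obtain ⟨-, -, hq0, h30⟩ := nrm_len hrf hδ c.g c.n hz hN0
  have hzz : z ≤ f (f z) := (hN0.zp.trans hN0.pq.le).trans hq0
  have hmain := sum_len F Prod.fst Prod.snd (u := z) (v := f (f z)) hzz ?_ ?_
  · rw [← Finset.sum_div, div_le_iff₀ hd]
    exact hmain.trans h30
  · intro u hu
    obtain ⟨w, hw, P, k, -, -, -, -, hN⟩ := hF u hu
    obtain ⟨-, -, hq, -⟩ := nrm_len hrf hδ c.g c.n hz hN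
    exact ⟨hN.zp, hN.pq.le, hq⟩
  · intro u hu v hv huv
    obtain ⟨w, hw, P, k, hG, hP, h1, h2, hN⟩ := hF u hu
    obtain ⟨w', hw', P', k', hG', hP', h1', h2', hN'⟩ := hF v hv
    rw [← h1, ← h2] at hN
    rw [← h1', ← h2'] at hN'
    have h := dsj c hz hw hG hP hN hw' hG' hP' hN'
    rw [h1, h2, h1', h2'] at h
    rcases h with h | h
    · exact absurd (Prod.ext h.1 h.2) huv
    · exact h

theorem mx_exists (c : Ctx Γ f a b B A K CS δ) {w : ℝ ≃o ℝ} (hw : w ∈ Γ) (hG : GC w a b K)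
    (hM : Mx Γ a b A w) : ∃ k : ℤ, MxI Γ a b A ((TT ^ k * w) a, (TT ^ k * w) b) := by
  have hA : NB w a b A := totx_nb c hG
  have hpi : 0 < 2 * Real.pi := by positivity
  refine ⟨-⌊w a / (2 * Real.pi)⌋, TT ^ (-⌊w a / (2 * Real.pi)⌋) * w,
    Γ.mul_mem (Γ.zpow_mem c.h.T_mem _) hw, (mx_TT c.h hw hA hM _).1, (mx_TT c.h hw hA hM _).2,
    rfl, rfl, ?_, ?_⟩
  · have e : (TT ^ (-⌊w a / (2 * Real.pi)⌋) * w : ℝ ≃o ℝ) a =
        (TT ^ (-⌊w a / (2 * Real.pi)⌋) : ℝ ≃o ℝ) (w a) := rfl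
    rw [e, calc_TT_apply]
    push_cast
    have h1 := Int.floor_le (w a / (2 * Real.pi))
    rw [le_div_iff₀ hpi] at h1
    linarith
  · have e : (TT ^ (-⌊w a / (2 * Real.pi)⌋) * w : ℝ ≃o ℝ) a =
        (TT ^ (-⌊w a / (2 * Real.pi)⌋) : ℝ ≃o ℝ) (w a) := rfl
    rw [e, calc_TT_apply]
    push_cast
    have h1 := Int.lt_floor_add_one (w a / (2 * Real.pi))
    rw [div_lt_iff₀ hpi] at h1
    linarith

theorem nr_exists (c : Ctx Γ f a b B A K CS δ) {z : ℝ} (hz : z ∈ Ioo a b) {w : ℝ ≃o ℝ}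
    (hw : w ∈ Γ) (hG : GC w a b K) (hM : ¬ Mx Γ a b A w) : ∃ P, ∃ k : ℤ, Par Γ a b A P w ∧
      Nrm f z ((f ^ k) ((P⁻¹ * w) a)) ((f ^ k) ((P⁻¹ * w) b)) := by
  obtain ⟨P, hP⟩ := parent c hw (totx_nb c hG) hM
  obtain ⟨-, h1, h2, h3⟩ := rho_mem c hw hP
  obtain ⟨k, hk⟩ := nrm_exists (c.h.rg f c.hf) c.g hz h1 h2 h3 (rho_off c hw hG hP)
  exact ⟨P, k, hP, hk⟩

end

end Pool.Agent.H24.GN
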