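import Mathlib
import Pool.Agent.H24.GN.Tot
import Pool.Agent.H24.GN.Cost

/-!
# GN-16: the main step

`main_step`: if the images `x i`, `i ≤ n`, of `[a, b]` are controlled at cost `K` and `x (i+1)` is the
image of `x i` under a generator, then `x (n+1)` is controlled at cost `K`.

PROOF.  Fix `z` in `(a, b)`.  For every `i ≤ n` choose (`Classical.choice`) `w i ∈ Γ` with
`GC (w i) a b K`, `x i = (w i a, w i b)`.  If `Mx Γ a b A (w i)`: choose `k` (`mx_exists`),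
`cl i = inl ((TT^k * w i) a, (TT^k * w i) b)`.  Otherwise choose `P`, `k` (`nr_exists`),
`cl i = inr ((f^k) (ρ a), (f^k) (ρ b))`.
Use `chain` (file Seq) with `P y c := ∃ g ∈ Γ, g a = y.1 ∧ g b = y.2 ∧ GC g a b c`, and the weights
`j (inl _) = 0`, `s (inl (u, v)) = CS * max 0 (v - u)`,
`j (inr (p, q)) = (CB B + 1/6) * max 0 ((q - p)/(f z - z))`, `s (inr (p, q)) = 1/6 * max 0 (...)`.
`hjump`: same class `inl`: the two intervals differ by a translation, cost 0 (`NB.tt`, `GC.mul`);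
same class `inr`: `jump_cost`, `GC.mul`.  `hstep`: `NB s (w a) (w b) (CS (w b - w a))`, resp.
`step_cost`.
Total: the `inl` part is `CS * Σ (v - u) ≤ CS * 4 pi` (`tot_mx`), the `inr` part is
`(CB B + 1/3) Σ (q - p)/(f z - z) ≤ (CB B + 1/3) * 3` (`tot_nr`).  So the total is `≤ K` (`c.K1`),
`GC.mono`.
-/

set_option autoImplicit false
open Set Filter Topology MeasureTheory

namespace Pool.Agent.H24.GN

open Pool.Agent.H52.GS (TT BB)

/-- the class of a maximal image -/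
def ClsL (Γ : Subgroup (ℝ ≃o ℝ)) (a b A K : ℝ) (y u : ℝ × ℝ) : Prop :=
  ∃ w ∈ Γ, w a = y.1 ∧ w b = y.2 ∧ GC w a b K ∧ MxI Γ a b A u ∧
    ∃ k : ℤ, (TT ^ k) y.1 = u.1 ∧ (TT ^ k) y.2 = u.2

/-- the class of an image which is not maximal -/
def ClsR (Γ : Subgroup (ℝ ≃o ℝ)) (f : ℝ ≃o ℝ) (a b A K z : ℝ) (y u : ℝ × ℝ) : Prop :=
  ∃ w ∈ Γ, w a = y.1 ∧ w b = y.2 ∧ GC w a b K ∧ ∃ P, ∃ k : ℤ, Par Γ a b A P w ∧
    (f ^ k) ((P⁻¹ * w) a) = u.1 ∧ (f ^ k) ((P⁻¹ * w) b) = u.2 ∧ Nrm f z u.1 u.2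

/-- `y` is the image of `[a, b]` at cost `c` -/
def ClsP (Γ : Subgroup (ℝ ≃o ℝ)) (a b : ℝ) (y : ℝ × ℝ) (c : ℝ) : Prop :=
  ∃ g ∈ Γ, g a = y.1 ∧ g b = y.2 ∧ GC g a b c

/-- the weight of a jump -/
noncomputable def clsJ (f : ℝ ≃o ℝ) (B z : ℝ) : (ℝ × ℝ) ⊕ (ℝ × ℝ) → ℝ
  | Sum.inl _ => 0
  | Sum.inr u => (CB B + 1 / 6) * max 0 ((u.2 - u.1) / (f z - z))

/-- the weight of a step -/
noncomputable def clsS (f : ℝ ≃o ℝ) (CS z : ℝ) : (ℝ × ℝ) ⊕ (ℝ × ℝ) → ℝ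
  | Sum.inl u => CS * max 0 (u.2 - u.1)
  | Sum.inr u => 1 / 6 * max 0 ((u.2 - u.1) / (f z - z))

theorem cls_CB_pos (B : ℝ) : 0 < CB B := Real.exp_pos _

section
variable {Γ : Subgroup (ℝ ≃o ℝ)} {f : ℝ ≃o ℝ} {a b B A K CS δ : ℝ}

theorem cls_jump (c : Ctx Γ f a b B A K CS δ) {z : ℝ} (hz : z ∈ Ioo a b) {y y' : ℝ × ℝ}
    {e : (ℝ × ℝ) ⊕ (ℝ × ℝ)} {t : ℝ} (ht : 0 ≤ t)
    (hy : (∃ u, e = Sum.inl u ∧ ClsL Γ a b A K y u) ∨
      ∃ u, e = Sum.inr u ∧ ClsR Γ f a b A K z y u)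
    (hy' : (∃ u, e = Sum.inl u ∧ ClsL Γ a b A K y' u) ∨
      ∃ u, e = Sum.inr u ∧ ClsR Γ f a b A K z y' u)
    (hP : ClsP Γ a b y t) : ClsP Γ a b y' (t + clsJ f B z e) := by
  have hab := c.g.lt
  obtain ⟨g, hg, ga, gb, hG⟩ := hP
  rcases hy with ⟨u, rfl, h1⟩ | ⟨u, rfl, h1⟩
  · rcases hy' with ⟨u', hu', h2⟩ | ⟨u', hu', h2⟩
    · rw [Sum.inl.injEq] at hu'
      subst hu'
      obtain ⟨w1, -, -, -, -, -, k1, p1, q1⟩ := h1
      obtain ⟨w2, -, -, -, -, -, k2, p2, q2⟩ := h2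
      have hk : ∀ s t : ℝ, (TT ^ k1 : ℝ ≃o ℝ) s = (TT ^ k2 : ℝ ≃o ℝ) t →
          (TT ^ (k1 - k2) : ℝ ≃o ℝ) s = t := by
        intro s t h
        rw [calc_TT_apply, calc_TT_apply] at h
        rw [calc_TT_apply]
        push_cast
        linarith
      refine ⟨TT ^ (k1 - k2) * g, Γ.mul_mem (Γ.zpow_mem c.h.T_mem _) hg, ?_, ?_, ?_⟩
      · show (TT ^ (k1 - k2) : ℝ ≃o ℝ) (g a) = y'.1
        rw [ga]
        exact hk _ _ (p1.trans p2.symm)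
      · show (TT ^ (k1 - k2) : ℝ ≃o ℝ) (g b) = y'.2
        rw [gb]
        exact hk _ _ (q1.trans q2.symm)
      · exact GC.mul (calc_rg_TT _) (c.h.rg g hg) hab ht hG (NB.tt _ _ _)
    · exact absurd hu' (by simp)
  · rcases hy' with ⟨u', hu', h2⟩ | ⟨u', hu', h2⟩
    · exact absurd hu' (by simp)
    · rw [Sum.inr.injEq] at hu'
      subst hu'
      obtain ⟨w1, hw1, wa1, wb1, hG1, P1, k1, hP1, p1, q1, hN⟩ := h1
      obtain ⟨w2, hw2, wa2, wb2, hG2, P2, k2, hP2, p2, q2, -⟩ := h2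
      obtain ⟨h, hh, ha, hb, hn⟩ := jump_cost c hz hN hw1 hG1 hP1 p1 q1 hw2 hG2 hP2 p2 q2
      have hr := (nrm_len (c.h.rg f c.hf) c.num.2.2.2.2.2.2.2.2.2.2.2.2 c.g c.n hz hN).1
      refine ⟨h * g, Γ.mul_mem hh hg, ?_, ?_, ?_⟩
      · show h (g a) = y'.1
        rw [ga, ← wa1, ha, wa2]
      · show h (g b) = y'.2
        rw [gb, ← wb1, hb, wb2]
      · refine GC.mul (c.h.rg h hh) (c.h.rg g hg) hab ht hG ?_
        rw [ga, gb, ← wa1, ← wb1]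
        show NB h (w1 a) (w1 b) ((CB B + 1 / 6) * max 0 ((u.2 - u.1) / (f z - z)))
        rw [max_eq_right hr.le]
        exact hn

theorem cls_step (c : Ctx Γ f a b B A K CS δ) {z : ℝ} (hz : z ∈ Ioo a b) {y y' : ℝ × ℝ}
    {e : (ℝ × ℝ) ⊕ (ℝ × ℝ)} {t : ℝ} (ht : 0 ≤ t)
    (hy : (∃ u, e = Sum.inl u ∧ ClsL Γ a b A K y u) ∨
      ∃ u, e = Sum.inr u ∧ ClsR Γ f a b A K z y u)
    {s : ℝ ≃o ℝ} (hs : s ∈ Γ) (s1 : s y.1 = y'.1) (s2 : s y.2 = y'.2)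
    (hsl : ∀ u v : ℝ, |ld s u - ld s v| ≤ CS * |u - v|)
    (hP : ClsP Γ a b y t) : ClsP Γ a b y' (t + clsS f CS z e) := by
  have hab := c.g.lt
  obtain ⟨g, hg, ga, gb, hG⟩ := hP
  have hgab : g a < g b := g.strictMono hab
  refine ⟨s * g, Γ.mul_mem hs hg, ?_, ?_, ?_⟩
  · show s (g a) = y'.1
    rw [ga, s1]
  · show s (g b) = y'.2
    rw [gb, s2]
  · refine GC.mul (c.h.rg s hs) (c.h.rg g hg) hab ht hG ?_
    rcases hy with ⟨u, rfl, h1⟩ | ⟨u, rfl, h1⟩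
    · obtain ⟨w1, -, wa1, wb1, -, -, k1, p1, q1⟩ := h1
      rw [calc_TT_apply] at p1 q1
      have hu : u.2 - u.1 = g b - g a := by
        rw [← p1, ← q1, ga, gb]
        ring
      have hu0 : 0 ≤ u.2 - u.1 := by rw [hu]; linarith
      show NB s (g a) (g b) (CS * max 0 (u.2 - u.1))
      rw [max_eq_right hu0, hu]
      intro x _ v _
      calc |ld s x - ld s v| * (g b - g a) ≤ (CS * |x - v|) * (g b - g a) :=
            mul_le_mul_of_nonneg_right (hsl x v) (by linarith)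
        _ = CS * (g b - g a) * |x - v| := by ring
    · obtain ⟨w1, hw1, wa1, wb1, hG1, P1, k1, hP1, p1, q1, hN⟩ := h1
      have hr := (nrm_len (c.h.rg f c.hf) c.num.2.2.2.2.2.2.2.2.2.2.2.2 c.g c.n hz hN).1
      show NB s (g a) (g b) (1 / 6 * max 0 ((u.2 - u.1) / (f z - z)))
      rw [max_eq_right hr.le, ga, gb, ← wa1, ← wb1]
      exact step_cost c hz hN hw1 hG1 hP1 p1 q1 hsl

theorem cls_mxI_lt {u : ℝ × ℝ} (hab : a < b) (h : MxI Γ a b A u) : u.1 < u.2 := by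
  obtain ⟨w, -, -, -, h1, h2, -⟩ := h
  rw [← h1, ← h2]
  exact w.strictMono hab

theorem cls_tot (c : Ctx Γ f a b B A K CS δ) {z : ℝ} (hz : z ∈ Ioo a b)
    (F : Finset ((ℝ × ℝ) ⊕ (ℝ × ℝ)))
    (h1 : ∀ u, Sum.inl u ∈ F → MxI Γ a b A u) (h2 : ∀ u, Sum.inr u ∈ F → NrI Γ f a b A K z u) :
    ∑ e ∈ F, (clsJ f B z e + clsS f CS z e) ≤ K := by
  have hab := c.g.lt
  have e0 : F = F.toLeft.disjSum F.toRight := (Finset.toLeft_disjSum_toRight).symm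
  rw [e0, Finset.sum_disjSum]
  have hL : ∑ u ∈ F.toLeft, (clsJ f B z (Sum.inl u) + clsS f CS z (Sum.inl u)) ≤
      CS * (4 * Real.pi) := by
    have i1 : ∀ u ∈ F.toLeft, MxI Γ a b A u := fun u hu => h1 u (Finset.mem_toLeft.mp hu)
    calc ∑ u ∈ F.toLeft, (clsJ f B z (Sum.inl u) + clsS f CS z (Sum.inl u))
        = ∑ u ∈ F.toLeft, CS * (u.2 - u.1) := by
          refine Finset.sum_congr rfl fun u hu => ?_
          have hlt := cls_mxI_lt hab (i1 u hu)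
          show (0 : ℝ) + CS * max 0 (u.2 - u.1) = CS * (u.2 - u.1)
          rw [max_eq_right (by linarith), zero_add]
      _ = CS * ∑ u ∈ F.toLeft, (u.2 - u.1) := (Finset.mul_sum _ _ _).symm
      _ ≤ CS * (4 * Real.pi) := mul_le_mul_of_nonneg_left (tot_mx c _ i1) c.S0
  have hR : ∑ u ∈ F.toRight, (clsJ f B z (Sum.inr u) + clsS f CS z (Sum.inr u)) ≤
      (CB B + 1 / 3) * 3 := by
    have i1 : ∀ u ∈ F.toRight, NrI Γ f a b A K z u := fun u hu => h2 u (Finset.mem_toRight.mp hu)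
    calc ∑ u ∈ F.toRight, (clsJ f B z (Sum.inr u) + clsS f CS z (Sum.inr u))
        = ∑ u ∈ F.toRight, (CB B + 1 / 3) * ((u.2 - u.1) / (f z - z)) := by
          refine Finset.sum_congr rfl fun u hu => ?_
          obtain ⟨w, -, P, k, -, -, -, -, hN⟩ := i1 u hu
          have hr := (nrm_len (c.h.rg f c.hf) c.num.2.2.2.2.2.2.2.2.2.2.2.2 c.g c.n hz hN).1
          show (CB B + 1 / 6) * max 0 ((u.2 - u.1) / (f z - z)) +
            1 / 6 * max 0 ((u.2 - u.1) / (f z - z)) = (CB B + 1 / 3) * ((u.2 - u.1) / (f z - z))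
          rw [max_eq_right hr.le]
          ring
      _ = (CB B + 1 / 3) * ∑ u ∈ F.toRight, (u.2 - u.1) / (f z - z) :=
          (Finset.mul_sum _ _ _).symm
      _ ≤ (CB B + 1 / 3) * 3 :=
          mul_le_mul_of_nonneg_left (tot_nr c hz _ i1) (by have := cls_CB_pos B; linarith)
  have hK := c.K1
  linarith

end

theorem main_step {Γ : Subgroup (ℝ ≃o ℝ)} {f : ℝ ≃o ℝ} {a b B A K CS δ : ℝ}
    (c : Ctx Γ f a b B A K CS δ) (n : ℕ) (x : ℕ → ℝ × ℝ) (h0 : ∃ k : ℤ, x 0 = ((TT ^ k) a, (TT ^ k) b))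
    (hx : ∀ i, i ≤ n → ∃ w ∈ Γ, w a = (x i).1 ∧ w b = (x i).2 ∧ GC w a b K)
    (hs : ∀ i, i ≤ n → ∃ s ∈ Γ, s (x i).1 = (x (i + 1)).1 ∧ s (x i).2 = (x (i + 1)).2 ∧
      ∀ u v : ℝ, |ld s u - ld s v| ≤ CS * |u - v|) :
    ∃ w ∈ Γ, w a = (x (n + 1)).1 ∧ w b = (x (n + 1)).2 ∧ GC w a b K := by
  classical
  have hab := c.g.lt
  obtain ⟨z, hz⟩ : ∃ z, z ∈ Ioo a b := ⟨(a + b) / 2, by constructor <;> linarith⟩
  -- the classes
  have hcl : ∀ i : ℕ, ∃ e : (ℝ × ℝ) ⊕ (ℝ × ℝ), i ≤ n →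
      ((∃ u, e = Sum.inl u ∧ ClsL Γ a b A K (x i) u) ∨
        ∃ u, e = Sum.inr u ∧ ClsR Γ f a b A K z (x i) u) := by
    intro i
    by_cases hi : i ≤ n
    · obtain ⟨w, hw, wa, wb, hG⟩ := hx i hi
      by_cases hM : Mx Γ a b A w
      · obtain ⟨k, hk⟩ := mx_exists c hw hG hM
        refine ⟨Sum.inl ((TT ^ k * w) a, (TT ^ k * w) b), fun _ => Or.inl ⟨_, rfl, ?_⟩⟩
        refine ⟨w, hw, wa, wb, hG, hk, k, ?_, ?_⟩
        · show (TT ^ k : ℝ ≃o ℝ) (x i).1 = (TT ^ k : ℝ ≃o ℝ) (w a)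
          rw [wa]
        · show (TT ^ k : ℝ ≃o ℝ) (x i).2 = (TT ^ k : ℝ ≃o ℝ) (w b)
          rw [wb]
      · obtain ⟨P, k, hP, hN⟩ := nr_exists c hz hw hG hM
        refine ⟨Sum.inr ((f ^ k) ((P⁻¹ * w) a), (f ^ k) ((P⁻¹ * w) b)), fun _ =>
          Or.inr ⟨_, rfl, ?_⟩⟩
        exact ⟨w, hw, wa, wb, hG, P, k, hP, rfl, rfl, hN⟩
    · exact ⟨Sum.inl (0, 0), fun h => absurd h hi⟩
  choose cl hcl using hcl
  have hj : ∀ e, 0 ≤ clsJ f B z e := by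
    rintro (u | u)
    · exact le_rfl
    · exact mul_nonneg (by have := cls_CB_pos B; linarith) (le_max_left _ _)
  have hs0 : ∀ e, 0 ≤ clsS f CS z e := by
    rintro (u | u)
    · exact mul_nonneg c.S0 (le_max_left _ _)
    · exact mul_nonneg (by norm_num) (le_max_left _ _)
  have key : ClsP Γ a b (x (n + 1))
      (max 0 (∑ e ∈ (Finset.range (n + 1)).image cl, (clsJ f B z e + clsS f CS z e))) := by
    have h1 := chain (fun y t => ClsP Γ a b y (max 0 t)) n x cl (clsJ f B z) (clsS f CS z) hj hs0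
      ?_ ?_ ?_ ?_
    · exact h1
    · rintro y t t' htt ⟨g, hg, ga, gb, hG⟩
      exact ⟨g, hg, ga, gb, hG.mono (le_max_left _ _) (max_le_max le_rfl htt)⟩
    · obtain ⟨k, hk⟩ := h0
      show ClsP Γ a b (x 0) (max 0 0)
      rw [max_self, hk]
      exact ⟨TT ^ k, Γ.zpow_mem c.h.T_mem _, rfl, rfl, GC.tt k a b⟩
    · intro i i' t hii hi' hc ht hP
      show ClsP Γ a b (x i') (max 0 (t + clsJ f B z (cl i)))
      have hP' : ClsP Γ a b (x i) t := by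
        have h2 : ClsP Γ a b (x i) (max 0 t) := hP
        rwa [max_eq_right ht] at h2
      rw [max_eq_right (add_nonneg ht (hj _))]
      refine cls_jump c hz ht (hcl i (hii.trans hi')) ?_ hP'
      rw [hc]
      exact hcl i' hi'
    · intro i t hi ht hP
      show ClsP Γ a b (x (i + 1)) (max 0 (t + clsS f CS z (cl i)))
      have hP' : ClsP Γ a b (x i) t := by
        have h2 : ClsP Γ a b (x i) (max 0 t) := hP
        rwa [max_eq_right ht] at h2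
      rw [max_eq_right (add_nonneg ht (hs0 _))]
      obtain ⟨s, hsΓ, s1, s2, hsl⟩ := hs i hi
      exact cls_step c hz ht (hcl i hi) hsΓ s1 s2 hsl hP'
  have htot : ∑ e ∈ (Finset.range (n + 1)).image cl, (clsJ f B z e + clsS f CS z e) ≤ K := by
    refine cls_tot c hz _ ?_ ?_
    · intro u hu
      obtain ⟨i, hi, hiu⟩ := Finset.mem_image.mp hu
      have hi' : i ≤ n := by
        have := Finset.mem_range.mp hi
        omega
      rcases hcl i hi' with ⟨u', hu', h⟩ | ⟨u', hu', h⟩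
      · rw [hiu, Sum.inl.injEq] at hu'
        subst hu'
        obtain ⟨-, -, -, -, -, h3, -⟩ := h
        exact h3
      · rw [hiu] at hu'
        exact absurd hu' (by simp)
    · intro u hu
      obtain ⟨i, hi, hiu⟩ := Finset.mem_image.mp hu
      have hi' : i ≤ n := by
        have := Finset.mem_range.mp hi
        omega
      rcases hcl i hi' with ⟨u', hu', h⟩ | ⟨u', hu', h⟩
      · rw [hiu] at hu'
        exact absurd hu' (by simp)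
      · rw [hiu, Sum.inr.injEq] at hu'
        subst hu'
        obtain ⟨w, hw, -, -, hG, P, k, hP, p1, q1, hN⟩ := h
        exact ⟨w, hw, P, k, hG, hP, p1, q1, hN⟩
  have hK0 : 0 ≤ K := by
    have := c.num.1
    linarith
  obtain ⟨g, hg, ga, gb, hG⟩ := key
  exact ⟨g, hg, ga, gb, hG.mono (le_max_left _ _) (max_le hK0 htot)⟩

end Pool.Agent.H24.GN
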