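import Mathlib
import Pool.Agent.H24.GN.NcL
import Pool.Agent.H24.GN.Expd

/-!
# GN-9: controlled images of a near-identity gap are not macroscopic

PROOF.  `c0 > 0` given, wlog `c0 ≤ 1`.  For every `u` there is `g ∈ Γ` with
`u + c0/4 < g u < u + c0/2` (`h.dense`); this is an open condition in `u`; `[0, 2 pi]` is compact: a
finite set `g_1, ..., g_N` of elements of `Γ` suffices for all `u ∈ [0, 2 pi]`.  Let `m1 > 0` and `L`
be bounds `m1 ≤ g_i' ≤ L` on `[0, 2 pi + 1]` (the derivative is continuous: `ld` is Lipschitz, see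
`h.lip`), `C1` a Lipschitz constant of all `ld g_i`, and `η = min 1 (c0/(8 L))`.
Suppose `w b - w a ≥ c0`.  Replace `w` by `TT^j * w` (`GC`/`NB` do not change: `ld_TT`, `ld_mul`) so
that `u = w a ∈ [0, 2 pi]`.  Take `g = g_i` for `u`; `k = w⁻¹ * g * w`; `k a = w⁻¹ (g u) ∈ (a, b)`.
`x2 = w⁻¹ (u + η)`: `g [u, u + η] ⊆ [g u, g u + L η] ⊆ (w a, w b)`.  `NB k a x2 G` with `G` depending
on `B`, `C1` only (`w` on `[a, x2]`, `g` on `[u, u + η]`, `w⁻¹` on a subinterval of `[w a, w b]`).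
`k' a ≥ exp (-B) m1`.  `|f (k a) - k a| ≤ 2 δ (b - a)` (`step_le`) and
`k x2 - k a ≥ exp (-B) (b - a)/(w b - w a) * m1 η ≥ exp (-B) (b - a) m1 η /(2 pi)` (`gap_len`,
`DB.ratio_ge` for `w⁻¹`).  `nc_left` for small `δ0`.
-/

set_option autoImplicit false
open Set Filter Topology MeasureTheory

namespace Pool.Agent.H24.GN

open Pool.Agent.H52.GS (TT BB)

/-- uniform constants for the elements which move a point by about `c` -/
theorem mac_cov {Γ : Subgroup (ℝ ≃o ℝ)} (h : Gq Γ) (c : ℝ) (hc : 0 < c) :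
    ∃ M : ℝ, 0 < M ∧ ∀ u ∈ Icc (0 : ℝ) (2 * Real.pi), ∃ g ∈ Γ, u + c / 4 < g u ∧
      g u < u + c / 2 ∧ (∀ x ∈ Icc (0 : ℝ) (2 * Real.pi + 1), |ld g x| ≤ M) ∧
      (∀ x y : ℝ, |ld g x - ld g y| ≤ M * |x - y|) := by
  have hpi := Real.pi_pos
  refine isCompact_Icc.induction_on (p := fun s : Set ℝ => ∃ M : ℝ, 0 < M ∧ ∀ u ∈ s, ∃ g ∈ Γ,
    u + c / 4 < g u ∧ g u < u + c / 2 ∧ (∀ x ∈ Icc (0 : ℝ) (2 * Real.pi + 1), |ld g x| ≤ M) ∧
      (∀ x y : ℝ, |ld g x - ld g y| ≤ M * |x - y|)) ?_ ?_ ?_ ?_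
  · exact ⟨1, one_pos, fun u hu => absurd hu (Set.notMem_empty u)⟩
  · rintro s t hst ⟨M, hM, hh⟩
    exact ⟨M, hM, fun u hu => hh u (hst hu)⟩
  · rintro s t ⟨M, hM, hh⟩ ⟨M', hM', hh'⟩
    refine ⟨max M M', lt_max_of_lt_left hM, ?_⟩
    rintro u (hu | hu)
    · obtain ⟨g, hg, h1, h2, h3, h4⟩ := hh u hu
      exact ⟨g, hg, h1, h2, fun x hx => (h3 x hx).trans (le_max_left _ _),
        fun x y => (h4 x y).trans (mul_le_mul_of_nonneg_right (le_max_left _ _) (abs_nonneg _))⟩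
    · obtain ⟨g, hg, h1, h2, h3, h4⟩ := hh' u hu
      exact ⟨g, hg, h1, h2, fun x hx => (h3 x hx).trans (le_max_right _ _),
        fun x y => (h4 x y).trans (mul_le_mul_of_nonneg_right (le_max_right _ _) (abs_nonneg _))⟩
  · intro u _
    obtain ⟨g, hg, h1, h2⟩ := h.dense u (u + c / 4) (u + c / 2) (by linarith)
    obtain ⟨C, hC, hlip⟩ := h.lip g hg
    have hcont : Continuous (g : ℝ → ℝ) := OrderIso.continuous g
    refine ⟨{v | v + c / 4 < g v ∧ g v < v + c / 2},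
      mem_nhdsWithin_of_mem_nhds (IsOpen.mem_nhds ?_ ⟨h1, h2⟩),
      |ld g 0| + C * (2 * Real.pi + 1) + C, by positivity, ?_⟩
    · exact (isOpen_lt (by fun_prop) hcont).inter (isOpen_lt hcont (by fun_prop))
    · rintro v ⟨hv1, hv2⟩
      refine ⟨g, hg, hv1, hv2, fun x hx => ?_, fun x y => ?_⟩
      · have e1 := hlip x 0
        have e2 : |ld g x| ≤ |ld g x - ld g 0| + |ld g 0| := by
          have := abs_add_le (ld g x - ld g 0) (ld g 0)
          simpa using this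
        rw [sub_zero, abs_of_nonneg hx.1] at e1
        have e3 : C * x ≤ C * (2 * Real.pi + 1) := mul_le_mul_of_nonneg_left hx.2 hC.le
        linarith
      · refine (hlip x y).trans (mul_le_mul_of_nonneg_right ?_ (abs_nonneg _))
        have e1 : 0 ≤ C * (2 * Real.pi + 1) := by positivity
        linarith [abs_nonneg (ld g 0)]

/-- the main step, for an image which starts in `[0, 2 pi]` -/
theorem mac_main {Γ : Subgroup (ℝ ≃o ℝ)} (h : Gq Γ) (B c : ℝ) (hB : 0 ≤ B) (hc : 0 < c)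
    (hc1 : c ≤ 1) :
    ∃ δ0 : ℝ, 0 < δ0 ∧ ∀ {f w : ℝ ≃o ℝ} {a b : ℝ}, f ∈ Γ → w ∈ Γ → Gap f a b →
      Nr f a b B δ0 → NB w a b B → w a ∈ Icc (0 : ℝ) (2 * Real.pi) → c ≤ w b - w a → False := by
  have hpi := Real.pi_pos
  obtain ⟨M, hM, hcov⟩ := mac_cov h c hc
  obtain ⟨η, hη⟩ : ∃ η, η = c / (8 * Real.exp M) := ⟨_, rfl⟩
  have hη0 : 0 < η := by rw [hη]; positivity
  have hηM : Real.exp M * η = c / 8 := by
    rw [hη]
    field_simp
  have hη1 : η ≤ c / 8 := by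
    have h1 : (1 : ℝ) ≤ Real.exp M := Real.one_le_exp hM.le
    nlinarith
  obtain ⟨G, hG⟩ : ∃ G, G = B + Real.exp B * M + Real.exp (B + M) * (Real.exp B * B) := ⟨_, rfl⟩
  have hG0 : 0 ≤ G := by rw [hG]; positivity
  obtain ⟨δ1, hδ1, hnc⟩ := nc_left B G (Real.exp (-(B + M))) hB hG0 (Real.exp_pos _)
  obtain ⟨δ2, hδ2⟩ : ∃ δ2, δ2 = Real.exp (-B) * Real.exp (-M) * η / (24 * Real.pi) := ⟨_, rfl⟩
  have hδ20 : 0 < δ2 := by rw [hδ2]; positivity
  refine ⟨min δ1 (min δ2 1), by positivity, ?_⟩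
  intro f w a b hf hw hgap hnr hnb hwa hlen
  have hfr := h.rg f hf
  have hwr := h.rg w hw
  have hab := hgap.lt
  obtain ⟨g, hg, g1, g2, g3, g4⟩ := hcov (w a) hwa
  have hgr := h.rg g hg
  have hwir : Rg w⁻¹ := rg_inv hwr
  have hwdb : DB w a b B := hnb.db hab
  -- the points
  obtain ⟨u, hu⟩ : ∃ u, u = w a := ⟨_, rfl⟩
  rw [← hu] at g1 g2 hwa hlen
  have hwiu : (w⁻¹ : ℝ ≃o ℝ) u = a := by rw [hu]; exact RelIso.inv_apply_self w a
  obtain ⟨x2, hx2⟩ : ∃ x2, x2 = (w⁻¹ : ℝ ≃o ℝ) (u + η) := ⟨_, rfl⟩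
  have hwx2 : w x2 = u + η := by rw [hx2]; exact RelIso.apply_inv_self w (u + η)
  have hwb : (w⁻¹ : ℝ ≃o ℝ) (w b) = b := RelIso.inv_apply_self w b
  have hax2 : a < x2 := by
    rw [← w.lt_iff_lt, hwx2, ← hu]
    linarith
  have hx2b : x2 < b := by
    rw [← w.lt_iff_lt, hwx2]
    linarith
  -- bounds for `g` on `[u, u + η]`
  have hsub : Icc u (u + η) ⊆ Icc (0 : ℝ) (2 * Real.pi + 1) := by
    intro x hx
    exact ⟨hwa.1.trans hx.1, by linarith [hx.2, hwa.2]⟩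
  have hgmvt : ∃ z : ℝ, u < z ∧ z < u + η ∧
      g (u + η) - g u = deriv (g : ℝ → ℝ) z * ((u + η) - u) := calc_mvt hgr (by linarith)
  obtain ⟨z, hz1, hz2, hz3⟩ := hgmvt
  have hz4 := g3 z (hsub ⟨hz1.le, hz2.le⟩)
  rw [abs_le] at hz4
  have hz5 : g (u + η) - g u ≤ c / 8 := by
    rw [hz3, ← calc_exp_ld hgr z, ← hηM, add_sub_cancel_left]
    exact mul_le_mul_of_nonneg_right (Real.exp_le_exp.mpr hz4.2) hη0.le
  have hz6 : Real.exp (-M) * η ≤ g (u + η) - g u := by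
    rw [hz3, ← calc_exp_ld hgr z, add_sub_cancel_left]
    exact mul_le_mul_of_nonneg_right (Real.exp_le_exp.mpr hz4.1) hη0.le
  have hgu : g u < g (u + η) := g.strictMono (by linarith)
  -- the element `k`
  obtain ⟨k, hk⟩ : ∃ k : ℝ ≃o ℝ, k = w⁻¹ * (g * w) := ⟨_, rfl⟩
  have hkΓ : k ∈ Γ := by
    rw [hk]
    exact Γ.mul_mem (Γ.inv_mem hw) (Γ.mul_mem hg hw)
  have hka : k a = (w⁻¹ : ℝ ≃o ℝ) (g u) := by
    rw [hk, hu]
    rfl
  have hkx : k x2 = (w⁻¹ : ℝ ≃o ℝ) (g (u + η)) := by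
    rw [hk, ← hwx2]
    rfl
  have hwka : w (k a) = g u := by rw [hka]; exact RelIso.apply_inv_self w (g u)
  have hwkx : w (k x2) = g (u + η) := by rw [hkx]; exact RelIso.apply_inv_self w (g (u + η))
  have hka1 : a < k a := by
    rw [← w.lt_iff_lt, hwka, ← hu]
    linarith
  have hka2 : k a < b := by
    rw [← w.lt_iff_lt, hwka]
    linarith
  have hkx2 : k x2 < b := by
    rw [← w.lt_iff_lt, hwkx]
    linarith
  -- the bound `NB k a x2 G`
  have n1 : NB w a x2 B := hnb.sub' le_rfl hax2 hx2b.le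
  have n2 : NB g (w a) (w x2) M := by
    rw [← hu, hwx2]
    intro x hx y hy
    have e1 := g4 x y
    have e2 : |ld g x - ld g y| * (u + η - u) ≤ |ld g x - ld g y| * 1 :=
      mul_le_mul_of_nonneg_left (by linarith) (abs_nonneg _)
    linarith
  have n3 : NB (g * w) a x2 (B + Real.exp B * M) := NB.mul hgr hwr hax2 n1 (n1.db hax2) n2
  have n4 : DB (g * w) a x2 (B + M) :=
    DB.mul hgr hwr (n1.db hax2) (n2.db (w.strictMono hax2))
  have n5 : NB w⁻¹ (w a) (w b) (Real.exp B * B) := NB.inv hwr hab hnb hwdb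
  have n6 : NB w⁻¹ ((g * w) a) ((g * w) x2) (Real.exp B * B) := by
    have e1 : (g * w) a = g u := by rw [hu]; rfl
    have e2 : (g * w) x2 = g (u + η) := by rw [← hwx2]; rfl
    rw [e1, e2]
    refine n5.sub' ?_ hgu ?_
    · rw [← hu]
      linarith
    · linarith
  have n7 : NB k a x2 G := by
    rw [hk, hG]
    exact NB.mul hwir (rg_mul hgr hwr) hax2 n3 n4 n6
  -- the derivative of `k` at `a`
  have hld : -(B + M) ≤ ld k a := by
    rw [hk, ld_mul hwir (rg_mul hgr hwr), ld_mul hgr hwr]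
    have e1 : (g * w) a = g u := by rw [hu]; rfl
    rw [e1, ld_inv' hwr, ← hka, ← hu]
    have e2 := hwdb (k a) ⟨hka1.le, hka2.le⟩ a ⟨le_rfl, hab.le⟩
    have e3 := g3 u (hsub ⟨le_rfl, by linarith⟩)
    rw [abs_le] at e2 e3
    linarith [e2.2, e3.1]
  have hkr : Rg k := h.rg k hkΓ
  have hder : Real.exp (-(B + M)) ≤ deriv (k : ℝ → ℝ) a := by
    rw [← calc_exp_ld hkr a]
    exact Real.exp_le_exp.mpr hld
  -- the step of `f` at `k a`
  have hδ0 : min δ1 (min δ2 1) ≤ δ2 := (min_le_right _ _).trans (min_le_left _ _)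
  have hδ0' : min δ1 (min δ2 1) ≤ 1 := (min_le_right _ _).trans (min_le_right _ _)
  have hstep : |f (k a) - k a| ≤ 2 * δ2 * (b - a) := by
    have e1 := (step_le hfr hδ0' hnr.sm (x := k a) ⟨hka1.le, hka2.le⟩).1 hgap.fa
    have e2 : 2 * min δ1 (min δ2 1) * (k a - a) ≤ 2 * δ2 * (b - a) := by
      refine mul_le_mul (by linarith) (by linarith) (by linarith) (by positivity)
    linarith
  -- the length of `[k a, k x2]`
  have hlow : Real.exp (-B) * (b - a) * (Real.exp (-M) * η) ≤ (k x2 - k a) * (2 * Real.pi) := by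
    have e0 : DB w⁻¹ (w a) (w b) B := DB.inv hwr hwdb
    have e1 := DB.ratio_ge hwir e0 (y := g u) (z := g (u + η))
      ⟨by rw [← hu]; linarith, by linarith⟩ ⟨by rw [← hu]; linarith, by linarith⟩ hgu.le
    rw [hwb, ← hu, hwiu, ← hka, ← hkx] at e1
    have e2 : w b - u ≤ 2 * Real.pi := by
      rw [hu]
      exact gap_len h hf hw hgap
    have e3 : 0 ≤ k x2 - k a := by
      have := k.strictMono hax2
      linarith
    have e4 : (k x2 - k a) * (w b - u) ≤ (k x2 - k a) * (2 * Real.pi) :=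
      mul_le_mul_of_nonneg_left e2 e3
    have e5 : Real.exp (-B) * (b - a) * (Real.exp (-M) * η) ≤
        Real.exp (-B) * (b - a) * (g (u + η) - g u) :=
      mul_le_mul_of_nonneg_left hz6 (mul_nonneg (Real.exp_pos _).le (by linarith))
    linarith
  have hfin : k a + 6 * |f (k a) - k a| ≤ k x2 := by
    have e1 : 2 * δ2 * (b - a) * 6 * (2 * Real.pi) =
        Real.exp (-B) * (b - a) * (Real.exp (-M) * η) := by
      rw [hδ2]
      field_simp
      ring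
    have e2 : (2 * δ2 * (b - a) * 6) * (2 * Real.pi) ≤ (k x2 - k a) * (2 * Real.pi) := by
      rw [e1]
      exact hlow
    have e3 : 2 * δ2 * (b - a) * 6 ≤ k x2 - k a :=
      le_of_mul_le_mul_right e2 (by positivity)
    linarith
  exact hnc h hf hkΓ hgap (hnr.mono le_rfl (min_le_left _ _)) hka1 hax2 hx2b.le n7 hfin
    hkx2.le hder

theorem macro_small {Γ : Subgroup (ℝ ≃o ℝ)} (h : Gq Γ) (B c0 : ℝ) (hB : 0 ≤ B) (hc0 : 0 < c0) :
    ∃ δ0 : ℝ, 0 < δ0 ∧ ∀ {f w : ℝ ≃o ℝ} {a b : ℝ}, f ∈ Γ → w ∈ Γ → Gap f a b →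
      Nr f a b B δ0 → NB w a b B → w b - w a < c0 := by
  have hpi := Real.pi_pos
  obtain ⟨δ0, hδ0, hmain⟩ := mac_main h B (min c0 1) hB (lt_min hc0 one_pos) (min_le_right _ _)
  refine ⟨δ0, hδ0, ?_⟩
  intro f w a b hf hw hgap hnr hnb
  by_contra hcon
  push Not at hcon
  obtain ⟨j, hj, -⟩ := existsUnique_add_zsmul_mem_Ico (a := 2 * Real.pi) (by positivity) (w a) 0
  have hwr := h.rg w hw
  have e0 : ∀ x : ℝ, (TT ^ j * w : ℝ ≃o ℝ) x = w x + j * (2 * Real.pi) := fun x =>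
    calc_TT_apply j (w x)
  refine hmain (f := f) (w := TT ^ j * w) (a := a) (b := b) hf
    (Γ.mul_mem (Γ.zpow_mem h.T_mem j) hw) hgap hnr ?_ ?_ ?_
  · intro x hx y hy
    have e1 : ∀ x : ℝ, ld (TT ^ j * w) x = ld w x := by
      intro x
      rw [ld_mul (calc_rg_TT j) hwr, ld_TT, zero_add]
    rw [e1, e1]
    exact hnb x hx y hy
  · rw [e0]
    simp only [zsmul_eq_mul, zero_add] at hj
    exact ⟨hj.1, hj.2.le⟩
  · rw [e0, e0]
    have := min_le_left c0 1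
    linarith

end Pool.Agent.H24.GN
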