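import Mathlib
import Pool.Agent.H24.GN.Cls
import Pool.Agent.H24.GN.Mac

/-!
# GN-17: THEOREM NP: there is no near-identity gap

PROOF.  `CS` = a common Lipschitz constant of `ld s`, `s ∈ S` (`h.lip`, `S` finite);
`K = CS * 4 pi + 3 CB B + 1`, `A = 2 K exp K`, `c0` from `expd`, `B' = max A (exp B * B)`,
`δ0` = minimum of the constants of `lam B' ε`, `macro_small B' c0` and of the number given by
`Ctx.δ1`.  If `f` moves the points of `(a, b)` to the left replace it by `f⁻¹` (`Nr.inv`; its `B` is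
`exp B * B`; so run the whole argument with this `B` from the beginning; on the interval the sign of
`f x - x` is constant by the intermediate value theorem).
`Ctx` holds.  Claim: for every word `w ∈ BB S n` the image of `[a, b]` is controlled at cost `K`:
a word is `s_n ... s_1 TT^k`; put `x i` = image under the prefix of length `i`; by strong induction on
`m`, `x m` is controlled (`GC.tt` for `m = 0`, `main_step` for `m + 1`).  Hence all `g ∈ Γ` (`hgen`).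
But `expd` gives `g ∈ Γ` with `g b - g a ≥ c0`, and `w ∈ Γ` with `w a = g a`, `w b = g b`,
`NB w a b A` contradicts `macro_small`.
-/

set_option autoImplicit false
open Set Filter Topology MeasureTheory

namespace Pool.Agent.H24.GN

open Pool.Agent.H52.GS (TT BB)

/-- a common Lipschitz constant of the log-derivatives of finitely many elements -/
theorem np17_lip {Γ : Subgroup (ℝ ≃o ℝ)} (h : Gq Γ) {S : Set (ℝ ≃o ℝ)} (hSf : S.Finite)
    (hSΓ : S ⊆ Γ) :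
    ∃ CS : ℝ, 0 ≤ CS ∧ ∀ s ∈ S, ∀ u v : ℝ, |ld s u - ld s v| ≤ CS * |u - v| := by
  classical
  have h1 : ∀ s ∈ S, ∃ C : ℝ, 0 < C ∧ ∀ x y : ℝ, |ld s x - ld s y| ≤ C * |x - y| :=
    fun s hs => h.lip s (hSΓ hs)
  choose! C hC0 hC using h1
  refine ⟨∑ s ∈ hSf.toFinset, C s, Finset.sum_nonneg fun s hs => ?_, fun s hs u v => ?_⟩
  · exact (hC0 s (hSf.mem_toFinset.1 hs)).le
  · refine le_trans (hC s hs u v) (mul_le_mul_of_nonneg_right ?_ (abs_nonneg _))
    exact Finset.single_le_sum (f := C) (fun t ht => (hC0 t (hSf.mem_toFinset.1 ht)).le)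
      (hSf.mem_toFinset.2 hs)

/-- the prefixes of a word -/
theorem np17_seq {S : Set (ℝ ≃o ℝ)} (n : ℕ) : ∀ w ∈ BB S n, ∃ v : ℕ → (ℝ ≃o ℝ),
    (∃ k : ℤ, v 0 = TT ^ k) ∧ (∀ i, i < n → ∃ s ∈ S, v (i + 1) = s * v i) ∧ v n = w := by
  induction n with
  | zero =>
    intro w hw
    exact ⟨fun _ => w, hw, fun i hi => absurd hi (Nat.not_lt_zero i), rfl⟩
  | succ n ih =>
    intro w hw
    obtain ⟨s, hs, b, hb, hwb⟩ := hw
    obtain ⟨v, h0, h1, h2⟩ := ih b hb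
    refine ⟨fun i => if i ≤ n then v i else w, ?_, fun i hi => ?_, ?_⟩
    · obtain ⟨k, hk⟩ := h0
      exact ⟨k, by simpa using hk⟩
    · rcases Nat.lt_or_ge i n with hin | hin
      · obtain ⟨t, ht, hv⟩ := h1 i hin
        refine ⟨t, ht, ?_⟩
        have e1 : i + 1 ≤ n := hin
        have e2 : i ≤ n := hin.le
        simp only [e1, e2, if_true]
        exact hv
      · have e0 : i = n := le_antisymm (Nat.lt_succ_iff.1 hi) hin
        subst e0
        refine ⟨s, hs, ?_⟩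
        have e1 : ¬ (i + 1 ≤ i) := Nat.not_succ_le_self i
        simp only [e1, if_false, le_refl, if_true]
        rw [h2, hwb]
    · have e1 : ¬ (n + 1 ≤ n) := Nat.not_succ_le_self n
      simp only [e1, if_false]

/-- the images under all words are controlled -/
theorem np17_word {Γ : Subgroup (ℝ ≃o ℝ)} {f : ℝ ≃o ℝ} {a b B A K CS δ : ℝ}
    (c : Ctx Γ f a b B A K CS δ) {S : Set (ℝ ≃o ℝ)} (hSΓ : S ⊆ Γ)
    (hCS : ∀ s ∈ S, ∀ u v : ℝ, |ld s u - ld s v| ≤ CS * |u - v|) {n : ℕ} {g : ℝ ≃o ℝ}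
    (hg : g ∈ BB S n) : ∃ w ∈ Γ, w a = g a ∧ w b = g b ∧ GC w a b K := by
  obtain ⟨v, ⟨k, h0⟩, h1, h2⟩ := np17_seq n g hg
  have hK : 0 ≤ K := le_trans zero_le_one c.num.1
  have key : ∀ m, m ≤ n → ∃ w ∈ Γ, w a = v m a ∧ w b = v m b ∧ GC w a b K := by
    intro m
    induction m using Nat.strong_induction_on with
    | _ m ih =>
      intro hm
      cases m with
      | zero =>
        exact ⟨TT ^ k, Γ.zpow_mem c.h.T_mem k, by rw [h0], by rw [h0],
          (GC.tt k a b).mono le_rfl hK⟩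
      | succ m =>
        have h3 := main_step c m (fun i => (v i a, v i b)) ⟨k, by rw [h0]⟩
          (fun i hi => ih i (Nat.lt_succ_of_le hi) (le_trans (le_trans hi (Nat.le_succ m)) hm))
          (fun i hi => by
            obtain ⟨s, hs, hv⟩ := h1 i (lt_of_lt_of_le (Nat.lt_succ_of_le hi) hm)
            refine ⟨s, hSΓ hs, ?_, ?_, hCS s hs⟩
            · change s (v i a) = v (i + 1) a
              rw [hv]; rfl
            · change s (v i b) = v (i + 1) b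
              rw [hv]; rfl)
        exact h3
  obtain ⟨w, hw, hwa, hwb, hG⟩ := key n le_rfl
  exact ⟨w, hw, by rw [hwa, h2], by rw [hwb, h2], hG⟩

/-- on a gap either all points move to the right or all points move to the left -/
theorem np17_sign {f : ℝ ≃o ℝ} {a b : ℝ} (hg : Gap f a b) :
    (∀ x : ℝ, a < x → x < b → x < f x) ∨ (∀ x : ℝ, a < x → x < b → f x < x) := by
  by_contra hcon
  push Not at hcon
  obtain ⟨⟨x, hxa, hxb, hx⟩, y, hya, hyb, hy⟩ := hcon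
  have hc : ContinuousOn (fun t : ℝ => f t - t) (uIcc x y) :=
    (f.continuous.sub continuous_id).continuousOn
  have h0 : (0 : ℝ) ∈ uIcc (f x - x) (f y - y) :=
    mem_uIcc.2 (Or.inl ⟨by linarith, by linarith⟩)
  obtain ⟨z, hz, hz0⟩ := intermediate_value_uIcc hc h0
  have hz1 : z ∈ Ioo a b := (ordConnected_Ioo.uIcc_subset ⟨hxa, hxb⟩ ⟨hya, hyb⟩) hz
  exact hg.ne z hz1.1 hz1.2 (by have : f z - z = 0 := hz0; linarith)

theorem np {Γ : Subgroup (ℝ ≃o ℝ)} (h : Gq Γ) {S : Set (ℝ ≃o ℝ)} (hSf : S.Finite) (hSΓ : S ⊆ Γ)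
    (hgen : ∀ f ∈ Γ, ∃ n, f ∈ BB S n) (B : ℝ) :
    ∃ δ0 : ℝ, 0 < δ0 ∧ ∀ {f : ℝ ≃o ℝ} {a b : ℝ}, f ∈ Γ → Gap f a b → ¬ Nr f a b B δ0 := by
  obtain ⟨CS, hCS0, hCS⟩ := np17_lip h hSf hSΓ
  obtain ⟨c0, hc0, hexp⟩ := expd h
  obtain ⟨B1, hB1⟩ : ∃ B1, B1 = max B 0 := ⟨_, rfl⟩
  have hB10 : 0 ≤ B1 := by rw [hB1]; exact le_max_right _ _
  have hBB1 : B ≤ B1 := by rw [hB1]; exact le_max_left _ _
  obtain ⟨Bc, hBc⟩ : ∃ Bc, Bc = Real.exp B1 * B1 := ⟨_, rfl⟩
  have hB1c : B1 ≤ Bc := by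
    rw [hBc]
    exact le_mul_of_one_le_left hB10 (Real.one_le_exp hB10)
  have hBc0 : 0 ≤ Bc := le_trans hB10 hB1c
  obtain ⟨K, hK⟩ : ∃ K, K = CS * (4 * Real.pi) + 3 * CB Bc + 1 := ⟨_, rfl⟩
  have hCB : 0 < CB Bc := Real.exp_pos _
  have hK0 : 0 ≤ K := by
    have := Real.pi_pos
    rw [hK]; positivity
  obtain ⟨A, hA⟩ : ∃ A, A = 2 * K * Real.exp K := ⟨_, rfl⟩
  have hA0 : 0 ≤ A := by rw [hA]; positivity
  have hKA : K * Real.exp K ≤ A := by
    rw [hA]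
    have : 0 ≤ K * Real.exp K := by positivity
    linarith
  obtain ⟨B', hB'⟩ : ∃ B', B' = max A Bc := ⟨_, rfl⟩
  have hAB' : A ≤ B' := by rw [hB']; exact le_max_left _ _
  have hBcB' : Bc ≤ B' := by rw [hB']; exact le_max_right _ _
  have hB'0 : 0 ≤ B' := le_trans hA0 hAB'
  obtain ⟨δ1, hδ1, hlam⟩ := lam B' (Real.exp (-(20 * (A + 1)))) hB'0 (Real.exp_pos _)
  obtain ⟨δ2, hδ2, hmac⟩ := macro_small h B' c0 hB'0 hc0
  obtain ⟨M, hM⟩ : ∃ M, M = CB Bc * (CS + 1) * Real.exp (20 * (A + 1)) := ⟨_, rfl⟩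
  have hM0 : 0 < M := by rw [hM]; positivity
  refine ⟨min (min δ1 δ2) (1 / M), lt_min (lt_min hδ1 hδ2) (by positivity), ?_⟩
  intro f a b hf hg hn
  obtain ⟨δ, hδ⟩ : ∃ δ, δ = min (min δ1 δ2) (1 / M) := ⟨_, rfl⟩
  rw [← hδ] at hn
  have hδ0 : 0 < δ := by
    rw [hδ]; exact lt_min (lt_min hδ1 hδ2) (by positivity)
  have hδδ1 : δ ≤ δ1 := by rw [hδ]; exact le_trans (min_le_left _ _) (min_le_left _ _)
  have hδδ2 : δ ≤ δ2 := by rw [hδ]; exact le_trans (min_le_left _ _) (min_le_right _ _)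
  have hδM : δ * M ≤ 1 := by
    have h1 : δ ≤ 1 / M := by rw [hδ]; exact min_le_right _ _
    calc δ * M ≤ 1 / M * M := mul_le_mul_of_nonneg_right h1 hM0.le
      _ = 1 := by field_simp
  have hn1 : Nr f a b B1 δ := hn.mono hBB1 le_rfl
  -- choose the direction
  obtain ⟨F, hF, hgF, hgR, hnF⟩ : ∃ F ∈ Γ, Gap F a b ∧ GapR F a b ∧ Nr F a b Bc δ := by
    rcases np17_sign hg with h1 | h1
    · exact ⟨f, hf, hg, ⟨hg.lt, hg.fa, hg.fb, h1⟩, hn1.mono hB1c le_rfl⟩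
    · have hia : (f⁻¹ : ℝ ≃o ℝ) a = a := by
        have e := f.symm_apply_apply a
        rw [hg.fa] at e; exact e
      have hib : (f⁻¹ : ℝ ≃o ℝ) b = b := by
        have e := f.symm_apply_apply b
        rw [hg.fb] at e; exact e
      have hmv : ∀ x : ℝ, a < x → x < b → x < (f⁻¹ : ℝ ≃o ℝ) x := by
        intro x hxa hxb
        have h2 : f x < x := h1 x hxa hxb
        have h3 : f.symm (f x) < f.symm x := f.symm.lt_iff_lt.2 h2
        rw [f.symm_apply_apply] at h3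
        exact h3
      refine ⟨f⁻¹, Γ.inv_mem hf, ⟨hg.lt, hia, hib, fun x hxa hxb => (hmv x hxa hxb).ne'⟩,
        ⟨hg.lt, hia, hib, hmv⟩, ?_⟩
      rw [hBc]
      exact Nr.inv (h.rg f hf) hg.lt hg.fa hg.fb hn1
  have c : Ctx Γ F a b Bc A K CS δ :=
    { h := h
      hf := hF
      g := hgR
      n := hnF
      B0 := hBc0
      S0 := hCS0
      δ0 := hδ0.le
      K1 := hK.ge
      A1 := hA
      δ1 := by rw [← hM]; exact hδM
      lam := fun w hw w' hw' h1 h2 =>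
        hlam h hF hw hw' hgF (hnF.mono hBcB' hδδ1) (h1.mono hAB') (h2.mono hAB') }
  obtain ⟨g, hgΓ, hgc⟩ := hexp a b hg.lt
  obtain ⟨n, hgn⟩ := hgen g hgΓ
  obtain ⟨w, hw, hwa, hwb, hG⟩ := np17_word c hSΓ hCS hgn
  have h5 := hmac hF hw hgF (hnF.mono hBcB' hδδ2) (hG.1.mono (le_trans hKA hAB'))
  rw [hwa, hwb] at h5
  exact absurd h5 (not_lt.2 hgc)

end Pool.Agent.H24.GN
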