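import Mathlib
import Pool.Agent.H24.GN.FctB
import Pool.Agent.H24.GN.FctC
import Pool.Agent.H50.GSD.D16
import Pool.Agent.H24.GN.Np

/-!
# GN-22: the standing facts hold for the lifts of a minimal, non ergodic C² group
-/

set_option autoImplicit false
open Set Filter Topology MeasureTheory

namespace Pool.Agent.H24.GN

open Pool.Agent.H52.GS (TT BB)
open Pool.Agent.H50.GS Pool.Agent.H50.GSD

theorem gq_Lf {G : Subgroup (Circle ≃ₜ Circle)} (hC : C2Group G) (hm : Minimal G)
    (hne : ¬ LebErgodic G) (hfg : G.FG) : Gq (Lf G) where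
  T_mem := Pool.Agent.H50.GSD.TT_mem
  comm := fun f hf x => by
    obtain ⟨g, hg, hl⟩ := hf
    exact isL_per hl x
  rg := fun f hf => Lf_rg hC hf
  lip := fun f hf => Lf_lip hC hf
  dense := fun x a b hab => Lf_dense hC hm x hab
  hyp := exists_hypC hC hm (exists_fix_fg hC hm hfg (Lf_ratC hC hne))
  con := fun κ hκ => con_null hC hm hne hκ

end Pool.Agent.H24.GN
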