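import Mathlib
import Pool.Agent.H24.GN.FrzA

/-!
# GN-24: the frozen statement S04035 follows from the statement for subgroups of `Circle ≃ₜ Circle`

PROOF.  `G = Subgroup.closure (range fun i => (f i).toHomeomorph)`.  `c2_closure`: the elements with a
C² lift form a subgroup: product: composition of lifts; inverse: the inverse function of the lift `u`
is C² because `deriv u ≠ 0` (see `Pool.Agent.H50.GS.Lifts`).  Finitely generated: the range is finite.
Minimal: a closed `C` with `g ⁻¹' C = C` for all `g ∈ G` has it for the generators.  An `A` with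
`f i ⁻¹' A = A` for all `i` has `g ⁻¹' A = A` for all `g ∈ G` (`Subgroup.closure_induction`).
-/

set_option autoImplicit false
open Set Filter Topology MeasureTheory
open scoped Manifold ContDiff

namespace Pool.Agent.H24.GN

open Pool.Agent.H50.GS

/-- the elements of the group generated by the diffeomorphisms have C2 lifts -/
theorem frzb_c2 {n : ℕ} (f : Fin n → Diffeomorph (𝓡 1) (𝓡 1) Circle Circle 2) :
    C2Group (Subgroup.closure (Set.range fun i => (f i).toHomeomorph)) := by
  intro g hg
  induction hg using Subgroup.closure_induction'' with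
  | mem x hx =>
    obtain ⟨i, rfl⟩ := hx
    exact lift_of_diffeo (f i)
  | inv_mem x hx =>
    obtain ⟨i, rfl⟩ := hx
    have h1 : (f i).symm.toHomeomorph = ((f i).toHomeomorph)⁻¹ := by
      ext x
      rfl
    have h2 := lift_of_diffeo (f i).symm
    rw [h1] at h2
    exact h2
  | one =>
    refine ⟨id, contDiff_id, fun t => ?_, fun t => rfl⟩
    rw [deriv_id]
    exact one_ne_zero
  | mul x y hx hy ihx ihy =>
    obtain ⟨u, hu⟩ := ihx
    obtain ⟨v, hv⟩ := ihy
    have hd : ∀ t, deriv (u ∘ v) t = deriv u (v t) * deriv v t := fun t =>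
      deriv_comp t (hu.1.differentiable (by norm_num) _) (hv.1.differentiable (by norm_num) _)
    refine ⟨u ∘ v, hu.1.comp hv.1, fun t => ?_, fun t => ?_⟩
    · rw [hd]
      exact mul_ne_zero (hu.2.1 _) (hv.2.1 _)
    · rw [Function.comp_apply, hu.2.2, hv.2.2]
      rfl

/-- sets invariant under the generators are invariant under the group -/
theorem frzb_inv {n : ℕ} (F : Fin n → (Circle ≃ₜ Circle)) (A : Set Circle)
    (h : ∀ i, ⇑(F i) ⁻¹' A = A) (g : Circle ≃ₜ Circle)
    (hg : g ∈ Subgroup.closure (Set.range F)) : ⇑g ⁻¹' A = A := by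
  induction hg using Subgroup.closure_induction with
  | mem x hx =>
    obtain ⟨i, rfl⟩ := hx
    exact h i
  | one => rfl
  | mul x y hx hy ihx ihy =>
    have h1 : ⇑(x * y) ⁻¹' A = ⇑y ⁻¹' (⇑x ⁻¹' A) := rfl
    rw [h1, ihx, ihy]
  | inv x hx ih =>
    have h1 : ⇑(x⁻¹) ⁻¹' (⇑x ⁻¹' A) = A := by
      ext z
      simp only [Set.mem_preimage]
      have h2 : x (x⁻¹ z) = z := x.apply_symm_apply z
      rw [h2]
    rw [ih] at h1
    exact h1

theorem frozen_of (H : ∀ G : Subgroup (Circle ≃ₜ Circle), C2Group G → G.FG → Minimal G →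
    LebErgodic G) :
    ∀ (n : ℕ) (f : Fin n → Diffeomorph (𝓡 1) (𝓡 1) Circle Circle 2),
      (∀ C : Set Circle, IsClosed C → (∀ i, ⇑(f i) ⁻¹' C = C) →
          C = ∅ ∨ C = Set.univ) →
      ∀ A : Set Circle, MeasurableSet (⇑Circle.exp ⁻¹' A) →
        (∀ i, ⇑(f i) ⁻¹' A = A) →
          MeasureTheory.volume (⇑Circle.exp ⁻¹' A) = 0 ∨
            MeasureTheory.volume (⇑Circle.exp ⁻¹' Aᶜ) = 0 := by
  intro n f hmin A hA hinv
  set F : Fin n → (Circle ≃ₜ Circle) := fun i => (f i).toHomeomorph with hF
  have hc2 : C2Group (Subgroup.closure (Set.range F)) := frzb_c2 f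
  have hfg : (Subgroup.closure (Set.range F)).FG :=
    ⟨(Set.finite_range F).toFinset, by rw [Set.Finite.coe_toFinset]⟩
  have hmem : ∀ i, F i ∈ Subgroup.closure (Set.range F) := fun i =>
    Subgroup.subset_closure (Set.mem_range_self i)
  have hM : Minimal (Subgroup.closure (Set.range F)) := by
    intro C hC h
    exact hmin C hC (fun i => h (F i) (hmem i))
  refine H _ hc2 hfg hM A hA ?_
  intro g hg
  exact frzb_inv F A (fun i => hinv i) g hg

end Pool.Agent.H24.GN
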